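import Pool.Agent.Work.MP_055a27_an.WeakStar
import Pool.Agent.Work.MP_055a27_an.TestF

/-!
# The weights `exp (|x| ^ g)`: definitions and statements of the items

Main result: for `0 < g < 1`, `1 < p < ∞` and all apertures `lam, b > 0`, the weight
`exp (|x| ^ g)` satisfies `(⋆)` if and only if `lam < max b (tan (g π / 2))`.  Proof: note 1942.
-/

set_option autoImplicit false

open MeasureTheory Set Filter Topology Complex Metric ComplexConjugate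
open scoped ENNReal NNReal

namespace Pool.Agent.Work.MP_055a27_an.Nv

/-! ### Definitions -/

/-- the Hardy-Littlewood maximal function -/
noncomputable def mx (h : ℝ → ℝ≥0∞) (x : ℝ) : ℝ≥0∞ :=
  ⨆ (r : ℝ) (_ : 0 < r), (∫⁻ t in Ioo (x - r) (x + r), h t) / ENNReal.ofReal (2 * r)

/-- the Poisson kernel -/
noncomputable def pk (z y t : ℝ) : ℝ := y / (Real.pi * ((z - t) ^ 2 + y ^ 2))

/-- the upper half disc with centre `c` and radius `R` -/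
def hd (c R : ℝ) : Set (ℝ × ℝ) := {q | 0 < q.2 ∧ (q.1 - c) ^ 2 + q.2 ^ 2 < R ^ 2}

/-- the analytic power `(1 - i z) ^ g` -/
noncomputable def Ag (g : ℝ) (z : ℂ) : ℂ := (1 - I * z) ^ (g : ℂ)

/-- the weight `exp (|x| ^ g)` -/
noncomputable def Ug (g : ℝ) (x : ℝ) : ℝ := Real.exp (|x| ^ g)

/-! ### The maximal function -/

/-- 1: the maximal theorem -/
def StHL : Prop := ∀ p : ℝ, 1 < p → ∃ C : ℝ≥0, ∀ h : ℝ → ℝ≥0∞, AEMeasurable h volume →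
  Measurable (mx h) ∧ ∫⁻ x, (mx h x) ^ p ≤ C * ∫⁻ x, (h x) ^ p

/-- 2: Poisson integrals in a cone -/
def StPk : Prop := ∀ b : ℝ, 0 < b → ∃ C : ℝ≥0, ∀ h : ℝ → ℝ≥0∞, AEMeasurable h volume →
  ∀ x z y : ℝ, 0 < y → |z - x| ≤ b * y →
    ∫⁻ t, ENNReal.ofReal (pk z y t) * h t ≤ C * mx h x

/-- 3: boundary values -/
def StBd : Prop := ∀ (b : ℝ) (f : ℝ → ℝ), 0 < b → Admissible f →
  ∀ᵐ x, ENNReal.ofReal |f x| ≤ ntMax b f x

/-- 4: the area function is bounded on `L^p` -/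
def StSLp : Prop := ∀ lam p : ℝ, 0 < lam → 1 < p → ∃ C : ℝ≥0, ∀ f : ℝ → ℝ, Admissible f →
  ∫⁻ x, (areaFn lam f x) ^ p ≤ C * ∫⁻ x, (ENNReal.ofReal |f x|) ^ p

/-! ### The local part -/

/-- 5: the Schwarz formula -/
def StDisc : Prop := ∃ C : ℝ≥0, ∀ (H : ℂ → ℂ) (c R : ℝ), 0 < R →
  DifferentiableOn ℂ H (ball (c : ℂ) R) →
  (∀ w ∈ ball (c : ℂ) R, (H (conj w)).re = -(H w).re) →
  ∀ w ∈ ball (c : ℂ) (R / 4), ENNReal.ofReal ‖deriv H w‖ ≤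
    C * (∫⁻ q in hd c R, ENNReal.ofReal |(H ((q.1 : ℂ) + (q.2 : ℂ) * I)).re|) /
      ENNReal.ofReal (R ^ 3)

/-- 6: the Schwarz integral of a function which vanishes near `c` -/
def StFar : Prop := ∀ (f : ℝ → ℝ) (c R : ℝ), Admissible f → 0 < R →
  (∀ t, |t - c| < R → f t = 0) →
  DifferentiableOn ℂ (schw f) (ball (c : ℂ) R) ∧
  ∀ w ∈ ball (c : ℂ) R, (schw f (conj w)).re = -(schw f w).re

/-- 7: the Poisson integral is a contraction of `L^1` -/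
def StL1 : Prop := ∀ (f : ℝ → ℝ) (y : ℝ), Admissible f → 0 < y →
  ∫⁻ x, ENNReal.ofReal |poisson f x y| ≤ ∫⁻ x, ENNReal.ofReal |f x|

/-- 8: the local estimate -/
def StLoc : Prop := ∀ lam b p : ℝ, 0 < lam → 0 < b → 1 < p → ∃ K : ℝ, 1 ≤ K ∧ ∃ C : ℝ≥0,
  ∀ (f : ℝ → ℝ) (c l : ℝ), Admissible f → 0 < l →
  ∫⁻ x in Ioo (c - l) (c + l),
      (∫⁻ q in cone lam x ∩ {q | q.2 < 2 * l}, ENNReal.ofReal (gradSq f q.1 q.2)) ^ (p / 2) ≤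
    C * ∫⁻ x in Ioo (c - K * l) (c + K * l), (ntMax b f x) ^ p

/-- 9: from local to global estimates -/
def StLG : Prop := ∀ (K : ℝ) (C0 C1 : ℝ≥0), 1 ≤ K → ∃ C : ℝ≥0,
  ∀ (l : ℝ → ℝ) (W N Ψ : ℝ → ℝ≥0∞), Measurable W → Measurable N → Measurable Ψ →
  (∀ x, 0 < l x) → (∀ x y, |l x - l y| ≤ |x - y| / (4 * K)) →
  (∀ x y, |x - y| ≤ K * l y → W x ≤ C1 * W y ∧ W y ≤ C1 * W x) →
  (∀ c, ∫⁻ x in Ioo (c - l c) (c + l c), Ψ x ≤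
    C0 * ∫⁻ x in Ioo (c - K * l c) (c + K * l c), N x) →
  ∫⁻ x, Ψ x * W x ≤ C * ∫⁻ x, N x * W x

/-! ### The high part -/

/-- 10: the power -/
def StAg : Prop := ∀ g : ℝ, 0 < g → g < 1 →
  (∀ z : ℂ, 0 ≤ z.im → HasDerivAt (Ag g) (-I * g * (1 - I * z) ^ ((g : ℂ) - 1)) z) ∧
  (∀ z : ℂ, 0 ≤ z.im → ‖Ag g z‖ = ‖1 - I * z‖ ^ g ∧
    Real.cos (g * Real.pi / 2) * ‖1 - I * z‖ ^ g ≤ (Ag g z).re) ∧
  ∀ x : ℝ, |(Ag g (x : ℂ)).re - Real.cos (g * Real.pi / 2) * |x| ^ g| ≤ 1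

/-- 11: decay in cones -/
def StDec : Prop := ∀ g lam a : ℝ, 0 < g → g < 1 → 0 < lam →
  lam < Real.tan (g * Real.pi / 2) → 0 < a → ∃ C : ℝ, 0 ≤ C ∧ ∀ x z y : ℝ, 0 ≤ y →
    |z - x| ≤ lam * y →
    Real.exp (-a * ((Ag g ((z : ℂ) + (y : ℂ) * I)).re - (Ag g (x : ℂ)).re)) ≤
      C * ((1 + y / (1 + |x|) ^ (1 - g)) ^ 3)⁻¹

/-- 12: bounds for the derivative of the Schwarz integral -/
def StGr : Prop :=
  (∀ b : ℝ, 0 < b → ∃ C : ℝ≥0, ∀ f : ℝ → ℝ, Admissible f → ∀ x y : ℝ, 0 < y →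
    ENNReal.ofReal (y * ‖dschw f ((x : ℂ) + (y : ℂ) * I)‖) ≤ C * ntMax b f x) ∧
  ∀ (f : ℝ → ℝ) (y0 : ℝ), Admissible f → 0 < y0 → ∃ C : ℝ, ∀ w : ℂ, y0 ≤ w.im →
    ‖dschw f w‖ ≤ C * (1 + ‖w‖ ^ 2)

/-- 13: domination by a Poisson integral -/
def StDom : Prop := ∀ (g a t0 : ℝ) (f : ℝ → ℝ), 0 < g → g < 1 → 0 ≤ a → 0 < t0 → Admissible f →
  ∀ z y : ℝ, 0 < y →
    ENNReal.ofReal (‖dschw f ((z : ℂ) + ((y + t0 : ℝ) : ℂ) * I)‖ *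
        Real.exp (a * (Ag g ((z : ℂ) + (y : ℂ) * I)).re)) ≤
      ∫⁻ t, ENNReal.ofReal (pk z y t) * ENNReal.ofReal
        (‖dschw f ((t : ℂ) + (t0 : ℂ) * I)‖ * Real.exp (a * (Ag g (t : ℂ)).re))

/-- 14: the high part of the area function -/
def StHi : Prop := ∀ g lam b p ε : ℝ, 0 < g → g < 1 → 0 < lam →
  lam < Real.tan (g * Real.pi / 2) → 0 < b → 0 < p → 0 < ε → ∃ C : ℝ≥0,
  ∀ f : ℝ → ℝ, Admissible f → ∀ x : ℝ,
    ∫⁻ q in cone lam x ∩ {q | ε * (1 + |x|) ^ (1 - g) ≤ q.2}, ENNReal.ofReal (gradSq f q.1 q.2) ≤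
      C * (mx (fun t => ntMax b f t * ENNReal.ofReal (Real.exp (|t| ^ g / p))) x *
        ENNReal.ofReal (Real.exp (-(|x| ^ g / p)))) ^ 2

/-! ### The inequality for the weight -/

/-- 15: the positive direction -/
def StPos : Prop := ∀ g lam b p : ℝ, 0 < g → g < 1 → 0 < lam →
  lam < Real.tan (g * Real.pi / 2) → 0 < b → 1 < p → Star lam b p (Ug g)

/-- 16: the weight is in weak `A_∞` -/
def StWk : Prop := ∀ g : ℝ, 0 < g → WeakAInfty (Ug g)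

/-- 17: the weight is not in `A_∞` -/
def StNA : Prop := ∀ g : ℝ, 0 < g → IsWeight (Ug g) ∧ ¬ AInfty (Ug g)

/-- 18: the inequality is not vacuous -/
def StNV : Prop := ∀ g b p : ℝ, 0 < g → g < 1 → 0 < b → 0 < p → ∃ f : ℝ → ℝ, Admissible f ∧
  0 < ∫⁻ x : ℝ, (ntMax b f x) ^ p * ENNReal.ofReal (Ug g x) ∧
  ∫⁻ x : ℝ, (ntMax b f x) ^ p * ENNReal.ofReal (Ug g x) < ∞

/-- 19: the negative direction -/
def StNeg : Prop := ∀ g lam b p : ℝ, 0 < g → g < 1 → 0 < lam → 0 < b → 0 < p →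
  max b (Real.tan (g * Real.pi / 2)) ≤ lam → ¬ Star lam b p (Ug g)

end Pool.Agent.Work.MP_055a27_an.Nv
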