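import Pool.Agent.Work.MP_055a27_an.Nv.Stmts

/-!
# MP_055a27_an, Nv: the analytic power (item 10)
-/

set_option autoImplicit false

open MeasureTheory Set Filter Topology Complex Metric ComplexConjugate
open scoped ENNReal NNReal

namespace Pool.Agent.Work.MP_055a27_an.Nv

namespace AgF

theorem re_one_sub (z : ℂ) : (1 - I * z).re = 1 + z.im := by simp

theorem slit (z : ℂ) (hz : 0 ≤ z.im) : 1 - I * z ∈ slitPlane := by
  left
  rw [re_one_sub]
  linarith

theorem deriv (g : ℝ) (z : ℂ) (hz : 0 ≤ z.im) :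
    HasDerivAt (Ag g) (-I * g * (1 - I * z) ^ ((g : ℂ) - 1)) z := by
  have h1 : HasDerivAt (fun z : ℂ => 1 - I * z) (-I) z := by
    have := ((hasDerivAt_id z).const_mul I).const_sub 1
    simpa using this
  have h2 := h1.cpow_const (c := (g : ℂ)) (slit z hz)
  unfold Ag
  convert h2 using 1
  ring

theorem norm_pow (g : ℝ) (v : ℂ) (hv : v ≠ 0) : ‖v ^ (g : ℂ)‖ = ‖v‖ ^ g := by
  rw [Complex.norm_cpow_of_ne_zero hv]
  simp

theorem re_lower (g : ℝ) (h0 : 0 < g) (h1 : g < 1) (v : ℂ) (hv : 0 < v.re) :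
    Real.cos (g * Real.pi / 2) * ‖v‖ ^ g ≤ (v ^ (g : ℂ)).re := by
  rw [Complex.cpow_ofReal_re, mul_comm]
  refine mul_le_mul_of_nonneg_left ?_ (Real.rpow_nonneg (norm_nonneg _) _)
  have h2 : |arg v| < Real.pi / 2 := Complex.abs_arg_lt_pi_div_two_iff.mpr (Or.inl hv)
  rw [← Real.cos_abs (arg v * g)]
  have h3 : |arg v * g| ≤ g * Real.pi / 2 := by
    rw [abs_mul, abs_of_pos h0]
    nlinarith
  refine Real.cos_le_cos_of_nonneg_of_le_pi (abs_nonneg _) ?_ h3
  have := Real.pi_pos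
  nlinarith

/-- the comparison for positive `x` -/
theorem pos (g : ℝ) (h0 : 0 < g) (h1 : g < 1) (x : ℝ) (hx : 0 < x) :
    ‖((1 : ℂ) - I * x) ^ (g : ℂ) - (-(I * x)) ^ (g : ℂ)‖ ≤ 1 := by
  have hsl : ∀ s : ℝ, (s : ℂ) - I * x ∈ slitPlane := by
    intro s
    right
    simp [hx.ne']
  have hder : ∀ s : ℝ, HasDerivAt (fun s : ℝ => ((s : ℂ) - I * x) ^ (g : ℂ))
      ((g : ℂ) * ((s : ℂ) - I * x) ^ ((g : ℂ) - 1)) s := by
    intro s
    have h2 : HasDerivAt (fun s : ℝ => (s : ℂ) - I * x) 1 s :=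
      (Complex.ofRealCLM.hasDerivAt (x := s)).sub_const _
    have h3 := (hasDerivAt_id ((s : ℂ) - I * x)).cpow_const (c := (g : ℂ)) (hsl s)
    have h4 := HasDerivAt.comp s h3 h2
    rw [mul_one, mul_one] at h4
    exact h4
  have hkey : ∀ ε : ℝ, 0 < ε → ε < 1 →
      ‖((1 : ℂ) - I * x) ^ (g : ℂ) - ((ε : ℂ) - I * x) ^ (g : ℂ)‖ ≤ 1 := by
    intro ε hε hε1
    have h5 := image_norm_le_of_norm_deriv_right_le_deriv_boundary'
      (f := fun s : ℝ => ((s : ℂ) - I * x) ^ (g : ℂ) - ((ε : ℂ) - I * x) ^ (g : ℂ))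
      (f' := fun s : ℝ => (g : ℂ) * ((s : ℂ) - I * x) ^ ((g : ℂ) - 1))
      (a := ε) (b := 1) (B := fun s => s ^ g - ε ^ g) (B' := fun s => g * s ^ (g - 1))
      ?_ ?_ ?_ ?_ ?_ ?_ (x := 1) ⟨hε1.le, le_rfl⟩
    · refine h5.trans ?_ |>.trans' ?_
      · simp only [Real.one_rpow]
        have := Real.rpow_pos_of_pos hε g
        linarith
      · simp
    · exact fun s _ => ((hder s).sub_const _).continuousAt.continuousWithinAt
    · exact fun s _ => ((hder s).sub_const _).hasDerivWithinAt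
    · simp
    · intro s hs
      have hs0 : 0 < s := lt_of_lt_of_le hε hs.1
      exact ((Real.continuousAt_rpow_const s g (Or.inl hs0.ne')).sub continuousAt_const).continuousWithinAt
    · intro s hs
      have hs0 : 0 < s := lt_of_lt_of_le hε hs.1
      exact ((Real.hasDerivAt_rpow_const (Or.inl hs0.ne')).sub_const _).hasDerivWithinAt
    · intro s hs
      have hs0 : 0 < s := lt_of_lt_of_le hε hs.1
      have hne : (s : ℂ) - I * x ≠ 0 := slitPlane_ne_zero (hsl s)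
      have h6 : ‖((s : ℂ) - I * x) ^ ((g : ℂ) - 1)‖ = ‖(s : ℂ) - I * x‖ ^ (g - 1) := by
        have := norm_pow (g - 1) _ hne
        rwa [Complex.ofReal_sub, Complex.ofReal_one] at this
      rw [norm_mul, h6, Complex.norm_real, Real.norm_eq_abs, abs_of_pos h0]
      refine mul_le_mul_of_nonneg_left ?_ h0.le
      refine Real.rpow_le_rpow_of_nonpos hs0 ?_ (by linarith)
      have h7 := Complex.abs_re_le_norm ((s : ℂ) - I * x)
      have h8 : ((s : ℂ) - I * x).re = s := by simp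
      rw [h8] at h7
      exact (le_abs_self s).trans h7
  have hlim : Tendsto (fun ε : ℝ => ‖((1 : ℂ) - I * x) ^ (g : ℂ) - ((ε : ℂ) - I * x) ^ (g : ℂ)‖)
      (𝓝[>] 0) (𝓝 ‖((1 : ℂ) - I * x) ^ (g : ℂ) - (((0 : ℝ) : ℂ) - I * x) ^ (g : ℂ)‖) := by
    refine Tendsto.mono_left ?_ nhdsWithin_le_nhds
    exact (tendsto_const_nhds.sub (hder 0).continuousAt).norm
  have h9 := le_of_tendsto hlim (b := 1) (by
    filter_upwards [Ioo_mem_nhdsGT (zero_lt_one' ℝ)] with ε hε
    exact hkey ε hε.1 hε.2)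
  simpa using h9

theorem real_pos (g : ℝ) (h0 : 0 < g) (h1 : g < 1) (x : ℝ) (hx : 0 < x) :
    |(Ag g (x : ℂ)).re - Real.cos (g * Real.pi / 2) * |x| ^ g| ≤ 1 := by
  have h2 := (Complex.abs_re_le_norm _).trans (pos g h0 h1 x hx)
  have h3 : ((-(I * (x : ℂ))) ^ (g : ℂ)).re = Real.cos (g * Real.pi / 2) * |x| ^ g := by
    rw [Complex.cpow_ofReal_re]
    have h4 : arg (-(I * (x : ℂ))) = -(Real.pi / 2) := by
      have h5 : -(I * (x : ℂ)) = (x : ℂ) * (-I) := by ring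
      rw [h5, Complex.arg_real_mul _ hx, Complex.arg_neg_I]
    rw [h4, norm_neg, norm_mul, Complex.norm_I, one_mul, Complex.norm_real, Real.norm_eq_abs,
      mul_comm]
    congr 1
    rw [neg_mul, Real.cos_neg]
    congr 1
    ring
  rw [Complex.sub_re, h3] at h2
  exact h2

theorem real_neg (g : ℝ) (x : ℝ) : (Ag g ((-x : ℝ) : ℂ)).re = (Ag g (x : ℂ)).re := by
  unfold Ag
  have h1 : (1 : ℂ) - I * ((-x : ℝ) : ℂ) = conj (1 - I * (x : ℂ)) := by
    simp
  rw [h1, Complex.cpow_ofReal_re, Complex.cpow_ofReal_re, Complex.norm_conj, Complex.arg_conj]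
  have h2 : arg (1 - I * (x : ℂ)) ≠ Real.pi := by
    have := slit (x : ℂ) (by simp)
    exact (Complex.mem_slitPlane_iff_arg.mp this).1
  rw [if_neg h2, neg_mul, Real.cos_neg]

end AgF

theorem I_Ag : StAg := by
  intro g h0 h1
  refine ⟨fun z hz => AgF.deriv g z hz, fun z hz => ⟨?_, ?_⟩, fun x => ?_⟩
  · exact AgF.norm_pow g _ (slitPlane_ne_zero (AgF.slit z hz))
  · refine AgF.re_lower g h0 h1 _ ?_
    rw [AgF.re_one_sub]
    linarith
  · rcases lt_trichotomy x 0 with hx | hx | hx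
    · have h2 := AgF.real_pos g h0 h1 (-x) (by linarith)
      rwa [AgF.real_neg, abs_neg] at h2
    · subst hx
      simp [Ag, Real.zero_rpow h0.ne']
    · exact AgF.real_pos g h0 h1 x hx

end Pool.Agent.Work.MP_055a27_an.Nv
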