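import Pool.Agent.Work.MP_055a27_an.Nv.Stmts

/-!
# Decay in cones
-/

set_option autoImplicit false

open MeasureTheory Set Filter Topology Complex Metric ComplexConjugate
open scoped ENNReal NNReal

namespace Pool.Agent.Work.MP_055a27_an.Nv

namespace Dec

/-- the elementary inequality for the derivative -/
theorem re_lower {g lam x z y s : ℝ} (hg0 : 0 < g) (hg1 : g < 1) (hlam : 0 < lam)
    (hk : 0 < Real.sin (g * Real.pi / 2) - lam * Real.cos (g * Real.pi / 2))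
    (hy : 0 ≤ y) (hz : |z - x| ≤ lam * y) (hs0 : 0 ≤ s) (hs1 : s ≤ 1) :
    g * (Real.sin (g * Real.pi / 2) - lam * Real.cos (g * Real.pi / 2)) * y *
        (1 + |x| + (1 + lam) * y) ^ (g - 1) ≤
      ((-I * g * (1 - I * ((x : ℂ) + (s : ℂ) * (((z - x : ℝ) : ℂ) + (y : ℂ) * I))) ^ ((g : ℂ) - 1)) *
        (((z - x : ℝ) : ℂ) + (y : ℂ) * I)).re := by
  set w : ℂ := (x : ℂ) + (s : ℂ) * (((z - x : ℝ) : ℂ) + (y : ℂ) * I) with hw
  set v : ℂ := 1 - I * w with hv
  have hvre : v.re = 1 + s * y := by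
    simp [hv, hw]
  have hvpos : 0 < v.re := by rw [hvre]; positivity
  have hv0 : v ≠ 0 := by
    intro h; rw [h] at hvpos; simp at hvpos
  have harg : |v.arg| < Real.pi / 2 := Complex.abs_arg_lt_pi_div_two_iff.2 (Or.inl hvpos)
  set φ : ℝ := v.arg with hφ
  have hpi := Real.pi_pos
  have habs : ‖v‖ ≤ 1 + |x| + (1 + lam) * y := by
    have h1 : ‖v‖ ≤ 1 + ‖w‖ := by
      calc ‖v‖ ≤ ‖(1 : ℂ)‖ + ‖I * w‖ := norm_sub_le _ _
        _ = 1 + ‖w‖ := by simp
    have h2 : ‖w‖ ≤ |x| + (|z - x| + y) := by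
      calc ‖w‖ ≤ ‖(x : ℂ)‖ + ‖(s : ℂ) * (((z - x : ℝ) : ℂ) + (y : ℂ) * I)‖ := norm_add_le _ _
        _ = |x| + s * ‖(((z - x : ℝ) : ℂ) + (y : ℂ) * I)‖ := by
          rw [norm_mul, Complex.norm_real, Complex.norm_real, Real.norm_eq_abs, Real.norm_eq_abs,
            abs_of_nonneg hs0]
        _ ≤ |x| + 1 * (|z - x| + y) := by
          have h3 : ‖(((z - x : ℝ) : ℂ) + (y : ℂ) * I)‖ ≤ |z - x| + y := by
            calc ‖(((z - x : ℝ) : ℂ) + (y : ℂ) * I)‖ ≤ ‖((z - x : ℝ) : ℂ)‖ + ‖(y : ℂ) * I‖ :=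
                  norm_add_le _ _
              _ = |z - x| + y := by
                rw [norm_mul, Complex.norm_real, Complex.norm_real, Complex.norm_I,
                  Real.norm_eq_abs, Real.norm_eq_abs, abs_of_nonneg hy, mul_one]
          have h4 : 0 ≤ ‖(((z - x : ℝ) : ℂ) + (y : ℂ) * I)‖ := norm_nonneg _
          have h5 : s * ‖(((z - x : ℝ) : ℂ) + (y : ℂ) * I)‖ ≤
              1 * ‖(((z - x : ℝ) : ℂ) + (y : ℂ) * I)‖ := mul_le_mul_of_nonneg_right hs1 h4
          linarith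
        _ = |x| + (|z - x| + y) := by ring
    linarith
  have hnpos : 0 < ‖v‖ := norm_pos_iff.2 hv0
  have hpow : v ^ ((g : ℂ) - 1) =
      ((‖v‖ ^ (g - 1) : ℝ) : ℂ) * (Real.cos ((g - 1) * φ) + Real.sin ((g - 1) * φ) * I) := by
    have h1 : ((g : ℂ) - 1) = ((g - 1 : ℝ) : ℂ) := by push_cast; ring
    rw [h1, Complex.cpow_ofReal]
    simp [hφ, mul_comm]
  have hval : ((-I * g * v ^ ((g : ℂ) - 1)) * (((z - x : ℝ) : ℂ) + (y : ℂ) * I)).re =
      g * ‖v‖ ^ (g - 1) * (y * Real.cos ((1 - g) * φ) - (z - x) * Real.sin ((1 - g) * φ)) := by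
    rw [hpow]
    have h2 : (g - 1) * φ = -((1 - g) * φ) := by ring
    rw [h2, Real.cos_neg, Real.sin_neg]
    simp only [Complex.mul_re, Complex.mul_im, Complex.add_re, Complex.add_im, Complex.neg_re,
      Complex.neg_im, Complex.I_re, Complex.I_im, Complex.ofReal_re, Complex.ofReal_im]
    ring
  rw [hval]
  have hθ : |(1 - g) * φ| ≤ (1 - g) * (Real.pi / 2) := by
    rw [abs_mul, abs_of_pos (by linarith : (0 : ℝ) < 1 - g)]
    exact mul_le_mul_of_nonneg_left harg.le (by linarith)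
  have hcos : Real.cos ((1 - g) * (Real.pi / 2)) ≤ Real.cos ((1 - g) * φ) := by
    rw [← Real.cos_abs ((1 - g) * φ)]
    apply Real.cos_le_cos_of_nonneg_of_le_pi (abs_nonneg _) _ hθ
    nlinarith
  have hsin : |Real.sin ((1 - g) * φ)| ≤ Real.sin ((1 - g) * (Real.pi / 2)) := by
    rw [Real.abs_sin_eq_sin_abs_of_abs_le_pi]
    · apply Real.sin_le_sin_of_le_of_le_pi_div_two _ _ hθ
      · have := abs_nonneg ((1 - g) * φ); linarith
      · nlinarith
    · calc |(1 - g) * φ| ≤ (1 - g) * (Real.pi / 2) := hθ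
        _ ≤ Real.pi := by nlinarith
  have e1 : Real.cos ((1 - g) * (Real.pi / 2)) = Real.sin (g * Real.pi / 2) := by
    rw [← Real.cos_pi_div_two_sub]; congr 1; ring
  have e2 : Real.sin ((1 - g) * (Real.pi / 2)) = Real.cos (g * Real.pi / 2) := by
    rw [← Real.sin_pi_div_two_sub]; congr 1; ring
  rw [e1] at hcos
  rw [e2] at hsin
  have hmain : (Real.sin (g * Real.pi / 2) - lam * Real.cos (g * Real.pi / 2)) * y ≤
      y * Real.cos ((1 - g) * φ) - (z - x) * Real.sin ((1 - g) * φ) := by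
    have h1 : (z - x) * Real.sin ((1 - g) * φ) ≤ lam * y * Real.cos (g * Real.pi / 2) := by
      calc (z - x) * Real.sin ((1 - g) * φ) ≤ |(z - x) * Real.sin ((1 - g) * φ)| := le_abs_self _
        _ = |z - x| * |Real.sin ((1 - g) * φ)| := abs_mul _ _
        _ ≤ (lam * y) * Real.cos (g * Real.pi / 2) :=
          mul_le_mul hz hsin (abs_nonneg _) (by positivity)
    have h2 : y * Real.sin (g * Real.pi / 2) ≤ y * Real.cos ((1 - g) * φ) :=
      mul_le_mul_of_nonneg_left hcos hy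
    linarith
  have hP : (1 + |x| + (1 + lam) * y) ^ (g - 1) ≤ ‖v‖ ^ (g - 1) :=
    Real.rpow_le_rpow_of_nonpos hnpos habs (by linarith)
  have hP0 : 0 ≤ (1 + |x| + (1 + lam) * y) ^ (g - 1) := by positivity
  calc g * (Real.sin (g * Real.pi / 2) - lam * Real.cos (g * Real.pi / 2)) * y *
        (1 + |x| + (1 + lam) * y) ^ (g - 1)
      = g * (((1 + |x| + (1 + lam) * y) ^ (g - 1)) *
          ((Real.sin (g * Real.pi / 2) - lam * Real.cos (g * Real.pi / 2)) * y)) := by ring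
    _ ≤ g * (‖v‖ ^ (g - 1) *
          (y * Real.cos ((1 - g) * φ) - (z - x) * Real.sin ((1 - g) * φ))) := by
        apply mul_le_mul_of_nonneg_left _ hg0.le
        exact mul_le_mul hP hmain (by positivity) (by positivity)
    _ = _ := by ring

/-- the increment -/
theorem incr (h1 : StAg) {g lam x z y : ℝ} (hg0 : 0 < g) (hg1 : g < 1) (hlam : 0 < lam)
    (hk : 0 < Real.sin (g * Real.pi / 2) - lam * Real.cos (g * Real.pi / 2))
    (hy : 0 ≤ y) (hz : |z - x| ≤ lam * y) :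
    g * (Real.sin (g * Real.pi / 2) - lam * Real.cos (g * Real.pi / 2)) * y *
        (1 + |x| + (1 + lam) * y) ^ (g - 1) ≤
      (Ag g ((z : ℂ) + (y : ℂ) * I)).re - (Ag g (x : ℂ)).re := by
  obtain ⟨hd, -, -⟩ := h1 g hg0 hg1
  set ζ : ℂ := ((z - x : ℝ) : ℂ) + (y : ℂ) * I with hζ
  have hline : ∀ s : ℝ, HasDerivAt (fun s : ℝ => (x : ℂ) + (s : ℂ) * ζ) ζ s := by
    intro s
    have := ((Complex.ofRealCLM.hasDerivAt (x := s)).mul_const ζ).const_add (x : ℂ)
    simpa using this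
  have him : ∀ s : ℝ, 0 ≤ s → 0 ≤ ((x : ℂ) + (s : ℂ) * ζ).im := by
    intro s hs
    simp [hζ]
    positivity
  have hder : ∀ s : ℝ, 0 ≤ s → HasDerivAt (fun s : ℝ => (Ag g ((x : ℂ) + (s : ℂ) * ζ)).re)
      ((-I * g * (1 - I * ((x : ℂ) + (s : ℂ) * ζ)) ^ ((g : ℂ) - 1)) * ζ).re s := by
    intro s hs
    have h2 := (hd _ (him s hs)).comp s (hline s)
    have h3 := Complex.reCLM.hasFDerivAt.comp_hasDerivAt s h2
    exact h3
  have hmvt : ∃ c ∈ Ioo (0 : ℝ) 1,
      ((-I * g * (1 - I * ((x : ℂ) + (c : ℂ) * ζ)) ^ ((g : ℂ) - 1)) * ζ).re =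
      ((Ag g ((x : ℂ) + ((1 : ℝ) : ℂ) * ζ)).re - (Ag g ((x : ℂ) + ((0 : ℝ) : ℂ) * ζ)).re) /
        (1 - 0) := by
    apply exists_hasDerivAt_eq_slope (fun s : ℝ => (Ag g ((x : ℂ) + (s : ℂ) * ζ)).re) _
      (by norm_num : (0 : ℝ) < 1)
    · intro s hs
      exact (hder s hs.1).continuousAt.continuousWithinAt
    · intro s hs
      exact hder s hs.1.le
  obtain ⟨c, hc, he⟩ := hmvt
  have h4 := re_lower (x := x) (z := z) hg0 hg1 hlam hk hy hz hc.1.le hc.2.le
  rw [← hζ, he] at h4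
  have e1 : (x : ℂ) + ((1 : ℝ) : ℂ) * ζ = (z : ℂ) + (y : ℂ) * I := by
    rw [hζ]; push_cast; ring
  have e0 : (x : ℂ) + ((0 : ℝ) : ℂ) * ζ = (x : ℂ) := by push_cast; ring
  rw [e1, e0] at h4
  simpa using h4

/-- the elementary bound of the exponential -/
theorem exp_bound {g d : ℝ} (hg0 : 0 < g) (hd : 0 < d) : ∃ C : ℝ, 0 ≤ C ∧ ∀ r : ℝ, 0 ≤ r →
    Real.exp (-(d * (r ^ g - 1))) ≤ C * ((1 + r) ^ 3)⁻¹ := by
  obtain ⟨n, hn⟩ := exists_nat_ge (3 / g)
  refine ⟨8 * Real.exp d * (1 + (n.factorial : ℝ) / d ^ n), by positivity, ?_⟩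
  intro r hr
  have h1r : 0 < (1 + r) ^ 3 := by positivity
  rw [← div_eq_mul_inv, le_div_iff₀ h1r]
  have hsplit : Real.exp (-(d * (r ^ g - 1))) = Real.exp d * Real.exp (-(d * r ^ g)) := by
    rw [← Real.exp_add]; congr 1; ring
  rw [hsplit]
  have hE : 0 < Real.exp d := Real.exp_pos _
  have hfac : 0 ≤ (n.factorial : ℝ) / d ^ n := by positivity
  rcases le_total r 1 with h | h
  · have h2 : Real.exp (-(d * r ^ g)) ≤ 1 := by
      rw [Real.exp_le_one_iff]
      have : 0 ≤ d * r ^ g := by positivity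
      linarith
    have h3 : (1 + r) ^ 3 ≤ 8 := by
      have : (1 + r) ^ 3 ≤ 2 ^ 3 := pow_le_pow_left₀ (by linarith) (by linarith) 3
      norm_num at this; exact this
    calc Real.exp d * Real.exp (-(d * r ^ g)) * (1 + r) ^ 3 ≤ Real.exp d * 1 * 8 := by
          apply mul_le_mul _ h3 h1r.le (by positivity)
          exact mul_le_mul_of_nonneg_left h2 hE.le
      _ ≤ 8 * Real.exp d * (1 + (n.factorial : ℝ) / d ^ n) := by nlinarith
  · have hT : 0 < r ^ g := Real.rpow_pos_of_pos (by linarith) _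
    have h1T : 1 ≤ r ^ g := Real.one_le_rpow h hg0.le
    have h4 : (d * r ^ g) ^ n / n.factorial ≤ Real.exp (d * r ^ g) :=
      Real.pow_div_factorial_le_exp _ (by positivity) n
    have h5 : r ^ 3 ≤ (r ^ g) ^ n := by
      have e1 : r ^ 3 = (r ^ g) ^ (3 / g) := by
        rw [← Real.rpow_mul (by linarith), mul_div_cancel₀ _ hg0.ne']
        norm_cast
      rw [e1, ← Real.rpow_natCast]
      exact Real.rpow_le_rpow_of_exponent_le h1T hn
    have h6 : (1 + r) ^ 3 ≤ 8 * r ^ 3 := by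
      have : (1 + r) ^ 3 ≤ (2 * r) ^ 3 := pow_le_pow_left₀ (by linarith) (by linarith) 3
      calc (1 + r) ^ 3 ≤ (2 * r) ^ 3 := this
        _ = 8 * r ^ 3 := by ring
    have h7 : Real.exp (-(d * r ^ g)) * (r ^ g) ^ n ≤ (n.factorial : ℝ) / d ^ n := by
      rw [Real.exp_neg, le_div_iff₀ (by positivity)]
      have hE2 : 0 < Real.exp (d * r ^ g) := Real.exp_pos _
      rw [inv_mul_eq_div, div_mul_eq_mul_div, div_le_iff₀ hE2]
      have h8 : (d * r ^ g) ^ n ≤ Real.exp (d * r ^ g) * n.factorial := by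
        rwa [div_le_iff₀ (by positivity)] at h4
      calc (r ^ g) ^ n * d ^ n = (d * r ^ g) ^ n := by rw [mul_pow]; ring
        _ ≤ (n.factorial : ℝ) * Real.exp (d * r ^ g) := by linarith
    calc Real.exp d * Real.exp (-(d * r ^ g)) * (1 + r) ^ 3
        ≤ Real.exp d * Real.exp (-(d * r ^ g)) * (8 * (r ^ g) ^ n) := by
          apply mul_le_mul_of_nonneg_left _ (by positivity)
          linarith
      _ = 8 * Real.exp d * (Real.exp (-(d * r ^ g)) * (r ^ g) ^ n) := by ring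
      _ ≤ 8 * Real.exp d * ((n.factorial : ℝ) / d ^ n) :=
          mul_le_mul_of_nonneg_left h7 (by positivity)
      _ ≤ 8 * Real.exp d * (1 + (n.factorial : ℝ) / d ^ n) :=
          mul_le_mul_of_nonneg_left (by linarith) (by positivity)

/-- comparison with the relative height -/
theorem compare {g lam X y : ℝ} (hg0 : 0 < g) (hg1 : g < 1) (hlam : 0 < lam) (hX : 1 ≤ X)
    (hy : 0 ≤ y) :
    (2 * (1 + lam)) ^ (g - 1) * ((y / X ^ (1 - g)) ^ g - 1) ≤ y * (X + (1 + lam) * y) ^ (g - 1) := by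
  have hX0 : 0 < X := by linarith
  have hXp : 1 ≤ X ^ (1 - g) := Real.one_le_rpow hX (by linarith)
  have hXp0 : 0 < X ^ (1 - g) := by linarith
  set r : ℝ := y / X ^ (1 - g) with hr
  have hr0 : 0 ≤ r := by positivity
  have hry : r ≤ y := by
    rw [hr]; exact div_le_self hy hXp
  have hc0 : 0 < (2 * (1 + lam)) ^ (g - 1) := by positivity
  rcases le_total ((1 + lam) * y) X with h | h
  · have h1 : (2 * X) ^ (g - 1) ≤ (X + (1 + lam) * y) ^ (g - 1) :=
      Real.rpow_le_rpow_of_nonpos (by positivity) (by linarith) (by linarith)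
    have h2 : (2 * X) ^ (g - 1) = 2 ^ (g - 1) * X ^ (g - 1) :=
      Real.mul_rpow (by norm_num) hX0.le
    have h3 : X ^ (g - 1) = (X ^ (1 - g))⁻¹ := by
      rw [← Real.rpow_neg hX0.le]; congr 1; ring
    have h4 : (2 * (1 + lam)) ^ (g - 1) ≤ (2 : ℝ) ^ (g - 1) :=
      Real.rpow_le_rpow_of_nonpos (by norm_num) (by linarith) (by linarith)
    have h5 : r ^ g - 1 ≤ r := by
      rcases le_total r 1 with h6 | h6
      · have : r ^ g ≤ 1 := Real.rpow_le_one hr0 h6 hg0.le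
        linarith
      · have : r ^ g ≤ r ^ (1 : ℝ) := Real.rpow_le_rpow_of_exponent_le h6 hg1.le
        rw [Real.rpow_one] at this
        linarith
    calc (2 * (1 + lam)) ^ (g - 1) * (r ^ g - 1) ≤ (2 * (1 + lam)) ^ (g - 1) * r :=
          mul_le_mul_of_nonneg_left h5 hc0.le
      _ ≤ 2 ^ (g - 1) * r := mul_le_mul_of_nonneg_right h4 hr0
      _ = y * (2 * X) ^ (g - 1) := by rw [h2, h3, hr]; ring
      _ ≤ y * (X + (1 + lam) * y) ^ (g - 1) := mul_le_mul_of_nonneg_left h1 hy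
  · have hy0 : 0 < y := by
      by_contra hcon
      have : y = 0 := le_antisymm (not_lt.1 hcon) hy
      rw [this] at h
      linarith [mul_zero (1 + lam)]
    have h1 : (2 * (1 + lam) * y) ^ (g - 1) ≤ (X + (1 + lam) * y) ^ (g - 1) :=
      Real.rpow_le_rpow_of_nonpos (by positivity) (by linarith) (by linarith)
    have h2 : (2 * (1 + lam) * y) ^ (g - 1) = (2 * (1 + lam)) ^ (g - 1) * y ^ (g - 1) :=
      Real.mul_rpow (by positivity) hy
    have h3 : y * y ^ (g - 1) = y ^ g := by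
      rw [mul_comm, ← Real.rpow_add_one hy0.ne']; congr 1; ring
    have h5 : r ^ g - 1 ≤ y ^ g := by
      have : r ^ g ≤ y ^ g := Real.rpow_le_rpow hr0 hry hg0.le
      linarith
    calc (2 * (1 + lam)) ^ (g - 1) * (r ^ g - 1) ≤ (2 * (1 + lam)) ^ (g - 1) * y ^ g :=
          mul_le_mul_of_nonneg_left h5 hc0.le
      _ = y * (2 * (1 + lam) * y) ^ (g - 1) := by rw [h2, ← h3]; ring
      _ ≤ y * (X + (1 + lam) * y) ^ (g - 1) := mul_le_mul_of_nonneg_left h1 hy

end Dec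

theorem I_Dec (h1 : StAg) : StDec := by
  intro g lam a hg0 hg1 hlam htan ha
  have hpi := Real.pi_pos
  have hcos : 0 < Real.cos (g * Real.pi / 2) := by
    apply Real.cos_pos_of_mem_Ioo
    constructor
    · have : 0 < g * Real.pi / 2 := by positivity
      linarith
    · nlinarith
  have hk : 0 < Real.sin (g * Real.pi / 2) - lam * Real.cos (g * Real.pi / 2) := by
    rw [Real.tan_eq_sin_div_cos, lt_div_iff₀ hcos] at htan
    linarith
  set κ : ℝ := Real.sin (g * Real.pi / 2) - lam * Real.cos (g * Real.pi / 2) with hκ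
  have hc0 : 0 < (2 * (1 + lam)) ^ (g - 1) := by positivity
  have hd : 0 < a * (g * κ * (2 * (1 + lam)) ^ (g - 1)) := by positivity
  obtain ⟨C, hC0, hC⟩ := Dec.exp_bound hg0 hd
  refine ⟨C, hC0, ?_⟩
  intro x z y hy hz
  have hX : 1 ≤ 1 + |x| := by have := abs_nonneg x; linarith
  have hinc := Dec.incr h1 hg0 hg1 hlam hk hy hz
  rw [← hκ] at hinc
  have hcmp := Dec.compare hg0 hg1 hlam hX hy
  have hr0 : 0 ≤ y / (1 + |x|) ^ (1 - g) := by positivity
  refine le_trans ?_ (hC _ hr0)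
  apply Real.exp_le_exp.2
  set D : ℝ := (Ag g ((z : ℂ) + (y : ℂ) * I)).re - (Ag g (x : ℂ)).re
  have h2 : g * κ * ((2 * (1 + lam)) ^ (g - 1) * ((y / (1 + |x|) ^ (1 - g)) ^ g - 1)) ≤ D := by
    calc g * κ * ((2 * (1 + lam)) ^ (g - 1) * ((y / (1 + |x|) ^ (1 - g)) ^ g - 1))
        ≤ g * κ * (y * (1 + |x| + (1 + lam) * y) ^ (g - 1)) :=
          mul_le_mul_of_nonneg_left hcmp (by positivity)
      _ = g * κ * y * (1 + |x| + (1 + lam) * y) ^ (g - 1) := by ring
      _ ≤ D := hinc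
  have h3 := mul_le_mul_of_nonneg_left h2 ha.le
  calc -a * D = -(a * D) := by ring
    _ ≤ -(a * (g * κ * ((2 * (1 + lam)) ^ (g - 1) * ((y / (1 + |x|) ^ (1 - g)) ^ g - 1)))) := by
        linarith
    _ = -(a * (g * κ * (2 * (1 + lam)) ^ (g - 1)) * ((y / (1 + |x|) ^ (1 - g)) ^ g - 1)) := by
        ring

end Pool.Agent.Work.MP_055a27_an.Nv
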