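import Pool.Agent.Work.MP_055a27_an.Nv.Stmts

/-!
# Item Disc: the derivative in a disc by the integral of the real part over the half disc
-/

set_option autoImplicit false

open MeasureTheory Set Filter Topology Complex Metric ComplexConjugate
open scoped ENNReal NNReal

namespace Pool.Agent.Work.MP_055a27_an.Nv

namespace Disc

/-- mean value inequality on a circle -/
lemma circle_mv {H : ℂ → ℂ} {v : ℂ} {r ρ : ℝ} (hr : 0 < r) (hrρ : r < ρ)
    (hH : DifferentiableOn ℂ H (ball v ρ)) :
    ENNReal.ofReal |(H v).re| * ENNReal.ofReal (2 * Real.pi) ≤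
      ∫⁻ θ in Ioo (-Real.pi) Real.pi,
        ENNReal.ofReal |(H (v + (r : ℂ) * (Real.cos θ + Real.sin θ * I))).re| := by
  have hcb : closedBall v r ⊆ ball v ρ := closedBall_subset_ball hrρ
  have hdc : DiffContOnCl ℂ H (ball v |r|) := by
    rw [abs_of_pos hr]
    exact (hH.mono hcb).diffContOnCl_ball Subset.rfl
  have h1 := hdc.circleAverage
  rw [Real.circleAverage_eq_integral_add (-Real.pi)] at h1
  have h2 : ∫ θ in (0 : ℝ)..2 * Real.pi, H (circleMap v r (θ + -Real.pi)) =
      ∫ θ in (-Real.pi)..Real.pi, H (circleMap v r θ) := by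
    rw [intervalIntegral.integral_comp_add_right (fun θ => H (circleMap v r θ)) (-Real.pi)]
    congr 1 <;> ring
  rw [h2] at h1
  have hpi := Real.pi_pos
  have hcm : ∀ θ, circleMap v r θ = v + (r : ℂ) * (Real.cos θ + Real.sin θ * I) := by
    intro θ
    rw [circleMap, Complex.exp_mul_I, ← Complex.ofReal_cos, ← Complex.ofReal_sin]
  have hmem : ∀ θ, circleMap v r θ ∈ ball v ρ := fun θ =>
    hcb (by simpa [mem_closedBall, dist_eq_norm] using
      (circleMap_mem_closedBall v hr.le θ))
  have hcont : Continuous fun θ => H (circleMap v r θ) := by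
    rw [continuous_iff_continuousAt]
    intro θ
    exact ((hH.continuousOn.continuousAt (isOpen_ball.mem_nhds (hmem θ)))).comp
      (continuous_circleMap v r).continuousAt
  have h3 : (H v).re = (2 * Real.pi)⁻¹ * ∫ θ in (-Real.pi)..Real.pi, (H (circleMap v r θ)).re := by
    have h4 : (∫ θ in (-Real.pi)..Real.pi, H (circleMap v r θ)).re =
        ∫ θ in (-Real.pi)..Real.pi, (H (circleMap v r θ)).re := by
      have := Complex.reCLM.intervalIntegral_comp_comm
        (hcont.intervalIntegrable (μ := volume) (-Real.pi) Real.pi)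
      simpa using this.symm
    rw [← h1, ← h4]
    have e : ((2 * Real.pi)⁻¹ : ℝ) • (∫ θ in (-Real.pi)..Real.pi, H (circleMap v r θ)) =
        (((2 * Real.pi)⁻¹ : ℝ) : ℂ) * ∫ θ in (-Real.pi)..Real.pi, H (circleMap v r θ) :=
      Complex.real_smul
    rw [e, Complex.re_ofReal_mul]
  have h5 : |(H v).re| * (2 * Real.pi) ≤
      ∫ θ in (-Real.pi)..Real.pi, |(H (circleMap v r θ)).re| := by
    rw [h3, abs_mul, abs_of_pos (by positivity : 0 < (2 * Real.pi)⁻¹)]
    have h6 := intervalIntegral.abs_integral_le_integral_abs (μ := volume)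
      (f := fun θ => (H (circleMap v r θ)).re) (by linarith : -Real.pi ≤ Real.pi)
    calc (2 * Real.pi)⁻¹ * |∫ θ in (-Real.pi)..Real.pi, (H (circleMap v r θ)).re| *
          (2 * Real.pi) = |∫ θ in (-Real.pi)..Real.pi, (H (circleMap v r θ)).re| := by
          field_simp
      _ ≤ _ := h6
  rw [← ENNReal.ofReal_mul (abs_nonneg _)]
  refine (ENNReal.ofReal_le_ofReal h5).trans ?_
  have hint : Continuous fun θ => |(H (circleMap v r θ)).re| :=
    (Complex.continuous_re.comp hcont).abs
  rw [intervalIntegral.integral_of_le (by linarith), ofReal_integral_eq_lintegral_ofReal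
    ((hint.intervalIntegrable (μ := volume)
      (-Real.pi) Real.pi).1) (Eventually.of_forall fun θ => abs_nonneg _),
    restrict_Ioo_eq_restrict_Ioc]
  simp only [hcm]
  exact le_rfl

lemma measurable_ind {H : ℂ → ℂ} {s t : Set ℂ} (hs : MeasurableSet s) (hst : s ⊆ t)
    (hH : ContinuousOn H t) :
    Measurable (s.indicator fun z => ENNReal.ofReal |(H z).re|) := by
  classical
  rw [← Set.piecewise_eq_indicator]
  refine ContinuousOn.measurable_piecewise ?_ continuousOn_const hs
  exact ENNReal.continuous_ofReal.comp_continuousOn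
    ((Complex.continuous_re.comp_continuousOn (hH.mono hst)).abs)

/-- area mean value inequality -/
lemma area_mv {H : ℂ → ℂ} {v : ℂ} {ρ : ℝ} (hρ : 0 < ρ) (hH : DifferentiableOn ℂ H (ball v ρ)) :
    ENNReal.ofReal |(H v).re| * ENNReal.ofReal (Real.pi * ρ ^ 2) ≤
      ∫⁻ z in ball v ρ, ENNReal.ofReal |(H z).re| := by
  set G : ℂ → ℝ≥0∞ := (ball v ρ).indicator fun z => ENNReal.ofReal |(H z).re| with hG
  have hGm : Measurable G := measurable_ind measurableSet_ball Subset.rfl hH.continuousOn
  have hpi := Real.pi_pos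
  have h1 : ∫⁻ z in ball v ρ, ENNReal.ofReal |(H z).re| = ∫⁻ z, G (v + z) := by
    rw [← lintegral_indicator measurableSet_ball, lintegral_add_left_eq_self (fun z => G z) v]
  rw [h1, ← Complex.lintegral_comp_polarCoord_symm, polarCoord_target, Measure.volume_eq_prod,
    ← Measure.prod_restrict, lintegral_prod]
  · have h2 : ∀ r ∈ Ioo 0 ρ, ENNReal.ofReal r * (ENNReal.ofReal |(H v).re| *
        ENNReal.ofReal (2 * Real.pi)) ≤ ∫⁻ θ in Ioo (-Real.pi) Real.pi,
          ENNReal.ofReal r • G (v + Complex.polarCoord.symm (r, θ)) := by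
      intro r hr
      simp only [smul_eq_mul]
      rw [lintegral_const_mul' _ _ ENNReal.ofReal_ne_top]
      gcongr
      refine (circle_mv hr.1 hr.2 hH).trans (lintegral_mono fun θ => ?_)
      have h3 : v + Complex.polarCoord.symm (r, θ) ∈ ball v ρ := by
        rw [mem_ball, dist_eq_norm, add_sub_cancel_left, Complex.norm_polarCoord_symm]
        simpa [abs_of_pos hr.1] using hr.2
      rw [hG, indicator_of_mem h3, Complex.polarCoord_symm_apply]
    calc ENNReal.ofReal |(H v).re| * ENNReal.ofReal (Real.pi * ρ ^ 2)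
        = ∫⁻ r in Ioo 0 ρ, ENNReal.ofReal r * (ENNReal.ofReal |(H v).re| *
            ENNReal.ofReal (2 * Real.pi)) := by
          rw [lintegral_mul_const _ ENNReal.measurable_ofReal]
          have h4 : ∫⁻ r in Ioo 0 ρ, ENNReal.ofReal r = ENNReal.ofReal (ρ ^ 2 / 2) := by
            rw [restrict_Ioo_eq_restrict_Ioc,
              ← ofReal_integral_eq_lintegral_ofReal (f := fun r : ℝ => r)
              ((continuous_id.intervalIntegrable (μ := volume) 0 ρ).1)
              (ae_restrict_of_forall_mem measurableSet_Ioc fun r hr => hr.1.le),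
              ← intervalIntegral.integral_of_le hρ.le, integral_id]
            simp
          rw [h4, ← ENNReal.ofReal_mul (abs_nonneg _), ← ENNReal.ofReal_mul (abs_nonneg _),
            ← ENNReal.ofReal_mul (by positivity)]
          congr 1
          ring
      _ ≤ ∫⁻ r in Ioo 0 ρ, ∫⁻ θ in Ioo (-Real.pi) Real.pi,
            ENNReal.ofReal r • G (v + Complex.polarCoord.symm (r, θ)) :=
          setLIntegral_mono' measurableSet_Ioo h2
      _ ≤ ∫⁻ r in Ioi 0, ∫⁻ θ in Ioo (-Real.pi) Real.pi,
            ENNReal.ofReal r • G (v + Complex.polarCoord.symm (r, θ)) :=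
          lintegral_mono_set fun r hr => hr.1
  · apply Measurable.aemeasurable
    have h5 : Measurable fun p : ℝ × ℝ => Complex.polarCoord.symm p := by
      have : (fun p : ℝ × ℝ => Complex.polarCoord.symm p) =
          fun p : ℝ × ℝ => (p.1 : ℂ) * (Real.cos p.2 + Real.sin p.2 * I) := by
        funext p; exact Complex.polarCoord_symm_apply p
      rw [this]
      fun_prop
    simp only [smul_eq_mul]
    exact (ENNReal.measurable_ofReal.comp measurable_fst).mul
      (hGm.comp (measurable_const.add h5))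

/-- the symmetric disc -/
lemma half {H : ℂ → ℂ} {c R : ℝ} (hR : 0 < R) (hH : DifferentiableOn ℂ H (ball (c : ℂ) R))
    (hs : ∀ w ∈ ball (c : ℂ) R, (H (conj w)).re = -(H w).re) :
    ∫⁻ z in ball (c : ℂ) R, ENNReal.ofReal |(H z).re| ≤
      2 * ∫⁻ q in hd c R, ENNReal.ofReal |(H ((q.1 : ℂ) + (q.2 : ℂ) * I)).re| := by
  set g : ℂ → ℝ≥0∞ := fun z => ENNReal.ofReal |(H z).re| with hg
  set U : Set ℂ := ball (c : ℂ) R ∩ {z | 0 < z.im} with hU
  have hUm : MeasurableSet U :=
    measurableSet_ball.inter (measurableSet_lt measurable_const Complex.measurable_im)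
  have hgU : Measurable (U.indicator g) := measurable_ind hUm inter_subset_left hH.continuousOn
  have hconj : ∀ z, z ∈ ball (c : ℂ) R → conj z ∈ ball (c : ℂ) R := by
    intro z hz
    rw [mem_ball, dist_eq_norm] at hz ⊢
    have : conj z - (c : ℂ) = conj (z - (c : ℂ)) := by simp
    rw [this, Complex.norm_conj]; exact hz
  have hpt : ∀ z, (ball (c : ℂ) R).indicator g z ≤ U.indicator g z + U.indicator g (conj z) := by
    intro z
    by_cases hz : z ∈ ball (c : ℂ) R
    · rw [indicator_of_mem hz]
      have hgc : g (conj z) = g z := by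
        simp only [hg, hs z hz, abs_neg]
      rcases lt_trichotomy z.im 0 with h | h | h
      · have h2 : conj z ∈ U := ⟨hconj z hz, by show 0 < (conj z).im; rw [conj_im]; linarith⟩
        rw [indicator_of_mem h2, hgc]
        exact le_add_self
      · have h2 : conj z = z := by
          rw [Complex.conj_eq_iff_im]; exact h
        have h3 := hs z hz
        rw [h2] at h3
        have h4 : (H z).re = 0 := by linarith
        simp [hg, h4]
      · have h2 : z ∈ U := ⟨hz, h⟩
        rw [indicator_of_mem h2]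
        exact le_self_add
    · rw [indicator_of_notMem hz]; exact zero_le
  have hmp : MeasurePreserving (fun z : ℂ => conj z) volume volume :=
    Complex.conjLIE.measurePreserving
  have h1 : ∫⁻ z, U.indicator g (conj z) = ∫⁻ z, U.indicator g z := hmp.lintegral_comp hgU
  have h2 : ∫⁻ z, U.indicator g z =
      ∫⁻ q in hd c R, ENNReal.ofReal |(H ((q.1 : ℂ) + (q.2 : ℂ) * I)).re| := by
    rw [← (Complex.volume_preserving_equiv_real_prod.symm).lintegral_comp hgU]
    have hdm : MeasurableSet (hd c R) := by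
      have e1 : MeasurableSet {q : ℝ × ℝ | 0 < q.2} :=
        measurableSet_lt measurable_const measurable_snd
      have e2 : MeasurableSet {q : ℝ × ℝ | (q.1 - c) ^ 2 + q.2 ^ 2 < R ^ 2} :=
        measurableSet_lt (by fun_prop) measurable_const
      exact e1.inter e2
    rw [← lintegral_indicator hdm]
    refine lintegral_congr fun q => ?_
    have h3 : Complex.measurableEquivRealProd.symm q = (q.1 : ℂ) + (q.2 : ℂ) * I := by
      rw [Complex.measurableEquivRealProd_symm_apply]
      exact Complex.mk_eq_add_mul_I _ _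
    rw [h3]
    have h4 : (q.1 : ℂ) + (q.2 : ℂ) * I ∈ U ↔ q ∈ hd c R := by
      simp only [hU, hd, mem_inter_iff, mem_ball, dist_eq_norm, Set.mem_ofPred_eq]
      have h5 : ‖(q.1 : ℂ) + (q.2 : ℂ) * I - (c : ℂ)‖ ^ 2 = (q.1 - c) ^ 2 + q.2 ^ 2 := by
        rw [← Complex.normSq_eq_norm_sq, Complex.normSq_apply]
        simp
        ring
      have h6 : ((q.1 : ℂ) + (q.2 : ℂ) * I).im = q.2 := by simp
      rw [h6]
      constructor
      · rintro ⟨h7, h8⟩
        refine ⟨h8, ?_⟩
        rw [← h5]
        exact pow_lt_pow_left₀ h7 (norm_nonneg _) two_ne_zero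
      · rintro ⟨h7, h8⟩
        refine ⟨?_, h7⟩
        rw [← h5] at h8
        exact lt_of_pow_lt_pow_left₀ 2 hR.le h8
    by_cases hq : q ∈ hd c R
    · rw [indicator_of_mem hq, indicator_of_mem (h4.2 hq)]
    · rw [indicator_of_notMem hq, indicator_of_notMem (fun h => hq (h4.1 h))]
  calc ∫⁻ z in ball (c : ℂ) R, ENNReal.ofReal |(H z).re|
      = ∫⁻ z, (ball (c : ℂ) R).indicator g z := (lintegral_indicator measurableSet_ball _).symm
    _ ≤ ∫⁻ z, (U.indicator g z + U.indicator g (conj z)) := lintegral_mono hpt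
    _ = (∫⁻ z, U.indicator g z) + ∫⁻ z, U.indicator g (conj z) := lintegral_add_left hgU _
    _ = 2 * ∫⁻ z, U.indicator g z := by rw [h1, two_mul]
    _ = _ := by rw [h2]

end Disc

open Disc in
/-- 5 -/
theorem I_Disc : StDisc := by
  refine ⟨256, fun H c R hR hH hs w hw => ?_⟩
  set J : ℝ≥0∞ := ∫⁻ q in hd c R, ENNReal.ofReal |(H ((q.1 : ℂ) + (q.2 : ℂ) * I)).re| with hJ
  have hR3 : 0 < R ^ 3 := by positivity
  have hpi := Real.pi_pos
  have hpi3 := Real.pi_gt_three
  rcases eq_or_ne J ∞ with hJt | hJt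
  · rw [hJt, ENNReal.mul_top (by norm_num), ENNReal.top_div_of_ne_top ENNReal.ofReal_ne_top]
    exact le_top
  have hw1 : ‖w - (c : ℂ)‖ < R / 4 := by simpa [dist_eq_norm] using hw
  have hhalf := half hR hH hs
  rw [← hJ] at hhalf
  set σ : ℝ := 8 * J.toReal / (Real.pi * R ^ 2) with hσ
  have hb : ∀ v ∈ ball w (R / 8), |(H v).re| ≤ σ := by
    intro v hv
    have h1 : ‖v - w‖ < R / 8 := by simpa [dist_eq_norm] using hv
    have hsub : ball v (R / 2) ⊆ ball (c : ℂ) R := by
      intro z hz
      have h2 : ‖z - v‖ < R / 2 := by simpa [dist_eq_norm] using hz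
      rw [mem_ball, dist_eq_norm]
      have h3 : z - (c : ℂ) = (z - v) + (v - w) + (w - (c : ℂ)) := by ring
      rw [h3]
      have h4 := norm_add_le ((z - v) + (v - w)) (w - (c : ℂ))
      have h5 := norm_add_le (z - v) (v - w)
      linarith
    have h6 := area_mv (by positivity : 0 < R / 2) (hH.mono hsub)
    have h7 : ENNReal.ofReal |(H v).re| * ENNReal.ofReal (Real.pi * (R / 2) ^ 2) ≤ 2 * J :=
      h6.trans ((lintegral_mono_set hsub).trans hhalf)
    rw [← ENNReal.ofReal_mul (abs_nonneg _)] at h7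
    have h8 : |(H v).re| * (Real.pi * (R / 2) ^ 2) ≤ 2 * J.toReal := by
      have h9 := ENNReal.toReal_mono (ENNReal.mul_ne_top (by norm_num) hJt) h7
      rw [ENNReal.toReal_ofReal (by positivity), ENNReal.toReal_mul] at h9
      simpa using h9
    rw [hσ, le_div_iff₀ (by positivity)]
    nlinarith
  have hsub2 : ball w (R / 8) ⊆ ball (c : ℂ) R := by
    intro z hz
    have h2 : ‖z - w‖ < R / 8 := by simpa [dist_eq_norm] using hz
    rw [mem_ball, dist_eq_norm]
    have h3 : z - (c : ℂ) = (z - w) + (w - (c : ℂ)) := by ring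
    rw [h3]
    have h4 := norm_add_le (z - w) (w - (c : ℂ))
    linarith
  have hg := grad_bound (by positivity : 0 < R / 8) (hH.mono hsub2) hb
  have h10 : ‖deriv H w‖ ≤ 256 * J.toReal / R ^ 3 := by
    refine hg.trans ?_
    rw [hσ]
    have e1 : 4 * (8 * J.toReal / (Real.pi * R ^ 2)) / (R / 8) =
        256 * J.toReal / R ^ 3 / Real.pi := by
      field_simp
      ring
    rw [e1]
    exact div_le_self (by positivity) (by linarith)
  refine (ENNReal.ofReal_le_ofReal h10).trans (le_of_eq ?_)
  rw [ENNReal.ofReal_div_of_pos hR3, ENNReal.ofReal_mul (by norm_num), ENNReal.ofReal_toReal hJt]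
  norm_num

end Pool.Agent.Work.MP_055a27_an.Nv
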