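import Pool.Agent.Work.MP_055a27_an.Nv.Stmts

/-!
# Domination by a Poisson integral
-/

set_option autoImplicit false

open MeasureTheory Set Filter Topology Complex Metric ComplexConjugate
open scoped ENNReal NNReal

namespace Pool.Agent.Work.MP_055a27_an.Nv

namespace Dom

lemma one_le_norm {ζ : ℂ} (h : 0 ≤ ζ.im) : 1 ≤ ‖1 - I * ζ‖ := by
  have h1 := Complex.re_le_norm (1 - I * ζ)
  have h2 : (1 - I * ζ).re = 1 + ζ.im := by simp
  rw [h2] at h1
  linarith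

lemma norm_le_add (ζ : ℂ) : ‖ζ‖ ≤ ‖1 - I * ζ‖ + 1 := by
  have h : ‖I * ζ‖ = ‖ζ‖ := by rw [norm_mul, Complex.norm_I, one_mul]
  rw [← h]
  calc ‖I * ζ‖ = ‖1 - (1 - I * ζ)‖ := by ring_nf
    _ ≤ ‖(1 : ℂ)‖ + ‖1 - I * ζ‖ := norm_sub_le _ _
    _ = ‖1 - I * ζ‖ + 1 := by rw [norm_one, add_comm]

lemma sq_le_exp (g ε : ℝ) (hg : 0 < g) (hε : 0 < ε) :
    ∃ C : ℝ, 0 ≤ C ∧ ∀ r : ℝ, 1 ≤ r → r ^ 2 ≤ C * Real.exp (ε * r ^ g) := by
  obtain ⟨n, hn⟩ := exists_nat_ge (2 / g)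
  refine ⟨(n.factorial : ℝ) / ε ^ n, by positivity, fun r hr => ?_⟩
  have hr0 : 0 ≤ r := by linarith
  have h1 : r ^ 2 ≤ (r ^ g) ^ n := by
    rw [← Real.rpow_natCast (r ^ g) n, ← Real.rpow_mul hr0, ← Real.rpow_natCast r 2]
    apply Real.rpow_le_rpow_of_exponent_le hr
    have : 2 / g * g ≤ n * g := mul_le_mul_of_nonneg_right hn hg.le
    rw [div_mul_cancel₀ _ hg.ne'] at this
    push_cast
    linarith
  have h2 := Real.pow_div_factorial_le_exp (ε * r ^ g) (by positivity) n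
  rw [div_le_iff₀ (by positivity), mul_pow] at h2
  refine h1.trans ?_
  rw [div_mul_eq_mul_div, le_div_iff₀ (by positivity)]
  linarith

lemma pow_le_add (g g' a ε : ℝ) (hg : 0 ≤ g) (hgg : g < g') (ha : 0 ≤ a) (hε : 0 < ε) :
    ∃ C : ℝ, ∀ r : ℝ, 1 ≤ r → a * r ^ g ≤ ε * r ^ g' + C := by
  have h := (tendsto_rpow_neg_atTop (y := g' - g) (by linarith)).const_mul a
  rw [mul_zero] at h
  obtain ⟨R, hR⟩ := (eventually_atTop.1 (h.eventually_lt_const hε))
  refine ⟨a * (max R 1) ^ g, fun r hr => ?_⟩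
  have hr0 : 0 < r := by linarith
  have hm : 0 ≤ a * (max R 1) ^ g := mul_nonneg ha (Real.rpow_nonneg (by positivity) _)
  rcases le_total R r with h1 | h1
  · have h2 := (hR r h1).le
    have h3 : a * r ^ g = (a * r ^ (-(g' - g))) * r ^ g' := by
      rw [mul_assoc, ← Real.rpow_add hr0]
      congr 2
      ring
    rw [h3]
    have h4 : (a * r ^ (-(g' - g))) * r ^ g' ≤ ε * r ^ g' :=
      mul_le_mul_of_nonneg_right h2 (Real.rpow_nonneg hr0.le _)
    linarith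
  · have h2 : r ^ g ≤ (max R 1) ^ g :=
      Real.rpow_le_rpow hr0.le (h1.trans (le_max_left _ _)) hg
    have h3 : a * r ^ g ≤ a * (max R 1) ^ g := mul_le_mul_of_nonneg_left h2 ha
    have h4 : 0 ≤ ε * r ^ g' := mul_nonneg hε.le (Real.rpow_nonneg hr0.le _)
    linarith

lemma diff_dschw {f : ℝ → ℝ} (hf : Admissible f) {w : ℂ} (hw : 0 < w.im) :
    DifferentiableAt ℂ (dschw f) w := by
  have h1 : DifferentiableOn ℂ (schw f) uhp :=
    fun v hv => (hasDerivAt_schw hf hv).differentiableAt.differentiableWithinAt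
  have h2 := (h1.deriv isOpen_uhp).differentiableAt (isOpen_uhp.mem_nhds (show w ∈ uhp from hw))
  refine h2.congr_of_eventuallyEq ?_
  filter_upwards [isOpen_uhp.mem_nhds (show w ∈ uhp from hw)] with v hv
  exact ((hasDerivAt_schw hf hv).deriv).symm

/-- the analytic function -/
noncomputable def GG (f : ℝ → ℝ) (g a t0 : ℝ) (ζ : ℂ) : ℂ :=
  dschw f (ζ + t0 * I) * Complex.exp (a * Ag g ζ)

lemma norm_GG (f : ℝ → ℝ) (g a t0 : ℝ) (ζ : ℂ) :
    ‖GG f g a t0 ζ‖ = ‖dschw f (ζ + t0 * I)‖ * Real.exp (a * (Ag g ζ).re) := by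
  rw [GG, norm_mul, Complex.norm_exp, Complex.re_ofReal_mul]

lemma diff_GG (h1 : StAg) {f : ℝ → ℝ} (hf : Admissible f) {g a t0 : ℝ} (hg : 0 < g) (hg1 : g < 1)
    (ht : 0 < t0) {ζ : ℂ} (hζ : 0 ≤ ζ.im) : DifferentiableAt ℂ (GG f g a t0) ζ := by
  have h2 : DifferentiableAt ℂ (fun ζ : ℂ => dschw f (ζ + t0 * I)) ζ := by
    have h3 : DifferentiableAt ℂ (dschw f) (ζ + t0 * I) := diff_dschw hf (by simpa using by linarith)
    exact DifferentiableAt.comp (g := dschw f) (f := fun ζ : ℂ => ζ + t0 * I) ζ h3 (by fun_prop)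
  have h4 : DifferentiableAt ℂ (Ag g) ζ := ((h1 g hg hg1).1 ζ hζ).differentiableAt
  exact h2.mul (((differentiableAt_const _).mul h4).cexp)

end Dom

theorem I_Dom (h1 : StAg) (h2 : StGr) : StDom := by
  intro g a t0 f hg hg1 ha ht hf z y hy
  obtain ⟨C0, hC0⟩ := h2.2 f t0 hf ht
  obtain ⟨g', hgg', hg'1⟩ := exists_between hg1
  have hg' : 0 < g' := hg.trans hgg'
  have hC0' : ∀ w : ℂ, t0 ≤ w.im → ‖dschw f w‖ ≤ |C0| * (1 + ‖w‖ ^ 2) := fun w hw =>
    (hC0 w hw).trans (mul_le_mul_of_nonneg_right (le_abs_self _) (by positivity))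
  have hcos : 0 < Real.cos (g' * Real.pi / 2) := by
    apply Real.cos_pos_of_mem_Ioo
    constructor
    · nlinarith [Real.pi_pos]
    · nlinarith [Real.pi_pos]
  have hcos1 : ∀ s : ℝ, 0 < s → s < 1 → ∀ ζ : ℂ, 0 ≤ ζ.im → (Ag s ζ).re ≤ ‖1 - I * ζ‖ ^ s := by
    intro s hs hs1 ζ hζ
    rw [← ((h1 s hs hs1).2.1 ζ hζ).1]
    exact Complex.re_le_norm _
  set w0 : ℂ := (z : ℂ) + (y : ℂ) * I with hw0
  have hw0im : 0 ≤ w0.im := by rw [hw0]; simpa using hy.le
  -- the inequality with the extra factor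
  have key : ∀ δ : ℝ, 0 < δ →
      ENNReal.ofReal (‖Dom.GG f g a t0 w0‖ * Real.exp (-δ * (Ag g' w0).re)) ≤
      ∫⁻ t, ENNReal.ofReal (pk z y t) * ENNReal.ofReal ‖Dom.GG f g a t0 (t : ℂ)‖ := by
    intro δ hδ
    set D : ℂ → ℂ := fun ζ => Complex.exp (((-δ : ℝ) : ℂ) * Ag g' ζ) with hD
    have hDn : ∀ ζ, ‖D ζ‖ = Real.exp (-δ * (Ag g' ζ).re) := by
      intro ζ
      rw [hD]
      simp only
      rw [Complex.norm_exp, Complex.re_ofReal_mul]
    have hDle : ∀ ζ : ℂ, 0 ≤ ζ.im →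
        ‖D ζ‖ ≤ Real.exp (-(δ * Real.cos (g' * Real.pi / 2)) * ‖1 - I * ζ‖ ^ g') := by
      intro ζ hζ
      rw [hDn]
      apply Real.exp_le_exp.2
      have h3 := ((h1 g' hg' hg'1).2.1 ζ hζ).2
      nlinarith
    have hD1 : ∀ ζ : ℂ, 0 ≤ ζ.im → ‖D ζ‖ ≤ 1 := by
      intro ζ hζ
      refine (hDle ζ hζ).trans (Real.exp_le_one_iff.2 ?_)
      have h3 : 0 ≤ ‖1 - I * ζ‖ ^ g' := Real.rpow_nonneg (norm_nonneg _) _
      have h4 : 0 ≤ δ * Real.cos (g' * Real.pi / 2) * ‖1 - I * ζ‖ ^ g' :=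
        mul_nonneg (mul_nonneg hδ.le hcos.le) h3
      linarith
    set F : ℂ → ℂ := fun ζ => Dom.GG f g a t0 ζ * D ζ with hF
    have hFd : ∀ ζ : ℂ, 0 ≤ ζ.im → DifferentiableAt ℂ F ζ := by
      intro ζ hζ
      have h3 : DifferentiableAt ℂ (Ag g') ζ := ((h1 g' hg' hg'1).1 ζ hζ).differentiableAt
      exact (Dom.diff_GG h1 hf hg hg1 ht hζ).mul (((differentiableAt_const _).mul h3).cexp)
    set ε : ℝ := δ * Real.cos (g' * Real.pi / 2) / 2 with hε
    have hεp : 0 < ε := by positivity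
    obtain ⟨C1, hC1, hC1'⟩ := Dom.sq_le_exp g' ε hg' hεp
    obtain ⟨C2, hC2⟩ := Dom.pow_le_add g g' a ε hg.le hgg' ha hεp
    have hFb : ∀ ζ : ℂ, 0 ≤ ζ.im →
        ‖F ζ‖ ≤ |C0| * (1 + (2 + t0) ^ 2) * C1 * Real.exp C2 := by
      intro ζ hζ
      set r : ℝ := ‖1 - I * ζ‖ with hr
      have hr1 : 1 ≤ r := Dom.one_le_norm hζ
      have e1 : ‖dschw f (ζ + t0 * I)‖ ≤ |C0| * ((1 + (2 + t0) ^ 2) * r ^ 2) := by
        have h3 := hC0' (ζ + t0 * I) (by simpa using hζ)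
        refine h3.trans (mul_le_mul_of_nonneg_left ?_ (abs_nonneg _))
        have h4 : ‖ζ + t0 * I‖ ≤ (2 + t0) * r := by
          calc ‖ζ + t0 * I‖ ≤ ‖ζ‖ + ‖(t0 : ℂ) * I‖ := norm_add_le _ _
            _ ≤ (r + 1) + t0 := by
                have h5 : ‖(t0 : ℂ) * I‖ = t0 := by
                  rw [norm_mul, Complex.norm_I, mul_one, Complex.norm_real, Real.norm_eq_abs,
                    abs_of_pos ht]
                rw [h5]
                have := Dom.norm_le_add ζ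
                linarith
            _ ≤ (2 + t0) * r := by nlinarith
        have h6 : ‖ζ + t0 * I‖ ^ 2 ≤ ((2 + t0) * r) ^ 2 :=
          pow_le_pow_left₀ (norm_nonneg _) h4 2
        nlinarith
      have e2 : Real.exp (a * (Ag g ζ).re) ≤ Real.exp (ε * r ^ g' + C2) := by
        apply Real.exp_le_exp.2
        exact (mul_le_mul_of_nonneg_left (hcos1 g hg hg1 ζ hζ) ha).trans (hC2 r hr1)
      have e3 : ‖D ζ‖ ≤ Real.exp (-(2 * ε) * r ^ g') := by
        have h3 := hDle ζ hζ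
        have h4 : δ * Real.cos (g' * Real.pi / 2) = 2 * ε := by rw [hε]; ring
        rw [h4] at h3
        exact h3
      have e4 := hC1' r hr1
      rw [hF]
      simp only
      rw [norm_mul, Dom.norm_GG]
      calc ‖dschw f (ζ + t0 * I)‖ * Real.exp (a * (Ag g ζ).re) * ‖D ζ‖
          ≤ (|C0| * ((1 + (2 + t0) ^ 2) * r ^ 2)) * Real.exp (ε * r ^ g' + C2)
              * Real.exp (-(2 * ε) * r ^ g') := by
            apply mul_le_mul (mul_le_mul e1 e2 (Real.exp_pos _).le (by positivity)) e3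
              (norm_nonneg _) (by positivity)
        _ ≤ (|C0| * ((1 + (2 + t0) ^ 2) * (C1 * Real.exp (ε * r ^ g')))) * Real.exp (ε * r ^ g' + C2)
              * Real.exp (-(2 * ε) * r ^ g') := by
            gcongr
        _ = |C0| * (1 + (2 + t0) ^ 2) * C1 *
              (Real.exp (ε * r ^ g') * Real.exp (ε * r ^ g' + C2) * Real.exp (-(2 * ε) * r ^ g')) := by
            ring
        _ = |C0| * (1 + (2 + t0) ^ 2) * C1 * Real.exp C2 := by
            rw [← Real.exp_add, ← Real.exp_add]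
            congr 2
            ring
    have hrep := poisson_rep_complex hFd hFb (z := z) hy
    have e5 : ‖F w0 * (Real.pi / y)‖ₑ ≤
        ∫⁻ t : ℝ, ‖F t * (((1 / ((z - t) ^ 2 + y ^ 2) : ℝ)) : ℂ)‖ₑ := by
      rw [hw0, ← hrep]
      exact enorm_integral_le_lintegral_enorm _
    have e6 : ENNReal.ofReal (‖Dom.GG f g a t0 w0‖ * Real.exp (-δ * (Ag g' w0).re))
        = ENNReal.ofReal (y / Real.pi) * ‖F w0 * (Real.pi / y)‖ₑ := by
      rw [← ofReal_norm, ← ENNReal.ofReal_mul (by positivity)]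
      congr 1
      have h3 : ‖((Real.pi : ℂ) / (y : ℂ))‖ = Real.pi / y := by
        rw [← Complex.ofReal_div, Complex.norm_real, Real.norm_eq_abs,
          abs_of_pos (div_pos Real.pi_pos hy)]
      rw [norm_mul, h3, hF]
      simp only
      rw [norm_mul, hDn]
      field_simp
    rw [e6]
    calc ENNReal.ofReal (y / Real.pi) * ‖F w0 * (Real.pi / y)‖ₑ
        ≤ ENNReal.ofReal (y / Real.pi) *
          ∫⁻ t : ℝ, ‖F t * (((1 / ((z - t) ^ 2 + y ^ 2) : ℝ)) : ℂ)‖ₑ := by gcongr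
      _ = ∫⁻ t : ℝ, ENNReal.ofReal (y / Real.pi) *
            ‖F t * (((1 / ((z - t) ^ 2 + y ^ 2) : ℝ)) : ℂ)‖ₑ := by
          rw [lintegral_const_mul' _ _ ENNReal.ofReal_ne_top]
      _ ≤ ∫⁻ t, ENNReal.ofReal (pk z y t) * ENNReal.ofReal ‖Dom.GG f g a t0 (t : ℂ)‖ := by
          apply lintegral_mono
          intro t
          simp only
          have hpos : 0 < (z - t) ^ 2 + y ^ 2 := by positivity
          have hpk : 0 ≤ pk z y t := by unfold pk; positivity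
          rw [← ofReal_norm, ← ENNReal.ofReal_mul (by positivity),
            ← ENNReal.ofReal_mul hpk]
          apply ENNReal.ofReal_le_ofReal
          rw [norm_mul, Complex.norm_real, Real.norm_eq_abs,
            abs_of_pos (show (0 : ℝ) < 1 / ((z - t) ^ 2 + y ^ 2) by positivity)]
          have h3 : ‖F (t : ℂ)‖ ≤ ‖Dom.GG f g a t0 (t : ℂ)‖ := by
            rw [hF]
            simp only
            rw [norm_mul]
            exact mul_le_of_le_one_right (norm_nonneg _) (hD1 _ (by simp))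
          have h4 : y / Real.pi * (‖F (t : ℂ)‖ * (1 / ((z - t) ^ 2 + y ^ 2)))
              = pk z y t * ‖F (t : ℂ)‖ := by
            unfold pk
            field_simp
          rw [h4]
          exact mul_le_mul_of_nonneg_left h3 hpk
  -- the limit
  have hlim : Tendsto (fun δ : ℝ =>
      ENNReal.ofReal (‖Dom.GG f g a t0 w0‖ * Real.exp (-δ * (Ag g' w0).re))) (𝓝[>] 0)
      (𝓝 (ENNReal.ofReal ‖Dom.GG f g a t0 w0‖)) := by
    apply ENNReal.tendsto_ofReal
    have h3 : Tendsto (fun δ : ℝ => ‖Dom.GG f g a t0 w0‖ * Real.exp (-δ * (Ag g' w0).re)) (𝓝 0)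
        (𝓝 (‖Dom.GG f g a t0 w0‖ * Real.exp (-0 * (Ag g' w0).re))) := by
      apply Continuous.tendsto
      fun_prop
    simp only [neg_zero, zero_mul, Real.exp_zero, mul_one] at h3
    exact h3.mono_left nhdsWithin_le_nhds
  have hfin : ENNReal.ofReal ‖Dom.GG f g a t0 w0‖ ≤
      ∫⁻ t, ENNReal.ofReal (pk z y t) * ENNReal.ofReal ‖Dom.GG f g a t0 (t : ℂ)‖ := by
    apply le_of_tendsto hlim
    filter_upwards [self_mem_nhdsWithin] with δ hδ
    exact key δ hδ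
  have e7 : (z : ℂ) + ((y + t0 : ℝ) : ℂ) * I = w0 + t0 * I := by
    rw [hw0]
    push_cast
    ring
  rw [e7, ← Dom.norm_GG]
  refine hfin.trans (le_of_eq ?_)
  simp only [Dom.norm_GG]

end Pool.Agent.Work.MP_055a27_an.Nv
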