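import Pool.Agent.Work.MP_055a27_an.Nv.Stmts

/-!
# Item Far: the Schwarz integral of a function which vanishes near `c`
-/

set_option autoImplicit false

open MeasureTheory Set Filter Topology Complex Metric ComplexConjugate
open scoped ENNReal NNReal

namespace Pool.Agent.Work.MP_055a27_an.Nv

namespace Far

lemma schw_conj (f : ℝ → ℝ) (w : ℂ) : schw f (conj w) = -conj (schw f w) := by
  unfold schw
  rw [map_mul, ← integral_conj]
  have h1 : (starRingEnd ℂ) (I / (Real.pi : ℂ)) = -(I / (Real.pi : ℂ)) := by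
    rw [map_div₀, conj_I, conj_ofReal]; ring
  rw [h1, neg_mul, neg_neg]
  congr 1
  refine integral_congr_ae (Eventually.of_forall fun t => ?_)
  simp only [map_mul, map_div₀, map_add, map_sub, map_one, conj_ofReal]

lemma key_bound {c R ρ : ℝ} {v : ℂ} {t : ℝ} (hρ : 0 < ρ) (hv : ‖v - (c : ℂ)‖ ≤ R - ρ)
    (ht : R ≤ |t - c|) :
    ρ ≤ ‖v - (t : ℂ)‖ ∧
      1 + t ^ 2 ≤ (2 + (1 + 2 * (|c| + R) ^ 2) / ρ ^ 2) * ‖v - (t : ℂ)‖ ^ 2 := by
  have h1 : |t - c| ≤ ‖v - (t : ℂ)‖ + ‖v - (c : ℂ)‖ := by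
    have : ((t - c : ℝ) : ℂ) = (v - (c : ℂ)) - (v - (t : ℂ)) := by push_cast; ring
    rw [← Real.norm_eq_abs, ← Complex.norm_real, this]
    exact (norm_sub_le _ _).trans (le_of_eq (add_comm _ _))
  have h2 : ρ ≤ ‖v - (t : ℂ)‖ := by linarith
  refine ⟨h2, ?_⟩
  have h3 : |t| ≤ ‖v - (t : ℂ)‖ + (|c| + R) := by
    have h4 : (t : ℂ) = (v - (c : ℂ)) - (v - (t : ℂ)) + (c : ℂ) := by ring
    have h5 : ‖(t : ℂ)‖ ≤ ‖v - (c : ℂ)‖ + ‖v - (t : ℂ)‖ + ‖(c : ℂ)‖ := by
      calc ‖(t : ℂ)‖ = ‖(v - (c : ℂ)) - (v - (t : ℂ)) + (c : ℂ)‖ := by rw [← h4]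
        _ ≤ ‖(v - (c : ℂ)) - (v - (t : ℂ))‖ + ‖(c : ℂ)‖ := norm_add_le _ _
        _ ≤ _ := by gcongr; exact norm_sub_le _ _
    simp only [Complex.norm_real, Real.norm_eq_abs] at h5
    linarith
  have hR : 0 ≤ |c| + R := by
    have := norm_nonneg (v - (c : ℂ))
    have := abs_nonneg c
    linarith
  have h6 : t ^ 2 ≤ 2 * ‖v - (t : ℂ)‖ ^ 2 + 2 * (|c| + R) ^ 2 := by
    have h7 : |t| ^ 2 ≤ (‖v - (t : ℂ)‖ + (|c| + R)) ^ 2 := pow_le_pow_left₀ (abs_nonneg _) h3 2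
    rw [sq_abs] at h7
    nlinarith [sq_nonneg (‖v - (t : ℂ)‖ - (|c| + R))]
  have h8 : (1 + 2 * (|c| + R) ^ 2) ≤
      (1 + 2 * (|c| + R) ^ 2) / ρ ^ 2 * ‖v - (t : ℂ)‖ ^ 2 := by
    rw [div_mul_eq_mul_div, le_div_iff₀ (by positivity)]
    have : ρ ^ 2 ≤ ‖v - (t : ℂ)‖ ^ 2 := pow_le_pow_left₀ hρ.le h2 2
    exact mul_le_mul_of_nonneg_left this (by positivity)
  linarith

lemma diff_at {f : ℝ → ℝ} {c R : ℝ} (hf : Admissible f)
    (h0 : ∀ t, |t - c| < R → f t = 0) {w : ℂ} (hw : w ∈ ball (c : ℂ) R) :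
    DifferentiableAt ℂ (schw f) w := by
  set g : ℝ → ℝ := fun t => f t / (1 + t ^ 2) with hg
  have hgi : Integrable g volume := hf
  have hg0 : ∀ t, |t - c| < R → g t = 0 := fun t ht => by simp [hg, h0 t ht]
  have hw1 : ‖w - (c : ℂ)‖ < R := by simpa [dist_eq_norm] using hw
  set ρ : ℝ := (R - ‖w - (c : ℂ)‖) / 2 with hρdef
  have hρ : 0 < ρ := by rw [hρdef]; linarith
  have hball : ∀ v ∈ ball w ρ, ‖v - (c : ℂ)‖ ≤ R - ρ := by
    intro v hv
    have h1 : ‖v - w‖ < ρ := by simpa [dist_eq_norm] using hv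
    have h2 : v - (c : ℂ) = (v - w) + (w - (c : ℂ)) := by ring
    have h3 : ‖v - (c : ℂ)‖ ≤ ‖v - w‖ + ‖w - (c : ℂ)‖ := by rw [h2]; exact norm_add_le _ _
    have h4 : ‖w - (c : ℂ)‖ = R - 2 * ρ := by rw [hρdef]; ring
    linarith
  set C : ℝ := 2 + (1 + 2 * (|c| + R) ^ 2) / ρ ^ 2 with hC
  have hC0 : 0 ≤ C := by positivity
  have hC2 : 2 ≤ C := by
    have : 0 ≤ (1 + 2 * (|c| + R) ^ 2) / ρ ^ 2 := by positivity
    linarith
  have key := hasDerivAt_integral_of_dominated_loc_of_deriv_le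
    (μ := (volume : Measure ℝ)) (s := ball w ρ)
    (F := fun (v : ℂ) (t : ℝ) => ((g t : ℝ) : ℂ) * ((1 + t * v) / (v - t)))
    (F' := fun (v : ℂ) (t : ℝ) => ((g t : ℝ) : ℂ) * (-(1 + t ^ 2) / (v - t) ^ 2))
    (x₀ := w) (bound := fun t => |g t| * C)
    (ball_mem_nhds w hρ) ?_ ?_ ?_ ?_ ?_ ?_
  · have h3 := key.2.const_mul (I / (Real.pi : ℂ))
    exact h3.differentiableAt
  · -- measurability
    refine Eventually.of_forall fun v => ?_
    apply AEStronglyMeasurable.mul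
    · exact (Complex.measurable_ofReal.comp_aemeasurable
        hgi.aestronglyMeasurable.aemeasurable).aestronglyMeasurable
    · apply Measurable.aestronglyMeasurable
      apply Measurable.div
      · fun_prop
      · fun_prop
  · -- integrability at w
    have hb : ∀ t : ℝ, ‖((g t : ℝ) : ℂ) * ((1 + t * w) / (w - t))‖ ≤
        |g t| * (C * (1 + ‖w‖)) := by
      intro t
      rcases lt_or_ge |t - c| R with ht | ht
      · rw [hg0 t ht]; simp
      obtain ⟨hb1, hb2⟩ := key_bound hρ (hball w (mem_ball_self hρ)) ht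
      have hpos : 0 < ‖w - (t : ℂ)‖ := lt_of_lt_of_le hρ hb1
      have h1 : (1 + |t|) ≤ C * ‖w - (t : ℂ)‖ := by
        have h2 : (1 + |t|) ^ 2 ≤ 2 * (1 + t ^ 2) := by
          nlinarith [sq_nonneg (1 - |t|), sq_abs t]
        have h3 : (1 + |t|) ^ 2 ≤ (C * ‖w - (t : ℂ)‖) ^ 2 := by
          calc (1 + |t|) ^ 2 ≤ 2 * (1 + t ^ 2) := h2
            _ ≤ 2 * (C * ‖w - (t : ℂ)‖ ^ 2) := by linarith
            _ ≤ C * (C * ‖w - (t : ℂ)‖ ^ 2) := by
              apply mul_le_mul_of_nonneg_right hC2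
              positivity
            _ = _ := by ring
        exact le_of_sq_le_sq h3 (by positivity)
      rw [norm_mul, norm_div, Complex.norm_real, Real.norm_eq_abs]
      refine mul_le_mul_of_nonneg_left ?_ (abs_nonneg _)
      rw [div_le_iff₀ hpos]
      have h4 : ‖1 + (t : ℂ) * w‖ ≤ 1 + |t| * ‖w‖ := by
        calc ‖1 + (t : ℂ) * w‖ ≤ ‖(1 : ℂ)‖ + ‖(t : ℂ) * w‖ := norm_add_le _ _
          _ = _ := by rw [norm_mul]; simp
      calc ‖1 + (t : ℂ) * w‖ ≤ 1 + |t| * ‖w‖ := h4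
        _ ≤ (1 + |t|) * (1 + ‖w‖) := by nlinarith [abs_nonneg t, norm_nonneg w]
        _ ≤ (C * ‖w - (t : ℂ)‖) * (1 + ‖w‖) := by
          apply mul_le_mul_of_nonneg_right h1
          positivity
        _ = _ := by ring
    refine Integrable.mono' (hgi.abs.mul_const (C * (1 + ‖w‖))) ?_ (Eventually.of_forall hb)
    apply AEStronglyMeasurable.mul
    · exact (Complex.measurable_ofReal.comp_aemeasurable
        hgi.aestronglyMeasurable.aemeasurable).aestronglyMeasurable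
    · apply Measurable.aestronglyMeasurable
      apply Measurable.div
      · fun_prop
      · fun_prop
  · apply AEStronglyMeasurable.mul
    · exact (Complex.measurable_ofReal.comp_aemeasurable
        hgi.aestronglyMeasurable.aemeasurable).aestronglyMeasurable
    · apply Measurable.aestronglyMeasurable
      apply Measurable.div
      · fun_prop
      · fun_prop
  · refine Eventually.of_forall fun t v hv => ?_
    rcases lt_or_ge |t - c| R with ht | ht
    · rw [hg0 t ht]; simp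
    obtain ⟨hb1, hb2⟩ := key_bound hρ (hball v hv) ht
    have hpos : 0 < ‖v - (t : ℂ)‖ := lt_of_lt_of_le hρ hb1
    rw [norm_mul, norm_div, norm_neg, norm_pow]
    have h2 : ‖(1 + (t : ℂ) ^ 2)‖ = 1 + t ^ 2 := by
      have : (1 + (t : ℂ) ^ 2) = ((1 + t ^ 2 : ℝ) : ℂ) := by push_cast; ring
      rw [this, Complex.norm_real, Real.norm_eq_abs, abs_of_pos (by positivity)]
    rw [h2]
    have h3 : ‖((g t : ℝ) : ℂ)‖ = |g t| := by simp
    rw [h3]
    apply mul_le_mul_of_nonneg_left _ (abs_nonneg _)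
    rw [div_le_iff₀ (by positivity)]
    exact hb2
  · exact hgi.abs.mul_const C
  · refine Eventually.of_forall fun t v hv => ?_
    rcases lt_or_ge |t - c| R with ht | ht
    · rw [hg0 t ht]
      simpa using hasDerivAt_const v (0 : ℂ)
    obtain ⟨hb1, hb2⟩ := key_bound hρ (hball v hv) ht
    have hne : v - (t : ℂ) ≠ 0 := norm_pos_iff.1 (lt_of_lt_of_le hρ hb1)
    have h1 : HasDerivAt (fun v : ℂ => (1 + (t : ℂ) * v)) (t : ℂ) v := by
      simpa using ((hasDerivAt_id v).const_mul (t : ℂ)).const_add 1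
    have h2 : HasDerivAt (fun v : ℂ => v - (t : ℂ)) 1 v := (hasDerivAt_id v).sub_const _
    have h3 := (h1.div h2 hne).const_mul ((g t : ℝ) : ℂ)
    convert! h3 using 1
    congr 1
    ring

end Far

open Far in
/-- 6 -/
theorem I_Far : StFar := by
  intro f c R hf _ h0
  refine ⟨fun w hw => (diff_at hf h0 hw).differentiableWithinAt, fun w _ => ?_⟩
  rw [schw_conj, neg_re, conj_re]

end Pool.Agent.Work.MP_055a27_an.Nv
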