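import Pool.Agent.Work.MP_055a27_an.Nv.Stmts

/-! # Item Gr: bounds for the derivative of the Schwarz integral -/

set_option autoImplicit false

open MeasureTheory Set Filter Topology Complex Metric ComplexConjugate
open scoped ENNReal NNReal

namespace Pool.Agent.Work.MP_055a27_an.Nv

namespace Gr

lemma part1 (b : ℝ) (hb : 0 < b) (f : ℝ → ℝ) (hf : Admissible f) (x y : ℝ) (hy : 0 < y) :
    ENNReal.ofReal (y * ‖dschw f ((x : ℂ) + (y : ℂ) * I)‖) ≤
      ENNReal.ofReal (4 * (1 + b) / b) * ntMax b f x := by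
  rcases eq_or_ne (ntMax b f x) ∞ with h | h
  · rw [h, ENNReal.mul_top]
    · exact le_top
    · rw [ENNReal.ofReal_ne_zero_iff]
      positivity
  set σ : ℝ := (ntMax b f x).toReal with hσ
  set ρ : ℝ := b * y / (1 + b) with hρ
  have hρ0 : 0 < ρ := by positivity
  have him0 : ((x : ℂ) + (y : ℂ) * I).im = y := by simp
  have hre0 : ((x : ℂ) + (y : ℂ) * I).re = x := by simp
  have hball : ∀ v ∈ ball ((x : ℂ) + (y : ℂ) * I) ρ, 0 < v.im ∧ |x - v.re| ≤ b * v.im := by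
    intro v hv
    rw [mem_ball, dist_eq_norm] at hv
    have h1 := Complex.abs_im_le_norm (v - ((x : ℂ) + (y : ℂ) * I))
    have h2 := Complex.abs_re_le_norm (v - ((x : ℂ) + (y : ℂ) * I))
    rw [Complex.sub_im, him0] at h1
    rw [Complex.sub_re, hre0] at h2
    have h3 := (abs_lt.1 (lt_of_le_of_lt h1 hv)).1
    have h4 : |x - v.re| < ρ := by
      rw [abs_sub_comm]
      exact lt_of_le_of_lt h2 hv
    have h5 : y - ρ = y / (1 + b) := by
      rw [hρ]
      field_simp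
      ring
    have h6 : y / (1 + b) < v.im := by linarith
    have h7 : 0 < y / (1 + b) := by positivity
    have h8 : ρ = b * (y / (1 + b)) := by rw [hρ]; ring
    refine ⟨by linarith, h4.le.trans ?_⟩
    rw [h8]
    exact mul_le_mul_of_nonneg_left h6.le hb.le
  have hdiff : DifferentiableOn ℂ (schw f) (ball ((x : ℂ) + (y : ℂ) * I) ρ) := fun v hv =>
    (hasDerivAt_schw hf (hball v hv).1).differentiableAt.differentiableWithinAt
  have hbd : ∀ v ∈ ball ((x : ℂ) + (y : ℂ) * I) ρ, |(schw f v).re| ≤ σ := by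
    intro v hv
    obtain ⟨h1, h2⟩ := hball v hv
    have h3 : (schw f v).re = poisson f v.re v.im := by
      have := schw_re hf (z := v.re) h1
      rw [Complex.re_add_im] at this
      exact this
    rw [h3]
    have h4 := le_ntMax (f := f) h1 h2
    rw [ENNReal.ofReal_le_iff_le_toReal h] at h4
    exact h4
  have hg := grad_bound hρ0 hdiff hbd
  have hw : 0 < ((x : ℂ) + (y : ℂ) * I).im := by rw [him0]; exact hy
  rw [(hasDerivAt_schw hf hw).deriv] at hg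
  have h9 : y * ‖dschw f ((x : ℂ) + (y : ℂ) * I)‖ ≤ 4 * (1 + b) / b * σ := by
    calc y * ‖dschw f ((x : ℂ) + (y : ℂ) * I)‖ ≤ y * (4 * σ / ρ) :=
          mul_le_mul_of_nonneg_left hg hy.le
      _ = 4 * (1 + b) / b * σ := by
          rw [hρ]
          field_simp
  calc ENNReal.ofReal (y * ‖dschw f ((x : ℂ) + (y : ℂ) * I)‖)
      ≤ ENNReal.ofReal (4 * (1 + b) / b * σ) := ENNReal.ofReal_le_ofReal h9
    _ = ENNReal.ofReal (4 * (1 + b) / b) * ntMax b f x := by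
        rw [ENNReal.ofReal_mul (by positivity), hσ, ENNReal.ofReal_toReal h]

lemma part2 (f : ℝ → ℝ) (y0 : ℝ) (hf : Admissible f) (hy0 : 0 < y0) (w : ℂ) (hw : y0 ≤ w.im) :
    ‖dschw f w‖ ≤ (1 / Real.pi * (2 + 2 / y0 ^ 2) * ∫ t : ℝ, |f t / (1 + t ^ 2)|) *
      (1 + ‖w‖ ^ 2) := by
  set K : ℝ := 2 + (1 + 2 * ‖w‖ ^ 2) / y0 ^ 2 with hK
  have hK0 : 0 ≤ K := by positivity
  have hint : Integrable (fun t : ℝ => K * |f t / (1 + t ^ 2)|) := (Integrable.abs hf).const_mul K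
  have hw0 : 0 < w.im := lt_of_lt_of_le hy0 hw
  have h1 : ‖∫ t : ℝ, (f t : ℂ) / (w - t) ^ 2‖ ≤ ∫ t : ℝ, K * |f t / (1 + t ^ 2)| := by
    apply norm_integral_le_of_norm_le hint
    refine Eventually.of_forall fun t => ?_
    have h2 := one_add_sq_le hy0 hw t
    rw [← hK] at h2
    have h3 : 0 < ‖w - (t : ℂ)‖ := norm_pos_iff.2 (sub_ofReal_ne_zero hw0 t)
    have h4 : (0 : ℝ) < 1 + t ^ 2 := by positivity
    rw [norm_div, norm_pow, Complex.norm_real, Real.norm_eq_abs, abs_div, abs_of_pos h4,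
      mul_div_assoc', div_le_div_iff₀ (by positivity) h4]
    calc |f t| * (1 + t ^ 2) ≤ |f t| * (K * ‖w - (t : ℂ)‖ ^ 2) :=
          mul_le_mul_of_nonneg_left h2 (abs_nonneg _)
      _ = K * |f t| * ‖w - (t : ℂ)‖ ^ 2 := by ring
  have h5 : ‖-(I / (Real.pi : ℂ))‖ = 1 / Real.pi := by
    rw [norm_neg, norm_div, Complex.norm_I, Complex.norm_real, Real.norm_eq_abs,
      abs_of_pos Real.pi_pos]
  have h6 : K ≤ (2 + 2 / y0 ^ 2) * (1 + ‖w‖ ^ 2) := by
    have h7 : 0 ≤ 1 / y0 ^ 2 := by positivity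
    have h8 : 0 ≤ ‖w‖ ^ 2 := by positivity
    have h9 : K = 2 + 1 / y0 ^ 2 + 2 * (1 / y0 ^ 2 * ‖w‖ ^ 2) := by rw [hK]; ring
    have h10 : (2 + 2 / y0 ^ 2) * (1 + ‖w‖ ^ 2) =
        2 + 2 * ‖w‖ ^ 2 + 2 * (1 / y0 ^ 2) + 2 * (1 / y0 ^ 2 * ‖w‖ ^ 2) := by ring
    rw [h9, h10]
    linarith
  have h11 : 0 ≤ ∫ t : ℝ, |f t / (1 + t ^ 2)| := integral_nonneg fun t => abs_nonneg _
  unfold dschw
  rw [norm_mul, h5]
  calc 1 / Real.pi * ‖∫ t : ℝ, (f t : ℂ) / (w - t) ^ 2‖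
      ≤ 1 / Real.pi * (K * ∫ t : ℝ, |f t / (1 + t ^ 2)|) := by
        apply mul_le_mul_of_nonneg_left _ (by positivity)
        rw [integral_const_mul] at h1
        exact h1
    _ ≤ 1 / Real.pi * (((2 + 2 / y0 ^ 2) * (1 + ‖w‖ ^ 2)) * ∫ t : ℝ, |f t / (1 + t ^ 2)|) := by
        apply mul_le_mul_of_nonneg_left _ (by positivity)
        exact mul_le_mul_of_nonneg_right h6 h11
    _ = _ := by ring

end Gr

open Gr in
theorem I_Gr : StGr := by
  constructor
  · intro b hb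
    refine ⟨Real.toNNReal (4 * (1 + b) / b), ?_⟩
    intro f hf x y hy
    exact part1 b hb f hf x y hy
  · intro f y0 hf hy0
    exact ⟨_, fun w hw => part2 f y0 hf hy0 w hw⟩

end Pool.Agent.Work.MP_055a27_an.Nv
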