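import Pool.Agent.Work.MP_055a27_an.Nv.Stmts

/-!
# MP_055a27_an, project Nv, item Hi: the high part of the area function
-/

set_option autoImplicit false

open MeasureTheory Set Filter Topology Complex Metric ComplexConjugate
open scoped ENNReal NNReal

namespace Pool.Agent.Work.MP_055a27_an.Nv

namespace Hi

/-- integral over a cone of a function of the height -/
lemma cone_lint {lam x : ℝ} {G : ℝ → ℝ≥0∞} (hG : Measurable G) :
    ∫⁻ q in cone lam x, G q.2 ≤ ∫⁻ y in Ioi 0, ENNReal.ofReal (2 * lam * y) * G y := by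
  have hm := measurableSet_cone lam x
  have hGq : Measurable (fun q : ℝ × ℝ => G q.2) := hG.comp measurable_snd
  have hGi : Measurable ((cone lam x).indicator (fun q : ℝ × ℝ => G q.2)) := hGq.indicator hm
  rw [← lintegral_indicator hm, Measure.volume_eq_prod, lintegral_prod_symm _ hGi.aemeasurable,
    ← lintegral_indicator measurableSet_Ioi]
  apply lintegral_mono
  intro y
  simp only
  by_cases hy : 0 < y
  · rw [indicator_of_mem (show y ∈ Ioi 0 from hy)]
    calc ∫⁻ z, (cone lam x).indicator (fun q => G q.2) (z, y)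
        ≤ ∫⁻ z, (Icc (x - lam * y) (x + lam * y)).indicator (fun _ => G y) z := by
          apply lintegral_mono
          intro z
          simp only
          by_cases hz : (z, y) ∈ cone lam x
          · have h1 := abs_le.1 hz.1
            simp only at h1
            rw [indicator_of_mem hz,
              indicator_of_mem (show z ∈ Icc (x - lam * y) (x + lam * y) from
                ⟨by linarith [h1.2], by linarith [h1.1]⟩)]
          · rw [indicator_of_notMem hz]; exact bot_le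
      _ = _ := by
          rw [lintegral_indicator_const measurableSet_Icc, Real.volume_Icc, mul_comm]
          congr 2
          ring
  · rw [indicator_of_notMem (show y ∉ Ioi 0 from hy)]
    apply le_of_eq
    have : ∀ z, (cone lam x).indicator (fun q : ℝ × ℝ => G q.2) (z, y) = 0 := by
      intro z
      apply indicator_of_notMem
      intro h
      exact hy h.2
    simp [this]

lemma slice {lam x r A : ℝ} (hlam : 0 < lam) (hr : 0 < r) (hA : 0 ≤ A) :
    ∫⁻ q in cone lam x ∩ {q | r ≤ q.2}, ENNReal.ofReal (A / q.2 ^ 3) ≤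
      ENNReal.ofReal (2 * lam * A / r) := by
  set G : ℝ → ℝ≥0∞ := (Ici r).indicator (fun y => ENNReal.ofReal (A / y ^ 3)) with hG
  have hGm : Measurable G := by
    apply Measurable.indicator _ measurableSet_Ici
    fun_prop
  have m2 : MeasurableSet {q : ℝ × ℝ | r ≤ q.2} := measurableSet_le measurable_const (by fun_prop)
  calc ∫⁻ q in cone lam x ∩ {q | r ≤ q.2}, ENNReal.ofReal (A / q.2 ^ 3)
      = ∫⁻ q in cone lam x ∩ {q | r ≤ q.2}, G q.2 := by
        apply setLIntegral_congr_fun ((measurableSet_cone lam x).inter m2)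
        rintro q ⟨-, hq2⟩
        simp only
        rw [hG, indicator_of_mem (show q.2 ∈ Ici r from hq2)]
    _ ≤ ∫⁻ q in cone lam x, G q.2 := lintegral_mono_set inter_subset_left
    _ ≤ ∫⁻ y in Ioi 0, ENNReal.ofReal (2 * lam * y) * G y := cone_lint hGm
    _ = ∫⁻ y in Ioi (0 : ℝ), (Ici r).indicator (fun y => ENNReal.ofReal (2 * lam * A / y ^ 2)) y := by
        apply setLIntegral_congr_fun measurableSet_Ioi
        intro y hy
        have hy0 : 0 < y := hy
        simp only
        rw [hG]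
        by_cases h : y ∈ Ici r
        · rw [indicator_of_mem h, indicator_of_mem h, ← ENNReal.ofReal_mul (by positivity)]
          congr 1
          field_simp
        · rw [indicator_of_notMem h, indicator_of_notMem h, mul_zero]
    _ ≤ ENNReal.ofReal (2 * lam * A / r) := lint_inv_sq hr (by positivity)

lemma real_bound {E C3 δ ε s y η : ℝ} (hδ : 0 < δ) (hε : 0 < ε) (hs : 0 < s) (hη : 0 < η)
    (hy : η / 2 ≤ y) :
    (E / (δ * ε * s) * (C3 * ((1 + y / s) ^ 3)⁻¹ * E)) ^ 2 ≤
      ((E ^ 2 * C3) ^ 2 * (8 / (δ * ε) ^ 2) * s) / η ^ 3 := by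
  have hy0 : 0 < y := by linarith
  set u : ℝ := 1 + y / s with hu
  have hu1 : 1 ≤ u := by
    have : 0 < y / s := by positivity
    linarith
  have hu2 : η / (2 * s) ≤ u := by
    have h1 : η / (2 * s) = (η / 2) / s := by field_simp
    have h2 : (η / 2) / s ≤ y / s := by gcongr
    rw [h1]; linarith
  have hu3 : 1 ≤ u ^ 3 := one_le_pow₀ hu1
  have h3 : ((u ^ 3)⁻¹) ^ 2 ≤ 8 * s ^ 3 / η ^ 3 := by
    have h4 : (u ^ 3)⁻¹ ≤ 1 := inv_le_one_of_one_le₀ hu3
    have h5 : 0 ≤ (u ^ 3)⁻¹ := by positivity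
    have h6 : (u ^ 3)⁻¹ ≤ ((η / (2 * s)) ^ 3)⁻¹ := by gcongr
    have h7 : ((η / (2 * s)) ^ 3)⁻¹ = 8 * s ^ 3 / η ^ 3 := by field_simp; ring
    rw [← h7]
    calc ((u ^ 3)⁻¹) ^ 2 = (u ^ 3)⁻¹ * (u ^ 3)⁻¹ := sq _
      _ ≤ 1 * (u ^ 3)⁻¹ := mul_le_mul_of_nonneg_right h4 h5
      _ = (u ^ 3)⁻¹ := one_mul _
      _ ≤ _ := h6
  have h8 : (E / (δ * ε * s) * (C3 * (u ^ 3)⁻¹ * E)) ^ 2 =
      ((E ^ 2 * C3) ^ 2 / (δ * ε * s) ^ 2) * ((u ^ 3)⁻¹) ^ 2 := by
    field_simp
  rw [h8]
  calc ((E ^ 2 * C3) ^ 2 / (δ * ε * s) ^ 2) * ((u ^ 3)⁻¹) ^ 2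
      ≤ ((E ^ 2 * C3) ^ 2 / (δ * ε * s) ^ 2) * (8 * s ^ 3 / η ^ 3) := by gcongr
    _ = _ := by field_simp

end Hi

open Hi in
/-- 14 -/
theorem I_Hi (h1 : StAg) (h2 : StDec) (h3 : StGr) (h4 : StDom) (h5 : StPk) : StHi := by
  intro g lam b p ε hg0 hg1 hlam hlt hb hp hε
  -- the parameters
  set T : ℝ := Real.tan (g * Real.pi / 2) with hT
  have hT0 : 0 < T := hlam.trans hlt
  set ρ : ℝ := max ((lam / T + 1) / 2) (3 / 4) with hρ
  have hlT : lam / T < 1 := (div_lt_one hT0).2 hlt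
  have hρ1 : ρ < 1 := max_lt (by linarith) (by norm_num)
  have hρ34 : 3 / 4 ≤ ρ := le_max_right _ _
  have hρ0 : 0 < ρ := by linarith
  have hρl : lam / T < ρ := lt_of_lt_of_le (by linarith) (le_max_left _ _)
  set δ : ℝ := 1 - ρ with hδ
  have hδ0 : 0 < δ := by linarith
  set lam' : ℝ := lam / ρ with hlam'
  have hlam'0 : 0 < lam' := by positivity
  have hlam'T : lam' < T := by
    rw [hlam', div_lt_iff₀ hρ0]
    rw [div_lt_iff₀ hT0] at hρl
    linarith
  have hcos : 0 < Real.cos (g * Real.pi / 2) := by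
    apply Real.cos_pos_of_mem_Ioo
    have := Real.pi_pos
    constructor
    · nlinarith
    · nlinarith
  set a : ℝ := 1 / (p * Real.cos (g * Real.pi / 2)) with ha
  have ha0 : 0 < a := by positivity
  have hac : a * Real.cos (g * Real.pi / 2) = 1 / p := by
    rw [ha]; field_simp
  obtain ⟨C3, hC3, hDec⟩ := h2 g lam' a hg0 hg1 hlam'0 hlam'T ha0
  obtain ⟨C1, hGr⟩ := h3.1 b hb
  obtain ⟨C2, hPk⟩ := h5 lam' hlam'0
  obtain ⟨-, -, hAg⟩ := h1 g hg0 hg1
  set E : ℝ := Real.exp a with hE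
  have hE0 : 0 < E := Real.exp_pos _
  set A0 : ℝ := (E ^ 2 * C3) ^ 2 * (8 / (δ * ε) ^ 2) with hA0
  have hA00 : 0 ≤ A0 := by positivity
  refine ⟨(C1 * C2) ^ 2 * (2 * lam * A0 / ε).toNNReal, fun f hf x => ?_⟩
  set s : ℝ := (1 + |x|) ^ (1 - g) with hs
  have hs0 : 0 < s := by positivity
  set K : ℝ → ℝ≥0∞ := fun t => ntMax b f t * ENNReal.ofReal (Real.exp (|t| ^ g / p)) with hK
  have hKm : Measurable K := by
    have h6 : Measurable (ntMax b f) := by
      have : ntMax b f = NT (schw f) b := by funext t; exact ntMax_eq hf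
      rw [this]
      exact measurable_NT (schw_diff hf) b
    have h7 : Measurable fun t : ℝ => ENNReal.ofReal (Real.exp (|t| ^ g / p)) := by fun_prop
    exact h6.mul h7
  set M : ℝ≥0∞ := mx K x * ENNReal.ofReal (Real.exp (-(|x| ^ g / p))) with hM
  set t0 : ℝ := δ * ε * s with ht0
  have ht00 : 0 < t0 := by positivity
  -- the integrand
  have hint : ∀ t : ℝ, ENNReal.ofReal (‖dschw f ((t : ℂ) + (t0 : ℂ) * I)‖ *
      Real.exp (a * (Ag g (t : ℂ)).re)) ≤ C1 * ENNReal.ofReal (E / t0) * K t := by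
    intro t
    have h6 := hGr f hf t t0 ht00
    have h7 := (abs_le.1 (hAg t)).2
    have h8 : Real.exp (a * (Ag g (t : ℂ)).re) ≤ E * Real.exp (|t| ^ g / p) := by
      rw [hE, ← Real.exp_add]
      apply Real.exp_le_exp.2
      have h9 : (Ag g (t : ℂ)).re ≤ Real.cos (g * Real.pi / 2) * |t| ^ g + 1 := by linarith
      calc a * (Ag g (t : ℂ)).re ≤ a * (Real.cos (g * Real.pi / 2) * |t| ^ g + 1) :=
            mul_le_mul_of_nonneg_left h9 ha0.le
        _ = (a * Real.cos (g * Real.pi / 2)) * |t| ^ g + a := by ring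
        _ = a + |t| ^ g / p := by rw [hac]; ring
    calc ENNReal.ofReal (‖dschw f ((t : ℂ) + (t0 : ℂ) * I)‖ * Real.exp (a * (Ag g (t : ℂ)).re))
        ≤ ENNReal.ofReal ((t0 * ‖dschw f ((t : ℂ) + (t0 : ℂ) * I)‖) *
            ((E / t0) * Real.exp (|t| ^ g / p))) := by
          apply ENNReal.ofReal_le_ofReal
          have h10 : (t0 * ‖dschw f ((t : ℂ) + (t0 : ℂ) * I)‖) *
            ((E / t0) * Real.exp (|t| ^ g / p)) =
            ‖dschw f ((t : ℂ) + (t0 : ℂ) * I)‖ * (E * Real.exp (|t| ^ g / p)) := by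
            field_simp
          rw [h10]
          exact mul_le_mul_of_nonneg_left h8 (norm_nonneg _)
      _ = ENNReal.ofReal (t0 * ‖dschw f ((t : ℂ) + (t0 : ℂ) * I)‖) *
            (ENNReal.ofReal (E / t0) * ENNReal.ofReal (Real.exp (|t| ^ g / p))) := by
          rw [ENNReal.ofReal_mul (p := t0 * ‖dschw f ((t : ℂ) + (t0 : ℂ) * I)‖) (by positivity),
            ENNReal.ofReal_mul (p := E / t0) (by positivity)]
      _ ≤ (C1 * ntMax b f t) *
            (ENNReal.ofReal (E / t0) * ENNReal.ofReal (Real.exp (|t| ^ g / p))) := by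
          gcongr
      _ = _ := by
          rw [hK]
          ring
  -- the pointwise bound
  have hpt : ∀ q ∈ cone lam x ∩ {q : ℝ × ℝ | ε * s ≤ q.2},
      ENNReal.ofReal (gradSq f q.1 q.2) ≤
        ((C1 * C2) ^ 2 * M ^ 2) * ENNReal.ofReal ((A0 * s) / q.2 ^ 3) := by
    rintro ⟨ξ, η⟩ ⟨⟨hq1, hq2⟩, hq3⟩
    simp only at hq1 hq2
    have hq3' : ε * s ≤ η := hq3
    simp only
    set y : ℝ := η - t0 with hy
    have hty : t0 ≤ δ * η := by
      rw [ht0]
      calc δ * ε * s = δ * (ε * s) := by ring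
        _ ≤ δ * η := mul_le_mul_of_nonneg_left hq3' hδ0.le
    have hyη : ρ * η ≤ y := by
      rw [hy]
      have : ρ = 1 - δ := by rw [hδ]; ring
      rw [this]; linarith
    have hy0 : 0 < y := lt_of_lt_of_le (by positivity) hyη
    have hyη2 : η / 2 ≤ y := by
      have : η / 2 ≤ ρ * η := by nlinarith
      linarith
    have hξ : |ξ - x| ≤ lam' * y := by
      rw [abs_sub_comm]
      refine hq1.trans ?_
      rw [hlam']
      calc lam * η = lam / ρ * (ρ * η) := by field_simp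
        _ ≤ lam / ρ * y := by gcongr
    have h6 := h4 g a t0 f hg0 hg1 ha0.le ht00 hf ξ y hy0
    have h7 : (y + t0 : ℝ) = η := by rw [hy]; ring
    rw [h7] at h6
    have h8 : ∫⁻ t, ENNReal.ofReal (pk ξ y t) * ENNReal.ofReal
        (‖dschw f ((t : ℂ) + (t0 : ℂ) * I)‖ * Real.exp (a * (Ag g (t : ℂ)).re)) ≤
        (C1 * ENNReal.ofReal (E / t0)) * (C2 * mx K x) := by
      calc _ ≤ ∫⁻ t, (C1 * ENNReal.ofReal (E / t0)) * (ENNReal.ofReal (pk ξ y t) * K t) := by
            apply lintegral_mono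
            intro t
            simp only
            calc _ ≤ ENNReal.ofReal (pk ξ y t) * (C1 * ENNReal.ofReal (E / t0) * K t) := by
                  gcongr
                  exact hint t
              _ = _ := by ring
        _ = (C1 * ENNReal.ofReal (E / t0)) * ∫⁻ t, (ENNReal.ofReal (pk ξ y t) * K t) := by
            rw [lintegral_const_mul' _ _ (ENNReal.mul_ne_top ENNReal.coe_ne_top
              ENNReal.ofReal_ne_top)]
        _ ≤ _ := by
            gcongr
            exact hPk K hKm.aemeasurable x ξ y hy0 hξ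
    have h9 := h6.trans h8
    -- decay
    have h10 := hDec x ξ y hy0.le hξ
    have h11 := (abs_le.1 (hAg x)).1
    have h12 : Real.exp (-(a * (Ag g ((ξ : ℂ) + (y : ℂ) * I)).re)) ≤
        (C3 * ((1 + y / s) ^ 3)⁻¹ * E) * Real.exp (-(|x| ^ g / p)) := by
      have h13 : -(a * (Ag g ((ξ : ℂ) + (y : ℂ) * I)).re) =
          -a * ((Ag g ((ξ : ℂ) + (y : ℂ) * I)).re - (Ag g (x : ℂ)).re) +
            -(a * (Ag g (x : ℂ)).re) := by ring
      rw [h13, Real.exp_add]
      have h14 : Real.exp (-(a * (Ag g (x : ℂ)).re)) ≤ E * Real.exp (-(|x| ^ g / p)) := by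
        rw [hE, ← Real.exp_add]
        apply Real.exp_le_exp.2
        have h15 : Real.cos (g * Real.pi / 2) * |x| ^ g - 1 ≤ (Ag g (x : ℂ)).re := by linarith
        have h16 : a * (Real.cos (g * Real.pi / 2) * |x| ^ g - 1) ≤ a * (Ag g (x : ℂ)).re :=
          mul_le_mul_of_nonneg_left h15 ha0.le
        have h17 : a * (Real.cos (g * Real.pi / 2) * |x| ^ g - 1) = |x| ^ g / p - a := by
          calc _ = (a * Real.cos (g * Real.pi / 2)) * |x| ^ g - a := by ring
            _ = _ := by rw [hac]; ring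
        linarith
      calc _ ≤ (C3 * ((1 + y / s) ^ 3)⁻¹) * (E * Real.exp (-(|x| ^ g / p))) := by
            gcongr
        _ = _ := by ring
    -- combination
    have h18 : ENNReal.ofReal ‖dschw f ((ξ : ℂ) + (η : ℂ) * I)‖ ≤
        (C1 * C2) * M * ENNReal.ofReal (E / t0 * (C3 * ((1 + y / s) ^ 3)⁻¹ * E)) := by
      have h19 : ‖dschw f ((ξ : ℂ) + (η : ℂ) * I)‖ =
          (‖dschw f ((ξ : ℂ) + (η : ℂ) * I)‖ * Real.exp (a * (Ag g ((ξ : ℂ) + (y : ℂ) * I)).re)) *
            Real.exp (-(a * (Ag g ((ξ : ℂ) + (y : ℂ) * I)).re)) := by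
        rw [mul_assoc, ← Real.exp_add, add_neg_cancel, Real.exp_zero, mul_one]
      rw [h19, ENNReal.ofReal_mul (by positivity)]
      calc _ ≤ ((C1 * ENNReal.ofReal (E / t0)) * (C2 * mx K x)) *
            ENNReal.ofReal ((C3 * ((1 + y / s) ^ 3)⁻¹ * E) * Real.exp (-(|x| ^ g / p))) := by
            gcongr
        _ = _ := by
            rw [ENNReal.ofReal_mul (p := C3 * ((1 + y / s) ^ 3)⁻¹ * E) (by positivity),
              ENNReal.ofReal_mul (p := E / t0) (by positivity), hM]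
            ring
    rw [gradSq_eq hf hq2, ENNReal.ofReal_pow (norm_nonneg _)]
    calc _ ≤ ((C1 * C2) * M * ENNReal.ofReal (E / t0 * (C3 * ((1 + y / s) ^ 3)⁻¹ * E))) ^ 2 := by
          gcongr
      _ = ((C1 * C2) ^ 2 * M ^ 2) *
          ENNReal.ofReal ((E / t0 * (C3 * ((1 + y / s) ^ 3)⁻¹ * E)) ^ 2) := by
          rw [ENNReal.ofReal_pow (by positivity)]
          ring
      _ ≤ _ := by
          gcongr
          exact real_bound hδ0 hε hs0 hq2 hyη2
  have hms : MeasurableSet (cone lam x ∩ {q : ℝ × ℝ | ε * s ≤ q.2}) :=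
    (measurableSet_cone lam x).inter (measurableSet_le measurable_const (by fun_prop))
  calc ∫⁻ q in cone lam x ∩ {q | ε * s ≤ q.2}, ENNReal.ofReal (gradSq f q.1 q.2)
      ≤ ∫⁻ q in cone lam x ∩ {q | ε * s ≤ q.2},
          ((C1 * C2) ^ 2 * M ^ 2) * ENNReal.ofReal ((A0 * s) / q.2 ^ 3) :=
        setLIntegral_mono' hms hpt
    _ = ((C1 * C2) ^ 2 * M ^ 2) * ∫⁻ q in cone lam x ∩ {q | ε * s ≤ q.2},
          ENNReal.ofReal ((A0 * s) / q.2 ^ 3) := by
        rw [lintegral_const_mul]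
        fun_prop
    _ ≤ ((C1 * C2) ^ 2 * M ^ 2) * ENNReal.ofReal (2 * lam * (A0 * s) / (ε * s)) := by
        gcongr
        exact slice hlam (by positivity) (by positivity)
    _ = _ := by
        have h20 : 2 * lam * (A0 * s) / (ε * s) = 2 * lam * A0 / ε := by field_simp
        rw [h20]
        push_cast
        rw [ENNReal.ofReal]
        ring

end Pool.Agent.Work.MP_055a27_an.Nv
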