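import Pool.Agent.Work.MP_055a27_an.Nv.Stmts

/-!
# Item 7: the Poisson integral is a contraction of `L^1`
-/

set_option autoImplicit false

open MeasureTheory Set Filter Topology Complex Metric ComplexConjugate
open scoped ENNReal NNReal

namespace Pool.Agent.Work.MP_055a27_an.Nv

namespace L1

lemma pk_nonneg {x y t : ℝ} (hy : 0 < y) : 0 ≤ pk x y t := by
  unfold pk
  have : 0 < (x - t) ^ 2 + y ^ 2 := by positivity
  have := Real.pi_pos
  positivity

lemma poisson_eq_pk (f : ℝ → ℝ) {x y : ℝ} (hy : 0 < y) :
    poisson f x y = ∫ t : ℝ, pk x y t * f t := by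
  rw [poisson_eq_integral, ← integral_const_mul]
  apply integral_congr_ae
  refine Eventually.of_forall fun t => ?_
  have h1 : (x - t) ^ 2 + y ^ 2 ≠ 0 := by positivity
  have h2 := Real.pi_ne_zero
  simp only [pk]
  field_simp

lemma lintegral_pk {y : ℝ} (hy : 0 < y) (t : ℝ) :
    ∫⁻ x : ℝ, ENNReal.ofReal (pk x y t) = 1 := by
  have h0 : ∀ x, pk x y t = (y / Real.pi) * (1 / ((t - x) ^ 2 + y ^ 2)) := by
    intro x
    have h1 : (x - t) ^ 2 + y ^ 2 ≠ 0 := by positivity
    have h3 : (t - x) ^ 2 + y ^ 2 ≠ 0 := by positivity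
    have h2 := Real.pi_ne_zero
    have h4 : (t - x) ^ 2 = (x - t) ^ 2 := by ring
    unfold pk
    rw [h4]
    field_simp
  have hi : Integrable (fun x => pk x y t) volume := by
    simp only [h0]
    exact (integrable_kernel (z := t) hy).const_mul _
  rw [← ofReal_integral_eq_lintegral_ofReal hi (Eventually.of_forall fun x => pk_nonneg hy)]
  simp only [h0]
  rw [integral_const_mul, integral_kernel hy]
  have h2 := Real.pi_ne_zero
  have h3 := hy.ne'
  have : y / Real.pi * (Real.pi / y) = 1 := by field_simp
  rw [this, ENNReal.ofReal_one]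

end L1

theorem I_L1 : StL1 := by
  intro f y hf hy
  have hfm := adm_measurable hf
  have h1 : ∀ x, ENNReal.ofReal |poisson f x y| ≤
      ∫⁻ t, ENNReal.ofReal (pk x y t) * ENNReal.ofReal |f t| := by
    intro x
    rw [L1.poisson_eq_pk f hy, ← Real.norm_eq_abs, ofReal_norm]
    refine (enorm_integral_le_lintegral_enorm _).trans (le_of_eq ?_)
    apply lintegral_congr
    intro t
    rw [← ofReal_norm, norm_mul, Real.norm_eq_abs, Real.norm_eq_abs,
      abs_of_nonneg (L1.pk_nonneg hy), ENNReal.ofReal_mul (L1.pk_nonneg hy)]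
  calc ∫⁻ x, ENNReal.ofReal |poisson f x y|
      ≤ ∫⁻ x, ∫⁻ t, ENNReal.ofReal (pk x y t) * ENNReal.ofReal |f t| := lintegral_mono h1
    _ = ∫⁻ t, ∫⁻ x, ENNReal.ofReal (pk x y t) * ENNReal.ofReal |f t| := by
        apply lintegral_lintegral_swap
        have hk : Measurable (fun q : ℝ × ℝ => ENNReal.ofReal (pk q.1 y q.2)) := by
          apply Measurable.ennreal_ofReal
          unfold pk
          apply Measurable.div
          · exact measurable_const
          · fun_prop
        have hg : AEMeasurable (fun q : ℝ × ℝ => ENNReal.ofReal |f q.2|)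
            ((volume : Measure ℝ).prod volume) := by
          have h2 : AEMeasurable (fun q : ℝ × ℝ => f q.2) ((volume : Measure ℝ).prod volume) :=
            (hfm.comp_snd).aemeasurable
          have h3 : AEMeasurable (fun q : ℝ × ℝ => |f q.2|) ((volume : Measure ℝ).prod volume) := by
            simpa only [Real.norm_eq_abs] using h2.norm
          exact h3.ennreal_ofReal
        exact hk.aemeasurable.mul hg
    _ = ∫⁻ t, ENNReal.ofReal |f t| := by
        apply lintegral_congr
        intro t
        rw [lintegral_mul_const' _ _ ENNReal.ofReal_ne_top, L1.lintegral_pk hy, one_mul]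

end Pool.Agent.Work.MP_055a27_an.Nv
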