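import Pool.Agent.Work.MP_055a27_an.Nv.Stmts

/-! # From local to global estimates -/

set_option autoImplicit false

open MeasureTheory Set Filter Topology Complex Metric ComplexConjugate
open scoped ENNReal NNReal

namespace Pool.Agent.Work.MP_055a27_an.Nv

namespace LG

/-- geometry of the scale function -/
theorem geo {K : ℝ} (hK : 1 ≤ K) {l : ℝ → ℝ} (hl : ∀ x, 0 < l x)
    (hL : ∀ x y, |l x - l y| ≤ |x - y| / (4 * K)) {x c : ℝ} (h : |x - c| < K * l c) :
    l x ≤ 5 / 4 * l c ∧ 3 / 4 * l c ≤ l x := by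
  have h1 := hL x c
  have h2 : |x - c| / (4 * K) ≤ l c / 4 := by
    rw [div_le_div_iff₀ (by positivity) (by norm_num)]
    nlinarith
  have h3 := abs_le.1 (h1.trans h2)
  constructor <;> linarith [h3.1, h3.2]

theorem geo2 {K : ℝ} (hK : 1 ≤ K) {l : ℝ → ℝ} (hl : ∀ x, 0 < l x)
    (hL : ∀ x y, |l x - l y| ≤ |x - y| / (4 * K)) {x c : ℝ} (h : |x - c| < l x / 2) :
    |x - c| < l c := by
  have h1 := hL x c
  have h2 : |x - c| / (4 * K) ≤ |x - c| / 4 := by
    apply div_le_div_of_nonneg_left (abs_nonneg _) (by norm_num)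
    linarith
  have h3 := abs_le.1 (h1.trans h2)
  have := hl x
  linarith [h3.1, h3.2]

theorem cont {K : ℝ} (hK : 1 ≤ K) {l : ℝ → ℝ}
    (hL : ∀ x y, |l x - l y| ≤ |x - y| / (4 * K)) : Continuous l := by
  have : LipschitzWith 1 l := by
    refine LipschitzWith.of_dist_le_mul fun x y => ?_
    rw [Real.dist_eq, Real.dist_eq]
    refine (hL x y).trans ?_
    have : |x - y| / (4 * K) ≤ |x - y| / 1 := by
      apply div_le_div_of_nonneg_left (abs_nonneg _) (by norm_num)
      linarith
    simpa using this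
  exact this.continuous

end LG

theorem I_LG : StLG := by
  intro K C0 C1 hK
  refine ⟨Real.toNNReal (4 / 3) * C1 * C0 * C1 * Real.toNNReal (10 / 3 * K), ?_⟩
  intro l W N Ψ hW hN hΨ hl hL hWc hloc
  have hlc : Continuous l := LG.cont hK hL
  have hlm : Measurable l := hlc.measurable
  have hNW : Measurable (fun x => N x * W x) := hN.mul hW
  -- the kernels
  set F : ℝ → ℝ → ℝ≥0∞ := fun x c =>
    Set.indicator {p : ℝ × ℝ | |p.1 - p.2| < l p.2}
      (fun p => ENNReal.ofReal (4 / 3 / l p.2) * (C1 * W p.2) * Ψ p.1) (x, c) with hF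
  set G : ℝ → ℝ → ℝ≥0∞ := fun x c =>
    Set.indicator {p : ℝ × ℝ | |p.1 - p.2| < K * l p.2}
      (fun p => ENNReal.ofReal (1 / l p.2) * (N p.1 * W p.1)) (x, c) with hG
  have hS1 : MeasurableSet {p : ℝ × ℝ | |p.1 - p.2| < l p.2} :=
    measurableSet_lt (by fun_prop) (hlm.comp measurable_snd)
  have hS2 : MeasurableSet {p : ℝ × ℝ | |p.1 - p.2| < K * l p.2} :=
    measurableSet_lt (by fun_prop) ((hlm.comp measurable_snd).const_mul K)
  have hFm : Measurable (Function.uncurry F) := by
    have : Measurable (fun p : ℝ × ℝ => ENNReal.ofReal (4 / 3 / l p.2) * (C1 * W p.2) * Ψ p.1) := by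
      refine Measurable.mul (Measurable.mul ?_ ?_) (hΨ.comp measurable_fst)
      · exact ENNReal.measurable_ofReal.comp (measurable_const.div (hlm.comp measurable_snd))
      · exact (hW.comp measurable_snd).const_mul _
    exact this.indicator hS1
  have hGm : Measurable (Function.uncurry G) := by
    have : Measurable (fun p : ℝ × ℝ => ENNReal.ofReal (1 / l p.2) * (N p.1 * W p.1)) := by
      refine Measurable.mul ?_ ((hN.comp measurable_fst).mul (hW.comp measurable_fst))
      exact ENNReal.measurable_ofReal.comp (measurable_const.div (hlm.comp measurable_snd))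
    exact this.indicator hS2
  -- step 1
  have s1 : ∀ x, Ψ x * W x ≤ ∫⁻ c, F x c := by
    intro x
    have hlx := hl x
    have e1 : Ψ x * W x = ∫⁻ _c in Ioo (x - l x / 2) (x + l x / 2),
        ENNReal.ofReal (1 / l x) * (Ψ x * W x) := by
      rw [setLIntegral_const, Real.volume_Ioo]
      rw [show x + l x / 2 - (x - l x / 2) = l x by ring]
      have e0 : ENNReal.ofReal (1 / l x) * ENNReal.ofReal (l x) = 1 := by
        rw [← ENNReal.ofReal_mul (by positivity), one_div_mul_cancel hlx.ne',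
          ENNReal.ofReal_one]
      calc Ψ x * W x = 1 * (Ψ x * W x) := (one_mul _).symm
        _ = ENNReal.ofReal (1 / l x) * ENNReal.ofReal (l x) * (Ψ x * W x) := by rw [e0]
        _ = _ := by ring
    rw [e1, ← lintegral_indicator measurableSet_Ioo]
    refine lintegral_mono fun c => ?_
    by_cases hc : c ∈ Ioo (x - l x / 2) (x + l x / 2)
    · rw [Set.indicator_of_mem hc]
      have h1 : |x - c| < l x / 2 := by
        rw [abs_lt]
        constructor <;> linarith [hc.1, hc.2]
      have h2 : |x - c| < l c := LG.geo2 hK hl hL h1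
      have h3 : |x - c| < K * l c := by
        have := hl c
        nlinarith
      have h4 := LG.geo hK hl hL h3
      have hlc' := hl c
      rw [hF]
      show _ ≤ Set.indicator _ _ _
      rw [Set.indicator_of_mem (show (x, c) ∈ {p : ℝ × ℝ | |p.1 - p.2| < l p.2} from h2)]
      have h5 : W x ≤ C1 * W c := (hWc x c h3.le).1
      have h6 : ENNReal.ofReal (1 / l x) ≤ ENNReal.ofReal (4 / 3 / l c) := by
        apply ENNReal.ofReal_le_ofReal
        rw [div_le_div_iff₀ hlx hlc']
        linarith [h4.2]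
      calc ENNReal.ofReal (1 / l x) * (Ψ x * W x)
          ≤ ENNReal.ofReal (4 / 3 / l c) * (Ψ x * (C1 * W c)) := by gcongr
        _ = ENNReal.ofReal (4 / 3 / l c) * (C1 * W c) * Ψ x := by ring
    · rw [Set.indicator_of_notMem hc]
      exact zero_le
  -- step 2
  have s2 : ∀ c, ∫⁻ x, F x c ≤ (Real.toNNReal (4 / 3) * C1 * C0 * C1 : ℝ≥0) * ∫⁻ x, G x c := by
    intro c
    have hlc' := hl c
    have e1 : ∫⁻ x, F x c = ENNReal.ofReal (4 / 3 / l c) * (C1 * W c) *
        ∫⁻ x in Ioo (c - l c) (c + l c), Ψ x := by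
      rw [← lintegral_const_mul _ hΨ, ← lintegral_indicator measurableSet_Ioo]
      refine lintegral_congr fun x => ?_
      have hiff : (x, c) ∈ {p : ℝ × ℝ | |p.1 - p.2| < l p.2} ↔ x ∈ Ioo (c - l c) (c + l c) := by
        show |x - c| < l c ↔ _
        rw [abs_lt]
        constructor
        · intro h; exact ⟨by linarith [h.1], by linarith [h.2]⟩
        · intro h; exact ⟨by linarith [h.1], by linarith [h.2]⟩
      by_cases hx : x ∈ Ioo (c - l c) (c + l c)
      · rw [Set.indicator_of_mem hx, hF]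
        show Set.indicator _ _ _ = _
        rw [Set.indicator_of_mem (hiff.2 hx)]
      · rw [Set.indicator_of_notMem hx, hF]
        show Set.indicator _ _ _ = _
        rw [Set.indicator_of_notMem (fun h => hx (hiff.1 h))]
    rw [e1]
    have e2 : ∫⁻ x in Ioo (c - K * l c) (c + K * l c), N x * W c ≤
        ∫⁻ x in Ioo (c - K * l c) (c + K * l c), C1 * (N x * W x) := by
      refine setLIntegral_mono' measurableSet_Ioo fun x hx => ?_
      have h1 : |x - c| ≤ K * l c := by
        rw [abs_le]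
        constructor <;> linarith [hx.1, hx.2]
      have := (hWc x c h1).2
      calc N x * W c ≤ N x * (C1 * W x) := by gcongr
        _ = C1 * (N x * W x) := by ring
    have e3 : ∫⁻ x, G x c = ENNReal.ofReal (1 / l c) *
        ∫⁻ x in Ioo (c - K * l c) (c + K * l c), N x * W x := by
      rw [← lintegral_const_mul _ hNW, ← lintegral_indicator measurableSet_Ioo]
      refine lintegral_congr fun x => ?_
      have hiff : (x, c) ∈ {p : ℝ × ℝ | |p.1 - p.2| < K * l p.2} ↔
          x ∈ Ioo (c - K * l c) (c + K * l c) := by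
        show |x - c| < K * l c ↔ _
        rw [abs_lt]
        constructor
        · intro h; exact ⟨by linarith [h.1], by linarith [h.2]⟩
        · intro h; exact ⟨by linarith [h.1], by linarith [h.2]⟩
      by_cases hx : x ∈ Ioo (c - K * l c) (c + K * l c)
      · rw [Set.indicator_of_mem hx, hG]
        show Set.indicator _ _ _ = _
        rw [Set.indicator_of_mem (hiff.2 hx)]
      · rw [Set.indicator_of_notMem hx, hG]
        show Set.indicator _ _ _ = _
        rw [Set.indicator_of_notMem (fun h => hx (hiff.1 h))]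
    rw [lintegral_mul_const _ hN, lintegral_const_mul _ hNW] at e2
    rw [e3]
    have e4 : ENNReal.ofReal (4 / 3 / l c) =
        (Real.toNNReal (4 / 3) : ℝ≥0∞) * ENNReal.ofReal (1 / l c) := by
      rw [show (4 : ℝ) / 3 / l c = 4 / 3 * (1 / l c) by ring, ENNReal.ofReal_mul (by norm_num)]
      rfl
    rw [e4]
    push_cast
    calc (Real.toNNReal (4 / 3) : ℝ≥0∞) * ENNReal.ofReal (1 / l c) * (C1 * W c) *
          ∫⁻ x in Ioo (c - l c) (c + l c), Ψ x
        ≤ (Real.toNNReal (4 / 3) : ℝ≥0∞) * ENNReal.ofReal (1 / l c) * (C1 * W c) *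
          (C0 * ∫⁻ x in Ioo (c - K * l c) (c + K * l c), N x) := by gcongr; exact hloc c
      _ = (Real.toNNReal (4 / 3) : ℝ≥0∞) * C1 * C0 * ENNReal.ofReal (1 / l c) *
          ((∫⁻ x in Ioo (c - K * l c) (c + K * l c), N x) * W c) := by ring
      _ ≤ (Real.toNNReal (4 / 3) : ℝ≥0∞) * C1 * C0 * ENNReal.ofReal (1 / l c) *
          (C1 * ∫⁻ x in Ioo (c - K * l c) (c + K * l c), N x * W x) := by gcongr
      _ = (Real.toNNReal (4 / 3) : ℝ≥0∞) * C1 * C0 * C1 * (ENNReal.ofReal (1 / l c) *
          ∫⁻ x in Ioo (c - K * l c) (c + K * l c), N x * W x) := by ring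
  -- step 3
  have s3 : ∀ x, ∫⁻ c, G x c ≤ (Real.toNNReal (10 / 3 * K) : ℝ≥0∞) * (N x * W x) := by
    intro x
    have hlx := hl x
    have e1 : ∫⁻ c, G x c ≤ ∫⁻ c in Ioo (x - K * (4 / 3 * l x)) (x + K * (4 / 3 * l x)),
        ENNReal.ofReal (5 / 4 / l x) * (N x * W x) := by
      rw [← lintegral_indicator measurableSet_Ioo]
      refine lintegral_mono fun c => ?_
      rw [hG]
      show Set.indicator _ _ _ ≤ _
      by_cases hc : (x, c) ∈ {p : ℝ × ℝ | |p.1 - p.2| < K * l p.2}
      · have h1 : |x - c| < K * l c := hc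
        have h2 := LG.geo hK hl hL h1
        have hlc' := hl c
        have h3 : K * l c ≤ K * (4 / 3 * l x) := by
          apply mul_le_mul_of_nonneg_left _ (by linarith)
          linarith [h2.2]
        have h4 := abs_lt.1 (h1.trans_le h3)
        have h5 : c ∈ Ioo (x - K * (4 / 3 * l x)) (x + K * (4 / 3 * l x)) :=
          ⟨by linarith [h4.2], by linarith [h4.1]⟩
        rw [Set.indicator_of_mem hc, Set.indicator_of_mem h5]
        have h6 : ENNReal.ofReal (1 / l c) ≤ ENNReal.ofReal (5 / 4 / l x) := by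
          apply ENNReal.ofReal_le_ofReal
          rw [div_le_div_iff₀ hlc' hlx]
          linarith [h2.1]
        exact mul_le_mul' h6 le_rfl
      · rw [Set.indicator_of_notMem hc]
        exact zero_le
    refine e1.trans (le_of_eq ?_)
    rw [setLIntegral_const, Real.volume_Ioo]
    rw [show x + K * (4 / 3 * l x) - (x - K * (4 / 3 * l x)) = K * (8 / 3) * l x by ring]
    rw [mul_comm, ← mul_assoc, ← ENNReal.ofReal_mul (by positivity)]
    congr 1
    rw [show K * (8 / 3) * l x * (5 / 4 / l x) = 10 / 3 * K * (l x / l x) by ring,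
      div_self hlx.ne', mul_one]
    rfl
  calc ∫⁻ x, Ψ x * W x ≤ ∫⁻ x, ∫⁻ c, F x c := lintegral_mono s1
    _ = ∫⁻ c, ∫⁻ x, F x c := lintegral_lintegral_swap hFm.aemeasurable
    _ ≤ ∫⁻ c, (Real.toNNReal (4 / 3) * C1 * C0 * C1 : ℝ≥0) * ∫⁻ x, G x c := lintegral_mono s2
    _ = (Real.toNNReal (4 / 3) * C1 * C0 * C1 : ℝ≥0) * ∫⁻ c, ∫⁻ x, G x c := by
        have hG2 : Measurable (fun c => ∫⁻ x, G x c) := hGm.lintegral_prod_left'
        rw [lintegral_const_mul _ hG2]
    _ = (Real.toNNReal (4 / 3) * C1 * C0 * C1 : ℝ≥0) * ∫⁻ x, ∫⁻ c, G x c := by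
        rw [lintegral_lintegral_swap hGm.aemeasurable]
    _ ≤ (Real.toNNReal (4 / 3) * C1 * C0 * C1 : ℝ≥0) *
        ∫⁻ x, (Real.toNNReal (10 / 3 * K) : ℝ≥0∞) * (N x * W x) := by
        gcongr with x
        exact s3 x
    _ = _ := by
        rw [lintegral_const_mul _ hNW, ← mul_assoc]
        push_cast
        rfl

end Pool.Agent.Work.MP_055a27_an.Nv
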