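import Pool.Agent.Work.MP_055a27_an.Nv.Stmts

/-!
# The local estimate (item 8)
-/

set_option autoImplicit false

open MeasureTheory Set Filter Topology Complex Metric ComplexConjugate
open scoped ENNReal NNReal

namespace Pool.Agent.Work.MP_055a27_an.Nv

namespace Loc

lemma adm_ind {f : ℝ → ℝ} (hf : Admissible f) {S : Set ℝ} (hS : MeasurableSet S) :
    Admissible (S.indicator f) := by
  unfold Admissible at *
  have h := hf.indicator hS
  refine h.congr (Eventually.of_forall fun t => ?_)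
  by_cases ht : t ∈ S <;> simp [ht]

lemma schw_add {f : ℝ → ℝ} (hf : Admissible f) {S : Set ℝ} (hS : MeasurableSet S) {w : ℂ}
    (hw : 0 < w.im) : schw f w = schw (S.indicator f) w + schw (Sᶜ.indicator f) w := by
  unfold schw
  rw [← mul_add, ← integral_add (integrable_schw_integrand (adm_ind hf hS) hw)
    (integrable_schw_integrand (adm_ind hf hS.compl) hw)]
  congr 1
  refine integral_congr_ae (Eventually.of_forall fun t => ?_)
  by_cases ht : t ∈ S <;> simp [ht]

lemma dschw_add {f : ℝ → ℝ} (hf : Admissible f) {S : Set ℝ} (hS : MeasurableSet S) {w : ℂ}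
    (hw : 0 < w.im) : dschw f w = dschw (S.indicator f) w + dschw (Sᶜ.indicator f) w := by
  have h1 := hasDerivAt_schw hf hw
  have h2 := (hasDerivAt_schw (adm_ind hf hS) hw).add (hasDerivAt_schw (adm_ind hf hS.compl) hw)
  have h3 : (schw (S.indicator f) + schw (Sᶜ.indicator f)) =ᶠ[𝓝 w] schw f := by
    filter_upwards [isOpen_uhp.mem_nhds hw] with v hv
    exact (schw_add hf hS hv).symm
  exact h1.unique (h2.congr_of_eventuallyEq h3.symm)

lemma gradSq_le {f : ℝ → ℝ} (hf : Admissible f) {S : Set ℝ} (hS : MeasurableSet S)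
    {q : ℝ × ℝ} (hq : 0 < q.2) :
    ENNReal.ofReal (gradSq f q.1 q.2) ≤
      2 * ENNReal.ofReal (gsq (schw (S.indicator f)) q) +
        2 * ENNReal.ofReal (gsq (schw (Sᶜ.indicator f)) q) := by
  have hw : 0 < ((q.1 : ℂ) + (q.2 : ℂ) * I).im := by simp [hq]
  rw [gradSq_eq hf hq]
  unfold gsq
  rw [(hasDerivAt_schw (adm_ind hf hS) hw).deriv, (hasDerivAt_schw (adm_ind hf hS.compl) hw).deriv,
    dschw_add hf hS hw]
  have e2 : (2 : ℝ≥0∞) = ENNReal.ofReal 2 := by simp
  rw [e2, ← ENNReal.ofReal_mul (by norm_num), ← ENNReal.ofReal_mul (by norm_num),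
    ← ENNReal.ofReal_add (by positivity) (by positivity)]
  apply ENNReal.ofReal_le_ofReal
  have h := norm_add_le (dschw (S.indicator f) ((q.1 : ℂ) + (q.2 : ℂ) * I))
    (dschw (Sᶜ.indicator f) ((q.1 : ℂ) + (q.2 : ℂ) * I))
  set a := ‖dschw (S.indicator f) ((q.1 : ℂ) + (q.2 : ℂ) * I)‖
  set b := ‖dschw (Sᶜ.indicator f) ((q.1 : ℂ) + (q.2 : ℂ) * I)‖
  have h0 := norm_nonneg (dschw (S.indicator f) ((q.1 : ℂ) + (q.2 : ℂ) * I) +
    dschw (Sᶜ.indicator f) ((q.1 : ℂ) + (q.2 : ℂ) * I))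
  have h4 := mul_self_le_mul_self h0 h
  nlinarith [sq_nonneg (a - b)]

lemma gsq_eq {f : ℝ → ℝ} (hf : Admissible f) {q : ℝ × ℝ} (hq : 0 < q.2) :
    gradSq f q.1 q.2 = gsq (schw f) q := by
  have hw : 0 < ((q.1 : ℂ) + (q.2 : ℂ) * I).im := by simp [hq]
  rw [gradSq_eq hf hq]
  unfold gsq
  rw [(hasDerivAt_schw hf hw).deriv]

/-- the power of a sum -/
lemma rpow_add_le {a b : ℝ≥0∞} {s : ℝ} (hs : 0 ≤ s) :
    (2 * a + 2 * b) ^ s ≤ ENNReal.ofReal ((4 : ℝ) ^ s) * (a ^ s + b ^ s) := by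
  have e4 : ENNReal.ofReal ((4 : ℝ) ^ s) = (4 : ℝ≥0∞) ^ s := by
    rw [← ENNReal.ofReal_rpow_of_pos (by norm_num)]
    congr 1
    simp
  rw [e4]
  rcases le_total a b with h | h
  · calc (2 * a + 2 * b) ^ s ≤ (4 * b) ^ s := by
          apply ENNReal.rpow_le_rpow _ hs
          calc 2 * a + 2 * b ≤ 2 * b + 2 * b := by gcongr
            _ = 4 * b := by ring
      _ = 4 ^ s * b ^ s := ENNReal.mul_rpow_of_nonneg _ _ hs
      _ ≤ 4 ^ s * (a ^ s + b ^ s) := by gcongr; exact le_add_self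
  · calc (2 * a + 2 * b) ^ s ≤ (4 * a) ^ s := by
          apply ENNReal.rpow_le_rpow _ hs
          calc 2 * a + 2 * b ≤ 2 * a + 2 * a := by gcongr
            _ = 4 * a := by ring
      _ = 4 ^ s * a ^ s := ENNReal.mul_rpow_of_nonneg _ _ hs
      _ ≤ 4 ^ s * (a ^ s + b ^ s) := by gcongr; exact le_self_add

/-- Hoelder's inequality on an interval -/
lemma holder {g : ℝ → ℝ≥0∞} (hg : Measurable g) {p c R : ℝ} (hp : 1 < p) (hR : 0 < R) :
    (∫⁻ x in Ioo (c - R) (c + R), g x) ^ p ≤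
      ENNReal.ofReal ((2 * R) ^ (p - 1)) * ∫⁻ x in Ioo (c - R) (c + R), g x ^ p := by
  have hpq : p.HolderConjugate (p / (p - 1)) := Real.HolderConjugate.conjExponent hp
  have h := ENNReal.lintegral_mul_le_Lp_mul_Lq (volume.restrict (Ioo (c - R) (c + R))) hpq
    hg.aemeasurable (aemeasurable_const (b := (1 : ℝ≥0∞)))
  simp only [Pi.mul_apply, mul_one, ENNReal.one_rpow, lintegral_const,
    Measure.restrict_apply_univ, Real.volume_Ioo, one_mul] at h
  have hp0 : 0 < p := by linarith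
  have h2 := ENNReal.rpow_le_rpow h hp0.le
  refine h2.trans ?_
  rw [ENNReal.mul_rpow_of_nonneg _ _ hp0.le, ← ENNReal.rpow_mul, ← ENNReal.rpow_mul,
    one_div_mul_cancel hp0.ne', ENNReal.rpow_one, mul_comm]
  apply le_of_eq
  congr 1
  have e1 : c + R - (c - R) = 2 * R := by ring
  have e2 : 1 / (p / (p - 1)) * p = p - 1 := by
    have : p - 1 ≠ 0 := by linarith
    field_simp
  rw [e1, e2, ENNReal.ofReal_rpow_of_pos (by linarith)]

/-- the area of a truncated cone -/
lemma vol_cone {lam x l : ℝ} (hlam : 0 < lam) (hl : 0 < l) :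
    volume (cone lam x ∩ {q : ℝ × ℝ | q.2 < 2 * l}) ≤ ENNReal.ofReal (8 * lam * l ^ 2) := by
  have hsub : cone lam x ∩ {q : ℝ × ℝ | q.2 < 2 * l} ⊆
      Icc (x - 2 * lam * l) (x + 2 * lam * l) ×ˢ Icc 0 (2 * l) := by
    rintro ⟨z, y⟩ ⟨⟨h1, h2⟩, h3⟩
    simp only [mem_ofPred_eq] at h1 h2 h3
    have h4 := abs_le.1 h1
    refine ⟨⟨?_, ?_⟩, ⟨h2.le, h3.le⟩⟩ <;> simp only <;> nlinarith [h4.1, h4.2]
  refine (measure_mono hsub).trans (le_of_eq ?_)
  rw [Measure.volume_eq_prod, Measure.prod_prod, Real.volume_Icc, Real.volume_Icc,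
    ← ENNReal.ofReal_mul (by nlinarith)]
  congr 1
  ring

lemma measurable_ntMax {f : ℝ → ℝ} (hf : Admissible f) (b : ℝ) : Measurable (ntMax b f) := by
  have : ntMax b f = NT (schw f) b := by
    funext x
    exact ntMax_eq hf
  rw [this]
  exact measurable_NT (schw_diff hf) b

lemma cont_re {f : ℝ → ℝ} (hf : Admissible f) :
    ContinuousOn (fun q : ℝ × ℝ => (schw f ((q.1 : ℂ) + (q.2 : ℂ) * I)).re) {q | 0 < q.2} := by
  apply Complex.continuous_re.comp_continuousOn
  apply (schw_diff hf).continuousOn.comp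
  · fun_prop
  · intro q hq
    exact mem_uhp hq

lemma meas_pois {f : ℝ → ℝ} (hf : Admissible f) {A : Set (ℝ × ℝ)} (hA : MeasurableSet A)
    (hAs : A ⊆ {q | 0 < q.2}) :
    AEMeasurable (fun q : ℝ × ℝ => ENNReal.ofReal
      |(schw f ((q.1 : ℂ) + (q.2 : ℂ) * I)).re|) (volume.restrict A) := by
  apply ENNReal.measurable_ofReal.comp_aemeasurable
  exact (((cont_re hf).mono hAs).abs).aemeasurable hA

lemma meas_hd (c R : ℝ) : MeasurableSet (hd c R) := by
  have h1 : MeasurableSet {q : ℝ × ℝ | 0 < q.2} := measurableSet_lt measurable_const measurable_snd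
  have h2 : MeasurableSet {q : ℝ × ℝ | (q.1 - c) ^ 2 + q.2 ^ 2 < R ^ 2} :=
    measurableSet_lt (by fun_prop) measurable_const
  exact h1.inter h2

lemma hd_sub {c R : ℝ} (hR : 0 < R) : hd c R ⊆ Ioo (c - R) (c + R) ×ˢ Ioo 0 R := by
  rintro ⟨z, y⟩ ⟨h1, h2⟩
  simp only at h1 h2
  have h3 : |z - c| < R := by
    apply abs_lt_of_sq_lt_sq _ hR.le
    nlinarith [sq_nonneg y]
  have h4 : y < R := by
    apply lt_of_pow_lt_pow_left₀ 2 hR.le
    nlinarith [sq_nonneg (z - c)]
  have h5 := abs_lt.1 h3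
  exact ⟨⟨by simp only; linarith [h5.1], by simp only; linarith [h5.2]⟩, ⟨h1, h4⟩⟩

/-- the integral over the half disc of the Poisson integral of `f` -/
lemma int_f {f : ℝ → ℝ} (hf : Admissible f) {b c R : ℝ} (hb : 0 < b) (hR : 0 < R) :
    ∫⁻ q in hd c R, ENNReal.ofReal |(schw f ((q.1 : ℂ) + (q.2 : ℂ) * I)).re| ≤
      ENNReal.ofReal R * ∫⁻ x in Ioo (c - R) (c + R), ntMax b f x := by
  have h1 : ∫⁻ q in hd c R, ENNReal.ofReal |(schw f ((q.1 : ℂ) + (q.2 : ℂ) * I)).re| ≤
      ∫⁻ q in hd c R, ntMax b f q.1 := by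
    apply setLIntegral_mono' (meas_hd c R)
    intro q hq
    rw [← poisson_eq_re hf hq.1]
    apply le_ntMax hq.1
    simp only [sub_self, abs_zero]
    exact mul_nonneg hb.le (le_of_lt hq.1)
  refine h1.trans ((lintegral_mono_set (hd_sub hR)).trans (le_of_eq ?_))
  rw [Measure.volume_eq_prod, ← Measure.prod_restrict, lintegral_prod
    (fun q : ℝ × ℝ => ntMax b f q.1) ((measurable_ntMax hf b).comp measurable_fst).aemeasurable]
  simp only [lintegral_const, Measure.restrict_apply_univ, Real.volume_Ioo, sub_zero]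
  rw [lintegral_mul_const _ (measurable_ntMax hf b), mul_comm]

/-- the integral over the half disc of the Poisson integral of an integrable function -/
lemma int_f1 (h5 : StL1) {f : ℝ → ℝ} (hf : Admissible f) {c R : ℝ} (hR : 0 < R) :
    ∫⁻ q in hd c R, ENNReal.ofReal |(schw f ((q.1 : ℂ) + (q.2 : ℂ) * I)).re| ≤
      ENNReal.ofReal R * ∫⁻ x, ENNReal.ofReal |f x| := by
  have hsub : hd c R ⊆ univ ×ˢ Ioo 0 R := (hd_sub hR).trans (prod_mono (subset_univ _) le_rfl)
  have hm : MeasurableSet ((univ : Set ℝ) ×ˢ Ioo (0 : ℝ) R) :=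
    MeasurableSet.univ.prod measurableSet_Ioo
  have hae := meas_pois hf hm (fun q hq => hq.2.1)
  refine (lintegral_mono_set hsub).trans ?_
  rw [Measure.volume_eq_prod, ← Measure.prod_restrict] at hae ⊢
  rw [lintegral_prod_symm _ hae]
  calc ∫⁻ y in Ioo (0 : ℝ) R, ∫⁻ x in univ,
        ENNReal.ofReal |(schw f (((x, y) : ℝ × ℝ).1 + (((x, y) : ℝ × ℝ).2 : ℂ) * I)).re|
      ≤ ∫⁻ y in Ioo (0 : ℝ) R, ∫⁻ x, ENNReal.ofReal |f x| := by
        apply setLIntegral_mono' measurableSet_Ioo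
        intro y hy
        rw [Measure.restrict_univ]
        refine le_trans (le_of_eq ?_) (h5 f y hf hy.1)
        apply lintegral_congr
        intro x
        rw [poisson_eq_re hf hy.1]
    _ = ENNReal.ofReal R * ∫⁻ x, ENNReal.ofReal |f x| := by
        simp only [lintegral_const, Measure.restrict_apply_univ, Real.volume_Ioo, sub_zero]
        rw [mul_comm]

end Loc

open Loc in
theorem I_Loc (h1 : StBd) (h2 : StSLp) (h3 : StDisc) (h4 : StFar) (h5 : StL1) : StLoc := by
  intro lam b p hlam hb hp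
  obtain ⟨C1, hC1⟩ := h2 lam p hlam hp
  obtain ⟨CD, hCD⟩ := h3
  have hp0 : 0 < p := by linarith
  have hp2 : 0 ≤ p / 2 := by linarith
  obtain ⟨K, hK⟩ : ∃ K : ℝ, K = 16 * (2 + lam) := ⟨_, rfl⟩
  have hK1 : 1 ≤ K := by rw [hK]; linarith
  have hK0 : 0 < K := by linarith
  obtain ⟨κ, hκ⟩ : ∃ κ : ℝ, κ = 2 * (CD : ℝ) * Real.sqrt (8 * lam) / K ^ 2 := ⟨_, rfl⟩
  have hκ0 : 0 ≤ κ := by rw [hκ]; positivity
  refine ⟨K, hK1, Real.toNNReal ((4 : ℝ) ^ (p / 2)) *
    (C1 + Real.toNNReal (2 * κ ^ p * (2 * K) ^ (p - 1))), ?_⟩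
  intro f c l hf hl
  obtain ⟨R, hR⟩ : ∃ R : ℝ, R = K * l := ⟨_, rfl⟩
  have hR0 : 0 < R := by rw [hR]; positivity
  rw [← hR]
  set S : Set ℝ := Ioo (c - R) (c + R) with hS
  have hSm : MeasurableSet S := measurableSet_Ioo
  set f1 := S.indicator f with hf1
  set f2 := Sᶜ.indicator f with hf2
  have af1 : Admissible f1 := adm_ind hf hSm
  have af2 : Admissible f2 := adm_ind hf hSm.compl
  set P : ℝ≥0∞ := ∫⁻ x in S, (ntMax b f x) ^ p with hP
  set M : ℝ≥0∞ := ∫⁻ x in S, ntMax b f x with hM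
  -- boundary values
  have hbd := h1 b f hb hf
  have hf1M : ∫⁻ x, ENNReal.ofReal |f1 x| ≤ M := by
    have e : (fun x => ENNReal.ofReal |f1 x|) = S.indicator (fun x => ENNReal.ofReal |f x|) := by
      funext x
      by_cases hx : x ∈ S <;> simp [hf1, hx]
    rw [e, lintegral_indicator hSm]
    exact setLIntegral_mono_ae' hSm (hbd.mono fun x hx _ => hx)
  have hf1P : ∫⁻ x, (ENNReal.ofReal |f1 x|) ^ p ≤ P := by
    have e : (fun x => (ENNReal.ofReal |f1 x|) ^ p) =
        S.indicator (fun x => (ENNReal.ofReal |f x|) ^ p) := by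
      funext x
      by_cases hx : x ∈ S
      · simp [hf1, hx]
      · simp [hf1, hx, hp0]
    rw [e, lintegral_indicator hSm]
    exact setLIntegral_mono_ae' hSm (hbd.mono fun x hx _ => ENNReal.rpow_le_rpow hx hp0.le)
  -- part 1
  have part1 : ∫⁻ x, (∫⁻ q in cone lam x, ENNReal.ofReal (gsq (schw f1) q)) ^ (p / 2) ≤
      C1 * P := by
    calc ∫⁻ x, (∫⁻ q in cone lam x, ENNReal.ofReal (gsq (schw f1) q)) ^ (p / 2)
        = ∫⁻ x, (areaFn lam f1 x) ^ p := by
          apply lintegral_congr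
          intro x
          rw [areaFn_rpow]
          congr 1
          apply setLIntegral_congr_fun (measurableSet_cone lam x)
          intro q hq
          simp only
          rw [gsq_eq af1 hq.2]
      _ ≤ C1 * ∫⁻ x, (ENNReal.ofReal |f1 x|) ^ p := hC1 f1 af1
      _ ≤ C1 * P := by gcongr
  -- part 2
  have hhd : ∫⁻ q in hd c R, ENNReal.ofReal |(schw f2 ((q.1 : ℂ) + (q.2 : ℂ) * I)).re| ≤
      ENNReal.ofReal (2 * R) * M := by
    have hpos : hd c R ⊆ {q | 0 < q.2} := fun q hq => hq.1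
    calc ∫⁻ q in hd c R, ENNReal.ofReal |(schw f2 ((q.1 : ℂ) + (q.2 : ℂ) * I)).re|
        ≤ ∫⁻ q in hd c R, (ENNReal.ofReal |(schw f ((q.1 : ℂ) + (q.2 : ℂ) * I)).re| +
            ENNReal.ofReal |(schw f1 ((q.1 : ℂ) + (q.2 : ℂ) * I)).re|) := by
          apply setLIntegral_mono' (meas_hd c R)
          intro q hq
          have e := schw_add hf hSm (w := (q.1 : ℂ) + (q.2 : ℂ) * I) (by simpa using hq.1)
          rw [← ENNReal.ofReal_add (abs_nonneg _) (abs_nonneg _)]
          apply ENNReal.ofReal_le_ofReal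
          rw [e, Complex.add_re]
          have := abs_sub (((schw f1 ((q.1 : ℂ) + (q.2 : ℂ) * I)).re +
            (schw f2 ((q.1 : ℂ) + (q.2 : ℂ) * I)).re))
            (schw f1 ((q.1 : ℂ) + (q.2 : ℂ) * I)).re
          rwa [add_sub_cancel_left] at this
      _ = _ := lintegral_add_left' (meas_pois hf (meas_hd c R) hpos) _
      _ ≤ ENNReal.ofReal R * M + ENNReal.ofReal R * M := by
          apply add_le_add (int_f hf hb hR0)
          refine (int_f1 h5 af1 hR0).trans ?_
          gcongr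
      _ = ENNReal.ofReal (2 * R) * M := by
          rw [two_mul, ENNReal.ofReal_add hR0.le hR0.le, add_mul]
  have hfar := h4 f2 c R af2 hR0 (by
    intro t ht
    have h := abs_lt.1 ht
    have : t ∈ S := ⟨by linarith [h.1], by linarith [h.2]⟩
    simp [hf2, this])
  obtain ⟨T, hT⟩ : ∃ T : ℝ≥0∞, T = ENNReal.ofReal (2 * (CD : ℝ) / R ^ 2) * M := ⟨_, rfl⟩
  have hder : ∀ w ∈ ball (c : ℂ) (R / 4), ENNReal.ofReal ‖deriv (schw f2) w‖ ≤ T := by
    intro w hw
    refine (hCD (schw f2) c R hR0 hfar.1 hfar.2 w hw).trans ?_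
    have hR3 : ENNReal.ofReal (R ^ 3) ≠ 0 := by
      rw [Ne, ENNReal.ofReal_eq_zero, not_le]; positivity
    apply ENNReal.div_le_of_le_mul
    calc (CD : ℝ≥0∞) * ∫⁻ q in hd c R, ENNReal.ofReal |(schw f2 ((q.1 : ℂ) + (q.2 : ℂ) * I)).re|
        ≤ CD * (ENNReal.ofReal (2 * R) * M) := by gcongr
      _ = T * ENNReal.ofReal (R ^ 3) := by
          have e : (CD : ℝ≥0∞) = ENNReal.ofReal (CD : ℝ) := (ENNReal.ofReal_coe_nnreal).symm
          rw [e, hT, ← mul_assoc, ← ENNReal.ofReal_mul (by positivity), mul_right_comm,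
            ← ENNReal.ofReal_mul (by positivity)]
          congr 2
          field_simp
  have hA2 : ∀ x ∈ Ioo (c - l) (c + l),
      (∫⁻ q in cone lam x ∩ {q | q.2 < 2 * l}, ENNReal.ofReal (gsq (schw f2) q)) ≤
        T ^ 2 * ENNReal.ofReal (8 * lam * l ^ 2) := by
    intro x hx
    have hcm : MeasurableSet (cone lam x ∩ {q : ℝ × ℝ | q.2 < 2 * l}) :=
      (measurableSet_cone lam x).inter (measurableSet_lt measurable_snd measurable_const)
    calc (∫⁻ q in cone lam x ∩ {q | q.2 < 2 * l}, ENNReal.ofReal (gsq (schw f2) q))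
        ≤ ∫⁻ q in cone lam x ∩ {q | q.2 < 2 * l}, T ^ 2 := by
          apply setLIntegral_mono' hcm
          rintro ⟨z, y⟩ ⟨⟨hq1, hq2⟩, hq3⟩
          simp only [mem_ofPred_eq] at hq1 hq2 hq3
          unfold gsq
          rw [ENNReal.ofReal_pow (norm_nonneg _)]
          gcongr
          apply hder
          rw [mem_ball, dist_eq_norm]
          have e : ((z : ℂ) + (y : ℂ) * I) - (c : ℂ) = ((z - c : ℝ) : ℂ) + (y : ℂ) * I := by
            push_cast; ring
          simp only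
          rw [e]
          have hz : |z - c| ≤ lam * y + l := by
            have h8 : z - c = -(x - z) + (x - c) := by ring
            rw [h8]
            refine (abs_add_le _ _).trans ?_
            rw [abs_neg]
            have : |x - c| ≤ l := abs_le.2 ⟨by linarith [hx.1], by linarith [hx.2]⟩
            linarith
          calc ‖((z - c : ℝ) : ℂ) + (y : ℂ) * I‖ ≤ ‖((z - c : ℝ) : ℂ)‖ + ‖(y : ℂ) * I‖ :=
                norm_add_le _ _
            _ = |z - c| + y := by
                rw [Complex.norm_real, norm_mul, Complex.norm_real, Complex.norm_I, mul_one,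
                  Real.norm_eq_abs, Real.norm_eq_abs, abs_of_pos hq2]
            _ < R / 4 := by
                rw [hR, hK]
                nlinarith [mul_lt_mul_of_pos_left hq3 hlam]
      _ = T ^ 2 * volume (cone lam x ∩ {q : ℝ × ℝ | q.2 < 2 * l}) := by
          rw [lintegral_const, Measure.restrict_apply_univ]
      _ ≤ T ^ 2 * ENNReal.ofReal (8 * lam * l ^ 2) := by
          gcongr
          exact vol_cone hlam hl
  -- the constant of the second part
  have hconst : (T ^ 2 * ENNReal.ofReal (8 * lam * l ^ 2)) ^ (p / 2) * ENNReal.ofReal (2 * l) ≤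
      ENNReal.ofReal (2 * κ ^ p * (2 * K) ^ (p - 1)) * P := by
    have e1 : T ^ 2 * ENNReal.ofReal (8 * lam * l ^ 2) = (ENNReal.ofReal (κ / l) * M) ^ 2 := by
      rw [hT, mul_pow, mul_pow, mul_right_comm, ← ENNReal.ofReal_pow (by positivity),
        ← ENNReal.ofReal_pow (by positivity), ← ENNReal.ofReal_mul (by positivity)]
      congr 2
      rw [hκ, hR]
      have h8 : Real.sqrt (8 * lam) ^ 2 = 8 * lam := Real.sq_sqrt (by positivity)
      field_simp
      rw [h8]
      ring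
    rw [e1, ← ENNReal.rpow_natCast, ← ENNReal.rpow_mul]
    have e2 : ((2 : ℕ) : ℝ) * (p / 2) = p := by push_cast; ring
    rw [e2, ENNReal.mul_rpow_of_nonneg _ _ hp0.le]
    have hH : M ^ p ≤ ENNReal.ofReal ((2 * R) ^ (p - 1)) * P :=
      holder (measurable_ntMax hf b) hp hR0
    rcases hκ0.eq_or_lt with h0 | hκp
    · have : κ / l = 0 := by rw [← h0]; simp
      rw [this]
      simp [hp0]
    calc ENNReal.ofReal (κ / l) ^ p * M ^ p * ENNReal.ofReal (2 * l)
        ≤ ENNReal.ofReal (κ / l) ^ p * (ENNReal.ofReal ((2 * R) ^ (p - 1)) * P) *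
          ENNReal.ofReal (2 * l) := by gcongr
      _ = (ENNReal.ofReal ((κ / l) ^ p) * ENNReal.ofReal ((2 * R) ^ (p - 1)) *
          ENNReal.ofReal (2 * l)) * P := by
          rw [ENNReal.ofReal_rpow_of_pos (by positivity)]
          ring
      _ = ENNReal.ofReal (2 * κ ^ p * (2 * K) ^ (p - 1)) * P := by
          rw [← ENNReal.ofReal_mul (by positivity), ← ENNReal.ofReal_mul (by positivity)]
          congr 2
          rw [hR, Real.div_rpow hκ0 hl.le, show 2 * (K * l) = (2 * K) * l by ring,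
            Real.mul_rpow (by positivity) hl.le]
          have e3 : l ^ p = l ^ (p - 1) * l := by
            rw [← Real.rpow_add_one hl.ne']; congr 1; ring
          rw [e3]
          have hlp : l ^ (p - 1) ≠ 0 := (Real.rpow_pos_of_pos hl _).ne'
          field_simp
  -- the end
  have hpt : ∀ x ∈ Ioo (c - l) (c + l),
      (∫⁻ q in cone lam x ∩ {q | q.2 < 2 * l}, ENNReal.ofReal (gradSq f q.1 q.2)) ^ (p / 2) ≤
        ENNReal.ofReal ((4 : ℝ) ^ (p / 2)) *
          ((∫⁻ q in cone lam x, ENNReal.ofReal (gsq (schw f1) q)) ^ (p / 2) +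
            (T ^ 2 * ENNReal.ofReal (8 * lam * l ^ 2)) ^ (p / 2)) := by
    intro x hx
    have hcm : MeasurableSet (cone lam x ∩ {q : ℝ × ℝ | q.2 < 2 * l}) :=
      (measurableSet_cone lam x).inter (measurableSet_lt measurable_snd measurable_const)
    have hm1 : Measurable (fun q => ENNReal.ofReal (gsq (schw f1) q)) :=
      ENNReal.measurable_ofReal.comp (measurable_gsq _)
    have hm2 : Measurable (fun q => ENNReal.ofReal (gsq (schw f2) q)) :=
      ENNReal.measurable_ofReal.comp (measurable_gsq _)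
    refine (ENNReal.rpow_le_rpow ?_ hp2).trans (rpow_add_le hp2)
    calc (∫⁻ q in cone lam x ∩ {q | q.2 < 2 * l}, ENNReal.ofReal (gradSq f q.1 q.2))
        ≤ ∫⁻ q in cone lam x ∩ {q | q.2 < 2 * l}, (2 * ENNReal.ofReal (gsq (schw f1) q) +
            2 * ENNReal.ofReal (gsq (schw f2) q)) := by
          apply setLIntegral_mono' hcm
          intro q hq
          exact gradSq_le hf hSm hq.1.2
      _ = 2 * (∫⁻ q in cone lam x ∩ {q | q.2 < 2 * l}, ENNReal.ofReal (gsq (schw f1) q)) +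
            2 * (∫⁻ q in cone lam x ∩ {q | q.2 < 2 * l}, ENNReal.ofReal (gsq (schw f2) q)) := by
          rw [lintegral_add_left (hm1.const_mul 2), lintegral_const_mul _ hm1,
            lintegral_const_mul _ hm2]
      _ ≤ _ := by
          gcongr
          · exact inter_subset_left
          · exact hA2 x hx
  calc ∫⁻ x in Ioo (c - l) (c + l),
        (∫⁻ q in cone lam x ∩ {q | q.2 < 2 * l}, ENNReal.ofReal (gradSq f q.1 q.2)) ^ (p / 2)
      ≤ ∫⁻ x in Ioo (c - l) (c + l), ENNReal.ofReal ((4 : ℝ) ^ (p / 2)) *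
          ((∫⁻ q in cone lam x, ENNReal.ofReal (gsq (schw f1) q)) ^ (p / 2) +
            (T ^ 2 * ENNReal.ofReal (8 * lam * l ^ 2)) ^ (p / 2)) :=
        setLIntegral_mono' measurableSet_Ioo hpt
    _ = ENNReal.ofReal ((4 : ℝ) ^ (p / 2)) *
          ((∫⁻ x in Ioo (c - l) (c + l),
            (∫⁻ q in cone lam x, ENNReal.ofReal (gsq (schw f1) q)) ^ (p / 2)) +
            (T ^ 2 * ENNReal.ofReal (8 * lam * l ^ 2)) ^ (p / 2) * ENNReal.ofReal (2 * l)) := by
        rw [lintegral_const_mul' _ _ ENNReal.ofReal_ne_top, lintegral_add_right _ measurable_const,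
          lintegral_const, Measure.restrict_apply_univ, Real.volume_Ioo]
        congr 4
        ring
    _ ≤ ENNReal.ofReal ((4 : ℝ) ^ (p / 2)) *
          (C1 * P + ENNReal.ofReal (2 * κ ^ p * (2 * K) ^ (p - 1)) * P) := by
        gcongr
        exact (setLIntegral_le_lintegral _ _).trans part1
    _ = _ := by
        rw [ENNReal.coe_mul, ENNReal.coe_add]
        rw [← add_mul, ← mul_assoc]
        rfl

end Pool.Agent.Work.MP_055a27_an.Nv
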