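import Pool.Agent.Work.MP_055a27_an.Nv.Stmts

/-!
# The weights `exp (|x| ^ g)`: assembly
-/

set_option autoImplicit false

open MeasureTheory Set Filter Topology
open scoped ENNReal NNReal

namespace Pool.Agent.Work.MP_055a27_an.Nv

/-- for `g ≥ 1` the inequality always holds -/
def StVac : Prop := ∀ g lam b p : ℝ, 1 ≤ g → 0 < lam → 0 < b → 0 < p → Star lam b p (Ug g)

/-- the description of `(⋆)` for the weights `exp (|x| ^ g)` -/
theorem star_exp_iff (hPos : StPos) (hWk : StWk) (hNA : StNA) (hNeg : StNeg) (hVac : StVac)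
    {g lam b p : ℝ} (hg : 0 < g) (hlam : 0 < lam) (hb : 0 < b) (hp : 1 < p) :
    Star lam b p (Ug g) ↔ 1 ≤ g ∨ lam < max b (Real.tan (g * Real.pi / 2)) := by
  have hp0 : 0 < p := by linarith
  constructor
  · intro h
    by_contra hcon
    push Not at hcon
    exact hNeg g lam b p hg hcon.1 hlam hb hp0 hcon.2 h
  · rintro (h | h)
    · exact hVac g lam b p h hlam hb hp0
    · rcases lt_max_iff.1 h with h1 | h1
      · exact weak_star (hNA g hg).1 (hWk g hg) hlam h1 hp0
      · rcases lt_or_ge g 1 with hg1 | hg1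
        · exact hPos g lam b p hg hg1 hlam h1 hb hp
        · exact hVac g lam b p hg1 hlam hb hp0

/-- for every aperture there is an exponent whose critical aperture is larger -/
theorem exists_exponent (lam : ℝ) (hlam : 0 < lam) :
    ∃ g : ℝ, 0 < g ∧ g < 1 ∧ lam < Real.tan (g * Real.pi / 2) := by
  refine ⟨2 / Real.pi * Real.arctan (lam + 1), ?_, ?_, ?_⟩
  · have h := Real.arctan_pos.2 (show 0 < lam + 1 by linarith)
    positivity
  · have h := Real.arctan_lt_pi_div_two (lam + 1)
    have hpi := Real.pi_pos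
    calc 2 / Real.pi * Real.arctan (lam + 1) < 2 / Real.pi * (Real.pi / 2) := by gcongr
      _ = 1 := by field_simp
  · have hpi := Real.pi_pos
    have e : 2 / Real.pi * Real.arctan (lam + 1) * Real.pi / 2 = Real.arctan (lam + 1) := by
      field_simp
    rw [e, Real.tan_arctan]
    linarith

end Pool.Agent.Work.MP_055a27_an.Nv
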