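import Pool.Agent.Work.MP_055a27_an.Nv.Stmts

/-!
# The inequality is not vacuous for the weights `exp (|x| ^ g)`
-/

set_option autoImplicit false

open MeasureTheory Set Filter Topology Complex Metric ComplexConjugate
open scoped ENNReal NNReal

namespace Pool.Agent.Work.MP_055a27_an.Nv

namespace NV

lemma exists_g1 {g b : ℝ} (hg1 : g < 1) (hb : 0 < b) :
    ∃ l : ℝ, g ≤ l ∧ l < 1 ∧ b ≤ Real.tan (l * Real.pi / 2) := by
  have hpi := Real.pi_pos
  refine ⟨max g (2 * Real.arctan b / Real.pi), le_max_left _ _, max_lt hg1 ?_, ?_⟩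
  · rw [div_lt_one hpi]
    have := Real.arctan_lt_pi_div_two b
    linarith
  · have h1 : Real.arctan b ≤ max g (2 * Real.arctan b / Real.pi) * Real.pi / 2 := by
      have h2 : 2 * Real.arctan b / Real.pi ≤ max g (2 * Real.arctan b / Real.pi) :=
        le_max_right _ _
      rw [div_le_iff₀ hpi] at h2
      linarith
    have h3 : max g (2 * Real.arctan b / Real.pi) * Real.pi / 2 < Real.pi / 2 := by
      have : max g (2 * Real.arctan b / Real.pi) < 1 := by
        refine max_lt hg1 ?_
        rw [div_lt_one hpi]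
        have := Real.arctan_lt_pi_div_two b
        linarith
      nlinarith
    have h4 : 0 < Real.arctan b := by
      rw [← Real.arctan_zero]
      exact Real.arctan_strictMono hb
    rcases h1.eq_or_lt with h5 | h5
    · rw [← h5, Real.tan_arctan]
    · have h6 := Real.strictMonoOn_tan (a := Real.arctan b)
        (b := max g (2 * Real.arctan b / Real.pi) * Real.pi / 2)
        ⟨by linarith, by linarith⟩ ⟨by linarith, h3⟩ h5
      rw [Real.tan_arctan] at h6
      exact h6.le

lemma trig {l θ : ℝ} (h0 : 0 < l) (h1 : l < 1) (hθ0 : 0 ≤ θ) (hθ : θ ≤ Real.pi / 2) :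
    Real.cos (l * Real.pi / 2) ^ (1 - l) * Real.sin (θ + l * Real.pi / 2) ^ l ≤
      Real.cos (l * θ) := by
  have hpi := Real.pi_pos
  have hφ : l * Real.pi / 2 < Real.pi / 2 := by nlinarith
  have hφ0 : 0 < l * Real.pi / 2 := by positivity
  have e1 : Real.sin (θ + l * Real.pi / 2) = Real.cos (θ + l * Real.pi / 2 - Real.pi / 2) := by
    rw [Real.cos_sub_pi_div_two]
  have hc : 0 ≤ Real.cos (l * Real.pi / 2) :=
    Real.cos_nonneg_of_mem_Icc ⟨by linarith, by linarith⟩
  have hs : 0 ≤ Real.cos (θ + l * Real.pi / 2 - Real.pi / 2) :=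
    Real.cos_nonneg_of_mem_Icc ⟨by linarith, by linarith⟩
  rw [e1]
  refine (Real.geom_mean_le_arith_mean2_weighted (by linarith : 0 ≤ 1 - l) h0.le hc hs
    (by ring)).trans ?_
  have h2 := strictConcaveOn_cos_Icc.concaveOn.2
    (x := l * Real.pi / 2) (y := θ + l * Real.pi / 2 - Real.pi / 2)
    ⟨by linarith, by linarith⟩ ⟨by linarith, by linarith⟩
    (by linarith : 0 ≤ 1 - l) h0.le (by ring)
  simp only [smul_eq_mul] at h2
  refine h2.trans (le_of_eq ?_)
  congr 1
  ring

/-- lower bound for the analytic power in a cone -/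
lemma key {l b x z y : ℝ} (h0 : 0 < l) (h1 : l < 1) (hb : b ≤ Real.tan (l * Real.pi / 2))
    (hy : 0 ≤ y) (h : |x - z| ≤ b * y) :
    Real.cos (l * Real.pi / 2) * |x| ^ l ≤ (Ag l ((z : ℂ) + (y : ℂ) * I)).re := by
  have hpi := Real.pi_pos
  have hφ : l * Real.pi / 2 < Real.pi / 2 := by nlinarith
  have hφ0 : 0 < l * Real.pi / 2 := by positivity
  set φ := l * Real.pi / 2 with hφd
  have hc : 0 < Real.cos φ := Real.cos_pos_of_mem_Ioo ⟨by linarith, by linarith⟩
  unfold Ag
  rw [Complex.cpow_ofReal_re]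
  set v : ℂ := 1 - I * ((z : ℂ) + (y : ℂ) * I) with hv
  have hre : v.re = 1 + y := by
    rw [hv]; simp
  have him : v.im = -z := by
    rw [hv]; simp
  have hvre : 0 < v.re := by rw [hre]; linarith
  have hvne : v ≠ 0 := by
    intro h2
    rw [h2] at hvre
    simp at hvre
  have hr : 0 < ‖v‖ := norm_pos_iff.2 hvne
  have hθ : |v.arg| < Real.pi / 2 := Complex.abs_arg_lt_pi_div_two_iff.2 (Or.inl hvre)
  set θ := |v.arg| with hθd
  have hθ0 : 0 ≤ θ := abs_nonneg _
  have hcos : Real.cos θ = (1 + y) / ‖v‖ := by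
    rw [hθd, Real.cos_abs, Complex.cos_arg hvne, hre]
  have hsin : Real.sin θ = |z| / ‖v‖ := by
    have h2 : 0 ≤ Real.sin θ := Real.sin_nonneg_of_nonneg_of_le_pi hθ0 (by linarith)
    rw [← abs_of_nonneg h2]
    have h3 : |Real.sin θ| = |Real.sin v.arg| := by
      rw [hθd]
      rcases abs_choice v.arg with h4 | h4 <;> rw [h4]
      rw [Real.sin_neg, abs_neg]
    rw [h3, Complex.sin_arg, him, abs_div, abs_neg, abs_of_pos hr]
  have hca : Real.cos (v.arg * l) = Real.cos (l * θ) := by
    rw [← Real.cos_abs (v.arg * l), abs_mul, abs_of_pos h0, mul_comm]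
  rw [hca]
  have hx : |x| ≤ ‖v‖ * (Real.sin (θ + φ) / Real.cos φ) := by
    have h2 : |x| ≤ |z| + b * y := by
      have := abs_add_le (x - z) z
      rw [sub_add_cancel] at this
      linarith
    have h3 : b * y ≤ Real.tan φ * (1 + y) := by
      have h4 : 0 < Real.tan φ := Real.tan_pos_of_pos_of_lt_pi_div_two hφ0 hφ
      nlinarith
    have h5 : ‖v‖ * (Real.sin (θ + φ) / Real.cos φ) = |z| + Real.tan φ * (1 + y) := by
      rw [Real.sin_add, hcos, hsin, Real.tan_eq_sin_div_cos]
      field_simp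
    rw [h5]
    linarith
  have hs : 0 ≤ Real.sin (θ + φ) := by
    apply Real.sin_nonneg_of_nonneg_of_le_pi <;> linarith
  have h2 : |x| ^ l ≤ ‖v‖ ^ l * (Real.sin (θ + φ) / Real.cos φ) ^ l := by
    rw [← Real.mul_rpow hr.le (by positivity)]
    exact Real.rpow_le_rpow (abs_nonneg _) hx h0.le
  calc Real.cos φ * |x| ^ l ≤
      Real.cos φ * (‖v‖ ^ l * (Real.sin (θ + φ) / Real.cos φ) ^ l) := by gcongr
    _ = ‖v‖ ^ l * (Real.cos φ ^ (1 - l) * Real.sin (θ + φ) ^ l) := by
      rw [Real.div_rpow hs hc.le, Real.rpow_sub hc, Real.rpow_one]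
      field_simp
    _ ≤ ‖v‖ ^ l * Real.cos (l * θ) := by
      have := trig h0 h1 hθ0 hθ.le
      gcongr

end NV

theorem I_NV (h1 : StAg) : StNV := by
  intro g b p hg hg1 hb hp
  obtain ⟨l, hgl, hl1, hbl⟩ := NV.exists_g1 hg1 hb
  have hl0 : 0 < l := hg.trans_le hgl
  obtain ⟨hder, hnorm, -⟩ := h1 l hl0 hl1
  have hpi := Real.pi_pos
  have hφ : l * Real.pi / 2 < Real.pi / 2 := by nlinarith
  have hφ0 : 0 < l * Real.pi / 2 := by positivity
  set c := Real.cos (l * Real.pi / 2) with hcd
  have hc : 0 < c := Real.cos_pos_of_mem_Ioo ⟨by linarith, by linarith⟩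
  obtain ⟨k, hk⟩ := exists_nat_gt (1 / p)
  have hkp : 1 < (k : ℝ) * p := by
    rw [div_lt_iff₀ hp] at hk
    exact hk
  set a : ℝ := 1 / (p * c) with had
  have ha : 0 < a := by positivity
  set F : ℂ → ℂ := fun z => Complex.exp (-(a : ℂ) * Ag l z) * tF 0 1 k z with hF
  have hexp : ∀ z : ℂ, ‖Complex.exp (-(a : ℂ) * Ag l z)‖ = Real.exp (-(a * (Ag l z).re)) := by
    intro z
    rw [Complex.norm_exp]
    congr 1
    simp
  have hFd : ∀ ζ : ℂ, 0 ≤ ζ.im → DifferentiableAt ℂ F ζ := by
    intro ζ hζ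
    exact ((((hder ζ hζ).differentiableAt).const_mul _).cexp).mul
      (hasDerivAt_tF one_pos k hζ).differentiableAt
  have hFb : ∀ ζ : ℂ, 0 ≤ ζ.im → ‖F ζ‖ ≤ 1 := by
    intro ζ hζ
    rw [hF]
    simp only []
    rw [norm_mul, hexp]
    have h2 : 0 ≤ (Ag l ζ).re := le_trans (by positivity) (hnorm ζ hζ).2
    have h3 : Real.exp (-(a * (Ag l ζ).re)) ≤ 1 := by
      rw [Real.exp_le_one_iff]
      have := mul_nonneg ha.le h2
      linarith
    have h4 := norm_tF_le_one (x0 := 0) (β := 1) one_pos (k := k) hζ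
    exact mul_le_one₀ h3 (norm_nonneg _) h4
  have hpo : ∀ z y : ℝ, 0 < y → poisson (fun t : ℝ => (F t).re) z y = (F (z + y * I)).re :=
    fun z y hy => poisson_re hFd hFb hy
  refine ⟨fun t : ℝ => (F t).re, admissible_re hFd hFb, ?_, ?_⟩
  · -- positivity
    have hFi : F ((0 : ℝ) + (1 : ℝ) * I) =
        ((Real.exp (-(a * (2 : ℝ) ^ l)) * (1 / 2) ^ k : ℝ) : ℂ) := by
      have e1 : Ag l ((0 : ℝ) + (1 : ℝ) * I) = (((2 : ℝ) ^ l : ℝ) : ℂ) := by
        unfold Ag
        rw [Complex.ofReal_cpow (by norm_num)]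
        congr 1
        push_cast
        linear_combination (-1 : ℂ) * I_sq
      have e2 : tF 0 1 k ((0 : ℝ) + (1 : ℝ) * I) = ((1 / 2 : ℝ) ^ k : ℝ) := by
        unfold tF
        push_cast
        congr 1
        have hI : (I : ℂ) ≠ 0 := I_ne_zero
        field_simp
        ring
      rw [hF]
      simp only []
      rw [e1, e2]
      push_cast
      congr 2
      ring
    set m : ℝ := Real.exp (-(a * (2 : ℝ) ^ l)) * (1 / 2) ^ k with hm
    have hm0 : 0 < m := by positivity
    have hnt : ∀ x ∈ Icc (-b) b, ENNReal.ofReal m ≤ ntMax b (fun t : ℝ => (F t).re) x := by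
      intro x hx
      have h2 := le_ntMax (b := b) (x := x) (z := 0) (y := 1) (f := fun t : ℝ => (F t).re)
        one_pos (by rw [sub_zero, mul_one, abs_le]; exact hx)
      rw [hpo 0 1 one_pos, hFi, Complex.ofReal_re, abs_of_pos hm0] at h2
      exact h2
    calc (0 : ℝ≥0∞) < ENNReal.ofReal m ^ p * volume (Icc (-b) b) := by
          refine ENNReal.mul_pos ?_ ?_
          · exact (ENNReal.rpow_pos (ENNReal.ofReal_pos.2 hm0) ENNReal.ofReal_ne_top).ne'
          · rw [Real.volume_Icc]
            exact (ENNReal.ofReal_pos.2 (by linarith)).ne'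
      _ = ∫⁻ _ in Icc (-b) b, ENNReal.ofReal m ^ p := by rw [setLIntegral_const]
      _ ≤ ∫⁻ x in Icc (-b) b, (ntMax b (fun t : ℝ => (F t).re) x) ^ p *
            ENNReal.ofReal (Ug g x) := by
          refine setLIntegral_mono' measurableSet_Icc fun x hx => ?_
          have h2 : (1 : ℝ≥0∞) ≤ ENNReal.ofReal (Ug g x) := by
            rw [← ENNReal.ofReal_one]
            apply ENNReal.ofReal_le_ofReal
            unfold Ug
            rw [← Real.exp_zero]
            exact Real.exp_le_exp.2 (by positivity)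
          calc ENNReal.ofReal m ^ p = ENNReal.ofReal m ^ p * 1 := (mul_one _).symm
            _ ≤ _ := by
              gcongr
              exact hnt x hx
      _ ≤ _ := setLIntegral_le_lintegral _ _
  · -- finiteness
    set K : ℝ := Real.sqrt (1 + b ^ 2) / min 1 b with hK
    have hmin : 0 < min 1 b := lt_min one_pos hb
    have hK0 : 0 < K := by positivity
    have hbound : ∀ x : ℝ, (ntMax b (fun t : ℝ => (F t).re) x) ^ p * ENNReal.ofReal (Ug g x) ≤
        ENNReal.ofReal (Real.exp 1 * K ^ ((k : ℝ) * p) * (1 + ‖x‖) ^ (-((k : ℝ) * p))) := by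
      intro x
      have hx1 : 0 < 1 + |x| := by positivity
      have h2 : ntMax b (fun t : ℝ => (F t).re) x ≤
          ENNReal.ofReal (Real.exp (-(|x| ^ l / p)) * (K / (1 + |x|)) ^ k) := by
        apply ntMax_le
        intro z y hy h
        rw [hpo z y hy]
        refine (Complex.abs_re_le_norm _).trans ?_
        rw [hF]
        simp only []
        rw [norm_mul, hexp, norm_tF one_pos]
        have h3 := NV.key hl0 hl1 hbl hy.le h
        have h4 := cone_den_lower (x0 := 0) (β := 1) hb one_pos hy h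
        have h5 : Real.exp (-(a * (Ag l ((z : ℂ) + (y : ℂ) * I)).re)) ≤
            Real.exp (-(|x| ^ l / p)) := by
          apply Real.exp_le_exp.2
          have h6 : a * (c * |x| ^ l) ≤ a * (Ag l ((z : ℂ) + (y : ℂ) * I)).re :=
            mul_le_mul_of_nonneg_left h3 ha.le
          have h7 : a * (c * |x| ^ l) = |x| ^ l / p := by
            rw [had]
            field_simp
          linarith
        have h8 : 1 / ‖((z : ℂ) + y * I) - (0 : ℝ) + (1 : ℝ) * I‖ ≤ K / (1 + |x|) := by
          have h9 : (1 + |x|) / K ≤ (|x - 0| + b * 1) / Real.sqrt (1 + b ^ 2) := by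
            rw [hK, div_div_eq_mul_div, sub_zero, mul_one]
            gcongr
            have h10 : min 1 b ≤ 1 := min_le_left _ _
            have h11 : min 1 b ≤ b := min_le_right _ _
            have := abs_nonneg x
            nlinarith
          have h12 : 0 < (1 + |x|) / K := by positivity
          calc 1 / ‖((z : ℂ) + y * I) - (0 : ℝ) + (1 : ℝ) * I‖ ≤ 1 / ((1 + |x|) / K) := by
                apply one_div_le_one_div_of_le h12
                exact h9.trans h4
            _ = K / (1 + |x|) := one_div_div _ _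
        gcongr
      have hA : 0 ≤ Real.exp (-(|x| ^ l / p)) * (K / (1 + |x|)) ^ k := by positivity
      calc (ntMax b (fun t : ℝ => (F t).re) x) ^ p * ENNReal.ofReal (Ug g x)
          ≤ (ENNReal.ofReal (Real.exp (-(|x| ^ l / p)) * (K / (1 + |x|)) ^ k)) ^ p *
            ENNReal.ofReal (Ug g x) := by gcongr
        _ = ENNReal.ofReal ((Real.exp (-(|x| ^ l / p)) * (K / (1 + |x|)) ^ k) ^ p * Ug g x) := by
          rw [ENNReal.ofReal_rpow_of_nonneg hA hp.le, ← ENNReal.ofReal_mul (by positivity)]
        _ ≤ _ := by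
          apply ENNReal.ofReal_le_ofReal
          rw [Real.mul_rpow (by positivity) (by positivity), ← Real.exp_mul,
            ← Real.rpow_natCast (K / (1 + |x|)) k, ← Real.rpow_mul (by positivity),
            Real.div_rpow hK0.le hx1.le, Real.rpow_neg (by positivity), Real.norm_eq_abs]
          have h3 : Real.exp (-(|x| ^ l / p) * p) * Ug g x ≤ Real.exp 1 := by
            unfold Ug
            rw [← Real.exp_add]
            apply Real.exp_le_exp.2
            have h4 : -(|x| ^ l / p) * p = -|x| ^ l := by field_simp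
            rw [h4]
            have h5 : |x| ^ g ≤ |x| ^ l + 1 := by
              rcases le_total 1 |x| with h6 | h6
              · have := Real.rpow_le_rpow_of_exponent_le h6 hgl
                linarith
              · have h7 : |x| ^ g ≤ 1 := Real.rpow_le_one (abs_nonneg _) h6 hg.le
                have h8 : 0 ≤ |x| ^ l := by positivity
                linarith
            linarith
          calc Real.exp (-(|x| ^ l / p) * p) *
                (K ^ ((k : ℝ) * p) / (1 + |x|) ^ ((k : ℝ) * p)) * Ug g x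
              = (Real.exp (-(|x| ^ l / p) * p) * Ug g x) *
                (K ^ ((k : ℝ) * p) / (1 + |x|) ^ ((k : ℝ) * p)) := by ring
            _ ≤ Real.exp 1 * (K ^ ((k : ℝ) * p) / (1 + |x|) ^ ((k : ℝ) * p)) := by gcongr
            _ = _ := by
              rw [div_eq_mul_inv]
              ring
    have hint : Integrable (fun x : ℝ =>
        Real.exp 1 * K ^ ((k : ℝ) * p) * (1 + ‖x‖) ^ (-((k : ℝ) * p))) :=
      (integrable_one_add_norm (by simpa using hkp)).const_mul _
    exact (lintegral_mono hbound).trans_lt hint.lintegral_lt_top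

end Pool.Agent.Work.MP_055a27_an.Nv
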