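import Pool.Agent.Work.MP_055a27_an.Nv.Stmts

/-!
# The negative direction: failure of the inequality for `exp (|x| ^ g)`, `max b (tan (g π / 2)) ≤ lam`
-/

set_option autoImplicit false

open MeasureTheory Set Filter Topology Complex Metric ComplexConjugate
open scoped ENNReal NNReal

namespace Pool.Agent.Work.MP_055a27_an.Nv.NegAux

/-! ### The analytic power -/

lemma slit {z : ℂ} (hz : 0 ≤ z.im) : 1 - I * z ∈ slitPlane := by
  left
  simp
  linarith

lemma hda (γ : ℝ) {z : ℂ} (hz : 0 ≤ z.im) :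
    HasDerivAt (Ag γ) (-I * γ * (1 - I * z) ^ ((γ : ℂ) - 1)) z := by
  have h1 : HasDerivAt (fun z : ℂ => 1 - I * z) (-I) z := by
    simpa using (((hasDerivAt_id z).const_mul I).const_sub 1)
  have h2 := h1.cpow_const (c := (γ : ℂ)) (slit hz)
  unfold Ag
  convert! h2 using 1
  ring

lemma re_cpow (w : ℂ) (a : ℝ) : (w ^ (a : ℂ)) =
    ((‖w‖ ^ a : ℝ) : ℂ) * ((Real.cos (arg w * a) : ℝ) + (Real.sin (arg w * a) : ℝ) * I) := by
  rw [Complex.cpow_ofReal]

/-- the real part increases in the directions of the cone -/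
lemma re_dir {γ : ℝ} (h0 : 0 < γ) (h1 : γ < 1) {z : ℂ} (hz : 0 ≤ z.im) {u y : ℝ} (hy : 0 ≤ y)
    (hu : |u| ≤ Real.tan (γ * Real.pi / 2) * y) :
    0 ≤ ((-I * γ * (1 - I * z) ^ ((γ : ℂ) - 1)) * ((u : ℂ) + y * I)).re := by
  have hpi := Real.pi_pos
  have e0 : (1 - I * z) ^ ((γ : ℂ) - 1) = (1 - I * z) ^ (((γ - 1 : ℝ)) : ℂ) := by push_cast; rfl
  rw [e0, re_cpow]
  set w : ℂ := 1 - I * z with hw
  have hwre : 0 ≤ w.re := by rw [hw]; simp; linarith
  have harg : |arg w| ≤ Real.pi / 2 := Complex.abs_arg_le_pi_div_two_iff.2 hwre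
  set α : ℝ := arg w * (γ - 1) with hα
  have hα1 : |α| ≤ Real.pi / 2 - γ * Real.pi / 2 := by
    rw [hα, abs_mul, abs_of_neg (by linarith : γ - 1 < 0)]
    calc |arg w| * -(γ - 1) ≤ Real.pi / 2 * -(γ - 1) := by
          apply mul_le_mul_of_nonneg_right harg; linarith
      _ = _ := by ring
  have hγpi : 0 < γ * Real.pi / 2 := by positivity
  have hγpi2 : γ * Real.pi / 2 < Real.pi / 2 := by nlinarith
  have hcos : Real.sin (γ * Real.pi / 2) ≤ Real.cos α := by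
    rw [← Real.cos_abs α, ← Real.cos_pi_div_two_sub]
    exact Real.cos_le_cos_of_nonneg_of_le_pi (abs_nonneg _) (by linarith) hα1
  have hsin : |Real.sin α| ≤ Real.cos (γ * Real.pi / 2) := by
    rw [← Real.sin_pi_div_two_sub]
    have h2 : |Real.sin α| = Real.sin |α| := by
      rcases le_total 0 α with h | h
      · rw [abs_of_nonneg h, abs_of_nonneg]
        exact Real.sin_nonneg_of_nonneg_of_le_pi h (by rw [abs_of_nonneg h] at hα1; linarith)
      · rw [abs_of_nonpos h, Real.sin_neg, abs_of_nonpos]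
        have := Real.sin_nonneg_of_nonneg_of_le_pi (x := -α) (by linarith)
          (by rw [abs_of_nonpos h] at hα1; linarith)
        rw [Real.sin_neg] at this
        linarith
    rw [h2]
    exact Real.sin_le_sin_of_le_of_le_pi_div_two (by linarith [abs_nonneg α]) (by linarith) hα1
  have hc : 0 < Real.cos (γ * Real.pi / 2) := Real.cos_pos_of_mem_Ioo ⟨by linarith, hγpi2⟩
  have htan : Real.tan (γ * Real.pi / 2) * Real.cos (γ * Real.pi / 2) =
      Real.sin (γ * Real.pi / 2) := Real.tan_mul_cos hc.ne'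
  have e1 : ((-I * γ * (((‖w‖ ^ (γ - 1) : ℝ) : ℂ) *
      ((Real.cos α : ℝ) + (Real.sin α : ℝ) * I))) * ((u : ℂ) + y * I)).re =
      γ * ‖w‖ ^ (γ - 1) * (Real.cos α * y + Real.sin α * u) := by
    simp [Complex.mul_re, Complex.mul_im, -Complex.ofReal_cos, -Complex.ofReal_sin]
    ring
  rw [e1]
  have h3 : 0 ≤ Real.cos α * y + Real.sin α * u := by
    have h4 : |Real.sin α * u| ≤ Real.sin (γ * Real.pi / 2) * y := by
      rw [abs_mul, ← htan]
      calc |Real.sin α| * |u| ≤ Real.cos (γ * Real.pi / 2) *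
            (Real.tan (γ * Real.pi / 2) * y) := by gcongr
        _ = _ := by ring
    have h5 : Real.sin (γ * Real.pi / 2) * y ≤ Real.cos α * y := by gcongr
    have h6 := neg_abs_le (Real.sin α * u)
    linarith
  positivity

lemma re_mono {γ : ℝ} (h0 : 0 < γ) (h1 : γ < 1) {x ξ y : ℝ} (hy : 0 ≤ y)
    (hu : |x - ξ| ≤ Real.tan (γ * Real.pi / 2) * y) :
    (Ag γ x).re ≤ (Ag γ ((ξ : ℂ) + y * I)).re := by
  set v : ℂ := ((ξ - x : ℝ) : ℂ) + y * I with hv
  have hd : ∀ t : ℝ, 0 ≤ t → HasDerivAt (fun t : ℝ => (Ag γ ((x : ℂ) + t * v)).re)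
      (((-I * γ * (1 - I * ((x : ℂ) + t * v)) ^ ((γ : ℂ) - 1)) * v).re) t := by
    intro t ht
    have him : 0 ≤ ((x : ℂ) + t * v).im := by
      simp [hv]
      positivity
    have h2 := hda γ him
    have h3 : HasDerivAt (fun t : ℂ => (x : ℂ) + t * v) v (t : ℂ) := by
      simpa using ((hasDerivAt_id (t : ℂ)).mul_const v).const_add (x : ℂ)
    exact ((h2.comp (t : ℂ) h3).real_of_complex)
  have hmono : MonotoneOn (fun t : ℝ => (Ag γ ((x : ℂ) + t * v)).re) (Icc 0 1) := by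
    apply monotoneOn_of_deriv_nonneg (convex_Icc 0 1)
    · intro t ht
      exact (hd t ht.1).continuousAt.continuousWithinAt
    · intro t ht
      rw [interior_Icc] at ht
      exact (hd t ht.1.le).differentiableAt.differentiableWithinAt
    · intro t ht
      rw [interior_Icc] at ht
      rw [(hd t ht.1.le).deriv]
      have him : 0 ≤ ((x : ℂ) + t * v).im := by
        simp [hv]
        have := ht.1.le
        positivity
      apply re_dir h0 h1 him hy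
      rw [abs_sub_comm]
      exact hu
  have h4 := hmono (left_mem_Icc.2 zero_le_one) (right_mem_Icc.2 zero_le_one) zero_le_one
  simp only [ofReal_zero, zero_mul, add_zero, ofReal_one, one_mul] at h4
  have e : (x : ℂ) + v = (ξ : ℂ) + y * I := by rw [hv]; push_cast; ring
  rw [e] at h4
  exact h4

lemma re_lower {γ : ℝ} (h0 : 0 < γ) (h1 : γ < 1) (x : ℝ) :
    Real.cos (γ * Real.pi / 2) * |x| ^ γ ≤ (Ag γ x).re := by
  have hpi := Real.pi_pos
  unfold Ag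
  rw [Complex.cpow_ofReal_re]
  set w : ℂ := 1 - I * x with hw
  have hwre : 0 ≤ w.re := by rw [hw]; simp
  have harg : |arg w| ≤ Real.pi / 2 := Complex.abs_arg_le_pi_div_two_iff.2 hwre
  have h2 : |x| ≤ ‖w‖ := by
    have := Complex.abs_im_le_norm w
    rwa [hw, show (1 - I * (x : ℂ)).im = -x by simp, abs_neg] at this
  have h3 : Real.cos (γ * Real.pi / 2) ≤ Real.cos (arg w * γ) := by
    rw [← Real.cos_abs (arg w * γ)]
    apply Real.cos_le_cos_of_nonneg_of_le_pi (abs_nonneg _) (by nlinarith)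
    rw [abs_mul, abs_of_pos h0]
    calc |arg w| * γ ≤ Real.pi / 2 * γ := by gcongr
      _ = _ := by ring
  have hc : 0 < Real.cos (γ * Real.pi / 2) :=
    Real.cos_pos_of_mem_Ioo ⟨by nlinarith, by nlinarith⟩
  have hc2 : 0 ≤ Real.cos (arg w * γ) := hc.le.trans h3
  calc Real.cos (γ * Real.pi / 2) * |x| ^ γ ≤ Real.cos (arg w * γ) * ‖w‖ ^ γ := by gcongr
    _ = _ := mul_comm _ _

/-! ### Young's inequality and its converse -/

lemma young {g γ R x : ℝ} (hg : 0 < g) (hgγ : g ≤ γ) (hR : 0 < R) (hx : 0 ≤ x) :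
    x ^ g ≤ g / γ * R ^ (g - γ) * x ^ γ + (1 - g / γ) * R ^ g := by
  have hγ : 0 < γ := lt_of_lt_of_le hg hgγ
  have h1 := rpow_one_add_le_one_add_mul_self (s := (x / R) ^ γ - 1)
    (by have : 0 ≤ (x / R) ^ γ := by positivity
        linarith) (p := g / γ) (by positivity) ((div_le_one hγ).2 hgγ)
  have e1 : (1 + ((x / R) ^ γ - 1)) ^ (g / γ) = (x / R) ^ g := by
    rw [add_sub_cancel, ← Real.rpow_mul (by positivity)]
    congr 1
    field_simp
  rw [e1, Real.div_rpow hx hR.le, Real.div_rpow hx hR.le] at h1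
  have hRg : 0 < R ^ g := by positivity
  have hRγ : 0 < R ^ γ := by positivity
  rw [div_le_iff₀ hRg] at h1
  refine h1.trans (le_of_eq ?_)
  rw [Real.rpow_sub hR]
  field_simp
  ring

lemma young_rev {g γ R s : ℝ} (hg : 0 < g) (hgγ : g ≤ γ) (hγ1 : γ < 1) (hR : 0 < R)
    (hs : 0 ≤ s) :
    g / γ * R ^ (g - γ) * (R * (1 + s)) ^ γ + (1 - g / γ) * R ^ g ≤
      (R * (1 + s)) ^ g + R ^ g * s ^ 2 := by
  have hγ : 0 < γ := lt_of_lt_of_le hg hgγ
  have h1 := rpow_one_add_le_one_add_mul_self (s := s) (by linarith) hγ.le hγ1.le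
  have h2 := rpow_one_add_le_one_add_mul_self (s := s) (by linarith) (p := 1 - g)
    (by linarith) (by linarith)
  have h3 : (1 + s) ^ g * (1 + s) ^ (1 - g) = 1 + s := by
    rw [← Real.rpow_add (by linarith)]
    simp
  have h4 : 1 + g * s - s ^ 2 ≤ (1 + s) ^ g := by
    have h5 : 0 < (1 + s) ^ g := by positivity
    have h6 : 0 < 1 + (1 - g) * s := by nlinarith
    have h7 : 1 + s ≤ (1 + s) ^ g * (1 + (1 - g) * s) := by
      calc 1 + s = (1 + s) ^ g * (1 + s) ^ (1 - g) := h3.symm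
        _ ≤ _ := by gcongr
    have h8 : (1 + g * s - s ^ 2) * (1 + (1 - g) * s) ≤ 1 + s := by
      have e : 1 + s - (1 + g * s - s ^ 2) * (1 + (1 - g) * s) =
          s ^ 2 * (1 - g * (1 - g)) + (1 - g) * s ^ 3 := by ring
      have : 0 ≤ s ^ 2 * (1 - g * (1 - g)) + (1 - g) * s ^ 3 := by
        have : 0 ≤ 1 - g * (1 - g) := by nlinarith
        have : 0 ≤ 1 - g := by linarith
        positivity
      linarith
    exact le_of_mul_le_mul_right (h8.trans h7) h6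
  have hRg : 0 < R ^ g := by positivity
  have hRγ : 0 < R ^ γ := by positivity
  rw [Real.mul_rpow hR.le (by linarith), Real.mul_rpow hR.le (by linarith), Real.rpow_sub hR]
  have e1 : g / γ * (R ^ g / R ^ γ) * (R ^ γ * (1 + s) ^ γ) = g / γ * R ^ g * (1 + s) ^ γ := by
    field_simp
  rw [e1]
  have h9 : g / γ * R ^ g * (1 + s) ^ γ ≤ g / γ * R ^ g * (1 + γ * s) := by gcongr
  have h10 : R ^ g * (1 + g * s - s ^ 2) ≤ R ^ g * (1 + s) ^ g := by gcongr
  have e2 : g / γ * R ^ g * (1 + γ * s) = R ^ g * (g / γ + g * s) := by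
    field_simp
  rw [e2] at h9
  nlinarith

/-! ### The expansion near a boundary point -/

lemma taylor {γ : ℝ} (h0 : 0 < γ) : ∃ C : ℝ, 0 < C ∧ ∀ ζ : ℂ, ‖ζ - 1‖ ≤ 1 / 2 →
    ‖ζ ^ (γ : ℂ) - (1 + γ * (ζ - 1))‖ ≤ C * ‖ζ - 1‖ ^ 2 := by
  have hball : ∀ ζ ∈ closedBall (1 : ℂ) (1 / 2), ζ ∈ slitPlane := by
    intro ζ hζ
    left
    have h1 : ‖ζ - 1‖ ≤ 1 / 2 := by simpa [dist_eq_norm] using hζ
    have h2 := (abs_le.1 ((Complex.abs_re_le_norm (ζ - 1)).trans h1)).1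
    simp at h2
    linarith
  have hd : ∀ (a : ℂ), ∀ ζ ∈ closedBall (1 : ℂ) (1 / 2),
      HasDerivAt (fun ζ : ℂ => ζ ^ a) (a * ζ ^ (a - 1)) ζ := by
    intro a ζ hζ
    simpa using (hasDerivAt_id ζ).cpow_const (c := a) (hball ζ hζ)
  obtain ⟨M, hM⟩ := (isCompact_closedBall (1 : ℂ) (1 / 2)).exists_bound_of_continuousOn
    (f := fun ζ : ℂ => ((γ : ℂ) - 1) * ζ ^ ((γ : ℂ) - 1 - 1)) (by
      intro ζ hζ
      exact ((hd _ ζ hζ).continuousAt.const_mul _).continuousWithinAt)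
  have hM0 : 0 ≤ M := (norm_nonneg _).trans (hM 1 (mem_closedBall_self (by norm_num)))
  have h1 : ∀ ζ ∈ closedBall (1 : ℂ) (1 / 2), ‖ζ ^ ((γ : ℂ) - 1) - 1‖ ≤ M * ‖ζ - 1‖ := by
    intro ζ hζ
    have h := (convex_closedBall (1 : ℂ) (1 / 2)).norm_image_sub_le_of_norm_hasDerivWithin_le
      (f := fun ζ : ℂ => ζ ^ ((γ : ℂ) - 1)) (f' := fun ζ : ℂ => ((γ : ℂ) - 1) *
        ζ ^ ((γ : ℂ) - 1 - 1)) (C := M) (x := 1) (y := ζ)
      (fun v hv => (hd _ v hv).hasDerivWithinAt) hM (mem_closedBall_self (by norm_num)) hζ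
    simpa using h
  refine ⟨γ * M + 1, by positivity, fun ζ hζ => ?_⟩
  set r : ℝ := ‖ζ - 1‖ with hr
  have hsub : closedBall (1 : ℂ) r ⊆ closedBall (1 : ℂ) (1 / 2) := closedBall_subset_closedBall hζ
  have h2 := (convex_closedBall (1 : ℂ) r).norm_image_sub_le_of_norm_hasDerivWithin_le
    (f := fun ζ : ℂ => ζ ^ (γ : ℂ) - (1 + γ * (ζ - 1)))
    (f' := fun ζ : ℂ => (γ : ℂ) * (ζ ^ ((γ : ℂ) - 1) - 1)) (C := γ * M * r) (x := 1) (y := ζ)
    (by
      intro v hv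
      apply HasDerivAt.hasDerivWithinAt
      have h3 := hd (γ : ℂ) v (hsub hv)
      have h4 : HasDerivAt (fun ζ : ℂ => 1 + (γ : ℂ) * (ζ - 1)) (γ : ℂ) v := by
        simpa using (((hasDerivAt_id v).sub_const 1).const_mul (γ : ℂ)).const_add 1
      convert! h3.sub h4 using 1
      ring)
    (by
      intro v hv
      rw [norm_mul, Complex.norm_real, Real.norm_eq_abs, abs_of_pos h0, mul_assoc]
      gcongr
      refine (h1 v (hsub hv)).trans ?_
      gcongr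
      simpa [dist_eq_norm] using hv)
    (mem_closedBall_self (norm_nonneg _)) (by simp [hr, dist_eq_norm])
  simp only [one_cpow, sub_self, mul_zero, add_zero, sub_zero] at h2
  refine h2.trans ?_
  rw [← hr]
  nlinarith [sq_nonneg r]

lemma Ag_eq {γ : ℝ} {x : ℝ} (hx : 0 < x) {z ζ : ℂ} (hζ : ζ = (z + I) / x) (hre : 0 < ζ.re) :
    Ag γ z = ((x ^ γ : ℝ) : ℂ) * (((Real.cos (γ * Real.pi / 2) : ℝ) -
      (Real.sin (γ * Real.pi / 2) : ℝ) * I) * ζ ^ (γ : ℂ)) := by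
  have hpi := Real.pi_pos
  have hx' : (x : ℂ) ≠ 0 := by exact_mod_cast hx.ne'
  have hζ0 : ζ ≠ 0 := by
    rintro h
    rw [h] at hre
    simp at hre
  have hI : -I ≠ 0 := neg_ne_zero.2 I_ne_zero
  have e1 : 1 - I * z = (x : ℂ) * (-I * ζ) := by
    rw [hζ]
    field_simp
    linear_combination Complex.I_sq
  have harg : |arg ζ| < Real.pi / 2 := Complex.abs_arg_lt_pi_div_two_iff.2 (Or.inl hre)
  have h1 : log (-I * ζ) = log (-I) + log ζ := by
    apply Complex.log_mul hI hζ0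
    rw [Complex.arg_neg_I]
    have := abs_lt.1 harg
    constructor <;> linarith
  unfold Ag
  rw [e1, cpow_def_of_ne_zero (mul_ne_zero hx' (mul_ne_zero hI hζ0)),
    Complex.log_ofReal_mul hx (mul_ne_zero hI hζ0), h1, add_mul, add_mul, Complex.exp_add,
    Complex.exp_add, ← cpow_def_of_ne_zero hI, ← cpow_def_of_ne_zero hζ0]
  have e2 : Complex.exp ((Real.log x : ℂ) * γ) = ((x ^ γ : ℝ) : ℂ) := by
    rw [Real.rpow_def_of_pos hx]
    push_cast
    rfl
  rw [e2, re_cpow (-I), norm_neg, norm_I, Real.one_rpow, Complex.arg_neg_I]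
  have e3 : -(Real.pi / 2) * γ = -(γ * Real.pi / 2) := by ring
  rw [e3, Real.cos_neg, Real.sin_neg]
  push_cast
  ring

lemma ray_upper {γ : ℝ} (h0 : 0 < γ) (h1 : γ < 1) {C : ℝ}
    (hC : ∀ ζ : ℂ, ‖ζ - 1‖ ≤ 1 / 2 → ‖ζ ^ (γ : ℂ) - (1 + γ * (ζ - 1))‖ ≤ C * ‖ζ - 1‖ ^ 2)
    (hC0 : 0 < C) {L x t s : ℝ} (hL : L = Real.tan (γ * Real.pi / 2)) (hL0 : 0 < L) (hx : 0 < x)
    (ht : 0 ≤ t) (hs : 0 ≤ s) (hsm : (s + 1 + (L + 1) * t) / x ≤ 1 / 2) :
    (Ag γ (((x - L * t + s : ℝ) : ℂ) + t * I)).re ≤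
      x ^ γ * (Real.cos (γ * Real.pi / 2) + (s + 1) / x +
        C * ((s + 1 + (L + 1) * t) / x) ^ 2) := by
  have hpi := Real.pi_pos
  have hγpi : 0 < γ * Real.pi / 2 := by positivity
  have hγpi2 : γ * Real.pi / 2 < Real.pi / 2 := by nlinarith
  have hc : 0 < Real.cos (γ * Real.pi / 2) := Real.cos_pos_of_mem_Ioo ⟨by linarith, hγpi2⟩
  have hLc : L * Real.cos (γ * Real.pi / 2) = Real.sin (γ * Real.pi / 2) := by
    rw [hL]; exact Real.tan_mul_cos hc.ne'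
  set cc : ℝ := Real.cos (γ * Real.pi / 2) with hcc
  set ss : ℝ := Real.sin (γ * Real.pi / 2) with hss
  have hcs : cc ^ 2 + ss ^ 2 = 1 := Real.cos_sq_add_sin_sq _
  have hc1 : cc ≤ 1 := Real.cos_le_one _
  have hs1 : ss ≤ 1 := Real.sin_le_one _
  have hx' : (x : ℂ) ≠ 0 := by exact_mod_cast hx.ne'
  set z : ℂ := ((x - L * t + s : ℝ) : ℂ) + t * I with hz
  set ζ : ℂ := (z + I) / x with hζ
  have e1 : ζ - 1 = (((s - L * t) / x : ℝ) : ℂ) + (((t + 1) / x : ℝ) : ℂ) * I := by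
    rw [hζ, hz]
    push_cast
    field_simp
    ring
  have hn : ‖ζ - 1‖ ≤ (s + 1 + (L + 1) * t) / x := by
    rw [e1]
    refine (norm_add_le _ _).trans ?_
    rw [norm_mul, norm_I, mul_one, Complex.norm_real, Complex.norm_real, Real.norm_eq_abs,
      Real.norm_eq_abs, abs_div, abs_div, abs_of_pos hx, abs_of_nonneg (by linarith : 0 ≤ t + 1),
      ← add_div]
    apply div_le_div_of_nonneg_right _ hx.le
    have : |s - L * t| ≤ s + L * t := by
      rw [abs_le]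
      constructor <;> nlinarith [mul_nonneg hL0.le ht]
    linarith
  have hn2 : ‖ζ - 1‖ ≤ 1 / 2 := hn.trans hsm
  have hre : 0 < ζ.re := by
    have h2 := (abs_le.1 ((Complex.abs_re_le_norm (ζ - 1)).trans hn2)).1
    simp only [sub_re, one_re] at h2
    linarith
  rw [Ag_eq hx hζ hre, Complex.re_ofReal_mul]
  apply mul_le_mul_of_nonneg_left _ (by positivity)
  have h3 := hC ζ hn2
  set e : ℂ := (cc : ℂ) - (ss : ℂ) * I with he
  have hen : ‖e‖ = 1 := by
    have : ‖e‖ ^ 2 = 1 := by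
      rw [← Complex.normSq_eq_norm_sq, Complex.normSq_apply, he]
      simp
      nlinarith
    nlinarith [norm_nonneg e]
  have e2 : e * ζ ^ (γ : ℂ) = e * (1 + γ * (ζ - 1)) + e * (ζ ^ (γ : ℂ) - (1 + γ * (ζ - 1))) := by
    ring
  rw [e2, add_re]
  have h4 : (e * (ζ ^ (γ : ℂ) - (1 + γ * (ζ - 1)))).re ≤ C * ((s + 1 + (L + 1) * t) / x) ^ 2 := by
    refine (Complex.re_le_norm _).trans ?_
    rw [norm_mul, hen, one_mul]
    refine h3.trans ?_
    gcongr
  have h5 : (e * (1 + γ * (ζ - 1))).re ≤ cc + (s + 1) / x := by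
    have e3 : (e * (1 + γ * (ζ - 1))).re = cc + γ / x * (cc * s + ss) := by
      rw [e1, he]
      simp only [mul_re, sub_re, ofReal_re, ofReal_im, I_re, I_im, add_re, one_re, sub_im, mul_im,
        add_im, one_im]
      field_simp
      rw [← hLc]
      ring
    rw [e3]
    have h6 : γ / x * (cc * s + ss) ≤ 1 / x * (1 * s + 1) := by
      have : 0 ≤ cc * s + ss := by
        have : 0 ≤ ss := by rw [← hLc]; positivity
        positivity
      gcongr
    calc cc + γ / x * (cc * s + ss) ≤ cc + 1 / x * (1 * s + 1) := by linarith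
      _ = cc + (s + 1) / x := by ring
  linarith

/-! ### The test function -/

/-- the exponential factor -/
noncomputable def HF (γ p a d : ℝ) (z : ℂ) : ℂ :=
  Complex.exp (-((1 / p : ℝ) : ℂ) * (a * Ag γ z + d))

/-- the test function -/
noncomputable def FF (γ p a d R β : ℝ) (k : ℕ) (z : ℂ) : ℂ := HF γ p a d z * tF R β k z

lemma norm_HF (γ p a d : ℝ) (z : ℂ) :
    ‖HF γ p a d z‖ = Real.exp (-(1 / p) * (a * (Ag γ z).re + d)) := by
  unfold HF
  rw [Complex.norm_exp, ← Complex.ofReal_neg, Complex.re_ofReal_mul, add_re,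
    Complex.re_ofReal_mul, Complex.ofReal_re]

lemma hda_FF (γ p a d : ℝ) {R β : ℝ} (hβ : 0 < β) (k : ℕ) {z : ℂ} (hz : 0 ≤ z.im) :
    HasDerivAt (FF γ p a d R β k)
      (FF γ p a d R β k z * (-((1 / p : ℝ) : ℂ) * (a * (-I * γ * (1 - I * z) ^ ((γ : ℂ) - 1))) +
        -(k : ℂ) / (z - R + β * I))) z := by
  have h1 : HasDerivAt (fun z : ℂ => -((1 / p : ℝ) : ℂ) * (a * Ag γ z + d))
      (-((1 / p : ℝ) : ℂ) * (a * (-I * γ * (1 - I * z) ^ ((γ : ℂ) - 1)))) z :=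
    (((hda γ hz).const_mul (a : ℂ)).add_const (d : ℂ)).const_mul _
  have h2 := h1.cexp
  have h3 := h2.mul (hasDerivAt_tF (x0 := R) hβ k hz)
  unfold FF HF
  convert! h3 using 1
  ring

lemma FF_bd {g γ p R β a d : ℝ} {k : ℕ} (hg : 0 < g) (hgγ : g ≤ γ) (hγ1 : γ < 1)
    (hp : 0 < p) (hR : 0 < R) (hβ : 0 < β)
    (ha : a = g / γ * R ^ (g - γ) / Real.cos (γ * Real.pi / 2)) (hd : d = (1 - g / γ) * R ^ g) :
    ∀ ζ : ℂ, 0 ≤ ζ.im → ‖FF γ p a d R β k ζ‖ ≤ 1 := by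
  have hpi := Real.pi_pos
  have hγ : 0 < γ := lt_of_lt_of_le hg hgγ
  have hc : 0 < Real.cos (γ * Real.pi / 2) :=
    Real.cos_pos_of_mem_Ioo ⟨by nlinarith, by nlinarith⟩
  have ha0 : 0 < a := by rw [ha]; positivity
  intro ζ hζ
  have hE0 : ‖HF γ p a d ζ‖ ≤ 1 := by
    rw [norm_HF, Real.exp_le_one_iff]
    have h1 := re_lower hγ hγ1 ζ.re
    have h2 := re_mono hγ hγ1 (x := ζ.re) (ξ := ζ.re) hζ (by
      rw [sub_self, abs_zero]
      apply mul_nonneg _ hζ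
      exact (Real.tan_pos_of_pos_of_lt_pi_div_two (by positivity) (by nlinarith)).le)
    rw [Complex.re_add_im] at h2
    have h3 : 0 ≤ d := by
      rw [hd]
      have : g / γ ≤ 1 := (div_le_one hγ).2 hgγ
      have : 0 ≤ 1 - g / γ := by linarith
      positivity
    have h4 : 0 ≤ (Ag γ ζ).re := le_trans (by positivity) (h1.trans h2)
    have : 0 ≤ 1 / p * (a * (Ag γ ζ).re + d) := by positivity
    linarith
  unfold FF
  rw [norm_mul]
  exact mul_le_one₀ hE0 (norm_nonneg _) (norm_tF_le_one hβ hζ)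

/-- the upper bound: the maximal function of the test function -/
lemma upper_pt {g γ p b R β a d : ℝ} {k : ℕ} (hg : 0 < g) (hgγ : g ≤ γ) (hγ1 : γ < 1)
    (hp : 0 < p) (hb : 0 < b) (hbL : b ≤ Real.tan (γ * Real.pi / 2)) (hR : 0 < R) (hβ : 0 < β)
    (ha : a = g / γ * R ^ (g - γ) / Real.cos (γ * Real.pi / 2)) (hd : d = (1 - g / γ) * R ^ g)
    (hkp : 2 ≤ (k : ℝ) * p) (x : ℝ) :
    (ntMax b (fun t : ℝ => (FF γ p a d R β k t).re) x) ^ p * ENNReal.ofReal (Ug g x) ≤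
      ENNReal.ofReal ((((Real.sqrt (1 + b ^ 2) / min 1 b) ^ k) ^ p) *
        (β ^ 2 * (1 / ((R - x) ^ 2 + β ^ 2)))) := by
  have hpi := Real.pi_pos
  have hγ : 0 < γ := lt_of_lt_of_le hg hgγ
  have hc : 0 < Real.cos (γ * Real.pi / 2) :=
    Real.cos_pos_of_mem_Ioo ⟨by nlinarith, by nlinarith⟩
  have ha0 : 0 < a := by rw [ha]; positivity
  have hEx : ∀ ξ y : ℝ, 0 ≤ y → |x - ξ| ≤ b * y →
      |x| ^ g ≤ a * (Ag γ ((ξ : ℂ) + y * I)).re + d := by
    intro ξ y hy hξ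
    have h1 := re_mono hγ hγ1 hy (hξ.trans (mul_le_mul_of_nonneg_right hbL hy))
    have h2 := re_lower hγ hγ1 x
    have h3 := young hg hgγ hR (abs_nonneg x)
    have h4 : g / γ * R ^ (g - γ) * |x| ^ γ = a * (Real.cos (γ * Real.pi / 2) * |x| ^ γ) := by
      rw [ha]; field_simp
    calc |x| ^ g ≤ a * (Real.cos (γ * Real.pi / 2) * |x| ^ γ) + d := by rw [← h4, hd]; exact h3
      _ ≤ a * (Ag γ ((ξ : ℂ) + y * I)).re + d := by
        gcongr
        exact h2.trans h1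
  have hbd := FF_bd (k := k) (R := R) hg hgγ hγ1 hp hR hβ ha hd
  set m : ℝ := min 1 b with hm
  have hm0 : 0 < m := lt_min one_pos hb
  set A : ℝ := Real.sqrt (1 + b ^ 2) / m with hA
  have hA0 : 0 < A := by positivity
  set q : ℝ := β / (|x - R| + β) with hq
  have hq0 : 0 < q := by positivity
  have hq1 : q ≤ 1 := by
    rw [hq, div_le_one (by positivity)]
    linarith [abs_nonneg (x - R)]
  have h5 : ntMax b (fun t : ℝ => (FF γ p a d R β k t).re) x ≤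
      ENNReal.ofReal (Real.exp (-(1 / p) * |x| ^ g) * (A * q) ^ k) := by
    apply ntMax_le
    intro z y hy hz
    rw [poisson_re (M := 1) (fun ζ hζ => (hda_FF γ p a d hβ k hζ).differentiableAt) hbd hy]
    refine (Complex.abs_re_le_norm _).trans ?_
    unfold FF
    rw [norm_mul]
    have him : 0 ≤ ((z : ℂ) + y * I).im := by simp; exact hy.le
    have h6 : ‖HF γ p a d ((z : ℂ) + y * I)‖ ≤ Real.exp (-(1 / p) * |x| ^ g) := by
      rw [norm_HF, Real.exp_le_exp]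
      have h7 := hEx z y hy.le hz
      have h8 : 0 < 1 / p := by positivity
      nlinarith
    have h9 : ‖tF R β k ((z : ℂ) + y * I)‖ ≤ (A * q) ^ k := by
      rw [norm_tF hβ]
      apply pow_le_pow_left₀ (by positivity)
      have h10 := cone_den_lower (x0 := R) hb hβ hy hz
      have h11 : 0 < (|x - R| + b * β) / Real.sqrt (1 + b ^ 2) := by positivity
      have h12 : m * (|x - R| + β) ≤ |x - R| + b * β := by
        have h13 : m ≤ 1 := min_le_left _ _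
        have h14 : m ≤ b := min_le_right _ _
        have := abs_nonneg (x - R)
        nlinarith
      calc β / ‖((z : ℂ) + y * I) - R + β * I‖
          ≤ β / ((|x - R| + b * β) / Real.sqrt (1 + b ^ 2)) := by gcongr
        _ ≤ β / ((m * (|x - R| + β)) / Real.sqrt (1 + b ^ 2)) := by gcongr
        _ = A * q := by rw [hA, hq]; field_simp
    gcongr
  have h15 : (q ^ k) ^ p ≤ β ^ 2 * (1 / ((R - x) ^ 2 + β ^ 2)) := by
    have h16 : (q ^ k) ^ p = q ^ ((k : ℝ) * p) := by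
      rw [Real.rpow_mul hq0.le, Real.rpow_natCast]
    rw [h16]
    calc q ^ ((k : ℝ) * p) ≤ q ^ (2 : ℝ) := Real.rpow_le_rpow_of_exponent_ge hq0 hq1 hkp
      _ = q ^ 2 := Real.rpow_two q
      _ ≤ _ := by
        rw [hq, div_pow, mul_one_div]
        gcongr
        have : (R - x) ^ 2 = |x - R| ^ 2 := by rw [sq_abs]; ring
        rw [this]
        have := abs_nonneg (x - R)
        nlinarith
  calc (ntMax b (fun t : ℝ => (FF γ p a d R β k t).re) x) ^ p * ENNReal.ofReal (Ug g x)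
      ≤ (ENNReal.ofReal (Real.exp (-(1 / p) * |x| ^ g) * (A * q) ^ k)) ^ p *
        ENNReal.ofReal (Ug g x) := by gcongr
    _ = ENNReal.ofReal ((A ^ k) ^ p * (q ^ k) ^ p) := by
        rw [ENNReal.ofReal_rpow_of_nonneg (by positivity) hp.le,
          ← ENNReal.ofReal_mul (by positivity)]
        congr 1
        unfold Ug
        rw [Real.mul_rpow (by positivity) (by positivity), ← Real.exp_mul, mul_pow,
          Real.mul_rpow (by positivity) (by positivity)]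
        have e : -(1 / p) * |x| ^ g * p = -|x| ^ g := by field_simp
        rw [e, Real.exp_neg]
        have := Real.exp_pos (|x| ^ g)
        field_simp
    _ ≤ _ := by
        apply ENNReal.ofReal_le_ofReal
        gcongr

lemma upper_int {A R β : ℝ} (hA : 0 ≤ A) (hβ : 0 < β) :
    ∫⁻ x : ℝ, ENNReal.ofReal (A * (β ^ 2 * (1 / ((R - x) ^ 2 + β ^ 2)))) =
      ENNReal.ofReal (A * Real.pi * β) := by
  have h1 : Integrable (fun x : ℝ => A * (β ^ 2 * (1 / ((R - x) ^ 2 + β ^ 2)))) volume :=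
    ((integrable_kernel (z := R) hβ).const_mul _).const_mul _
  rw [← ofReal_integral_eq_lintegral_ofReal h1 (Eventually.of_forall fun x => by positivity),
    integral_const_mul, integral_const_mul, integral_kernel hβ]
  congr 1
  field_simp

/-! ### The lower bound for the area function -/

/-- the parameters of the lower bound -/
structure Par (g γ L R ρ : ℝ) : Prop where
  hg : 0 < g
  hgγ : g ≤ γ
  hγ1 : γ < 1
  hL : L = Real.tan (γ * Real.pi / 2)
  hL0 : 0 < L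
  hR : 1 ≤ R
  hρ : ρ = R ^ (g / 2)
  hρL : 2 * (L + 3) ≤ ρ

lemma Par.facts {g γ L R ρ : ℝ} (h : Par g γ L R ρ) :
    0 < γ ∧ 0 < Real.cos (γ * Real.pi / 2) ∧ 1 ≤ ρ ∧ R ^ g = ρ ^ 2 ∧ ρ ^ 2 ≤ R ∧
      1 ≤ R / ρ ^ 2 ∧ R / ρ ^ 2 ≤ R / ρ ∧ R / ρ ≤ R := by
  have hpi := Real.pi_pos
  have hγ : 0 < γ := lt_of_lt_of_le h.hg h.hgγ
  have hR0 : 0 < R := lt_of_lt_of_le one_pos h.hR
  have h1 : 1 ≤ ρ := by linarith [h.hρL, h.hL0]
  have h0 : 0 < ρ := by linarith
  have h2 : R ^ g = ρ ^ 2 := by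
    rw [h.hρ, ← Real.rpow_natCast, ← Real.rpow_mul hR0.le]
    congr 1
    push_cast
    ring
  have h3 : ρ ^ 2 ≤ R := by
    rw [← h2]
    calc R ^ g ≤ R ^ (1 : ℝ) := Real.rpow_le_rpow_of_exponent_le h.hR (h.hgγ.trans h.hγ1.le)
      _ = R := Real.rpow_one R
  refine ⟨hγ, Real.cos_pos_of_mem_Ioo ⟨by nlinarith, by nlinarith [h.hγ1]⟩, h1, h2, h3, ?_, ?_, ?_⟩
  · rw [le_div_iff₀ (by positivity)]; linarith
  · apply div_le_div_of_nonneg_left hR0.le h0
    nlinarith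
  · exact div_le_self hR0.le h1

lemma lower_E {g γ L R ρ a d C x t s : ℝ} (h : Par g γ L R ρ)
    (hC : ∀ ζ : ℂ, ‖ζ - 1‖ ≤ 1 / 2 → ‖ζ ^ (γ : ℂ) - (1 + γ * (ζ - 1))‖ ≤ C * ‖ζ - 1‖ ^ 2)
    (hC0 : 0 < C)
    (ha : a = g / γ * R ^ (g - γ) / Real.cos (γ * Real.pi / 2)) (hd : d = (1 - g / γ) * R ^ g)
    (hx : R ≤ x) (hx2 : x ≤ R + R / ρ) (ht : 0 ≤ t) (ht2 : t ≤ R / ρ) (hs : 0 ≤ s)
    (hs2 : s ≤ R / ρ ^ 2) :
    a * (Ag γ (((x - L * t + s : ℝ) : ℂ) + t * I)).re + d ≤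
      x ^ g + (1 + 2 / Real.cos (γ * Real.pi / 2) * (2 + C * (L + 3) ^ 2)) := by
  obtain ⟨hγ, hc, hρ1, hRg, hρR, hR1, hR2, hR3⟩ := h.facts
  have hg := h.hg
  have hL0 := h.hL0
  have hR0 : 0 < R := lt_of_lt_of_le one_pos h.hR
  have hρ0 : 0 < ρ := by linarith
  have hx0 : 0 < x := by linarith
  set c : ℝ := Real.cos (γ * Real.pi / 2) with hcdef
  have ha0 : 0 < a := by rw [ha]; positivity
  have h1 : (s + 1 + (L + 1) * t) / x ≤ (L + 3) / ρ := by
    rw [div_le_div_iff₀ hx0 hρ0]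
    have h2 : s + 1 + (L + 1) * t ≤ (L + 3) * (R / ρ) := by
      have : (L + 1) * t ≤ (L + 1) * (R / ρ) := by gcongr
      linarith
    calc (s + 1 + (L + 1) * t) * ρ ≤ (L + 3) * (R / ρ) * ρ := by gcongr
      _ = (L + 3) * R := by field_simp
      _ ≤ (L + 3) * x := by gcongr
  have h2 : (s + 1 + (L + 1) * t) / x ≤ 1 / 2 := by
    refine h1.trans ?_
    rw [div_le_div_iff₀ hρ0 (by norm_num)]
    linarith [h.hρL]
  have h3 := ray_upper hγ h.hγ1 hC hC0 h.hL hL0 hx0 ht hs h2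
  have h4 : (s + 1) / x ≤ 2 / ρ ^ 2 := by
    rw [div_le_div_iff₀ hx0 (by positivity)]
    calc (s + 1) * ρ ^ 2 ≤ (R / ρ ^ 2 + R / ρ ^ 2) * ρ ^ 2 := by gcongr
      _ = 2 * R := by field_simp; norm_num
      _ ≤ 2 * x := by gcongr
  have h5 : C * ((s + 1 + (L + 1) * t) / x) ^ 2 ≤ C * ((L + 3) / ρ) ^ 2 := by gcongr
  have h6 : a * (Ag γ (((x - L * t + s : ℝ) : ℂ) + t * I)).re ≤
      a * (x ^ γ * (c + 2 / ρ ^ 2 + C * ((L + 3) / ρ) ^ 2)) := by
    apply mul_le_mul_of_nonneg_left _ ha0.le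
    refine h3.trans ?_
    apply mul_le_mul_of_nonneg_left _ (by positivity)
    linarith
  have h7 : a * x ^ γ * c + d ≤ x ^ g + 1 := by
    have h8 := young_rev (s := (x - R) / R) hg h.hgγ h.hγ1 hR0 (div_nonneg (by linarith) hR0.le)
    have e1 : R * (1 + (x - R) / R) = x := by field_simp; ring
    rw [e1] at h8
    have e2 : a * x ^ γ * c = g / γ * R ^ (g - γ) * x ^ γ := by rw [ha]; field_simp
    have h9 : R ^ g * ((x - R) / R) ^ 2 ≤ 1 := by
      rw [hRg, ← mul_pow]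
      apply pow_le_one₀
      · apply mul_nonneg hρ0.le (div_nonneg (by linarith) hR0.le)
      · calc ρ * ((x - R) / R) ≤ ρ * ((R / ρ) / R) := by gcongr; linarith
          _ = 1 := by field_simp
    rw [e2, hd]
    linarith
  have h10 : a * x ^ γ ≤ 2 * ρ ^ 2 / c := by
    have h11 : x ^ γ ≤ 2 * R ^ γ := by
      calc x ^ γ ≤ (2 * R) ^ γ := by
            apply Real.rpow_le_rpow hx0.le (by linarith) hγ.le
        _ = 2 ^ γ * R ^ γ := Real.mul_rpow (by norm_num) hR0.le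
        _ ≤ 2 ^ (1 : ℝ) * R ^ γ := by
            gcongr
            · norm_num
            · exact h.hγ1.le
        _ = 2 * R ^ γ := by rw [Real.rpow_one]
    have h12 : g / γ ≤ 1 := (div_le_one hγ).2 h.hgγ
    calc a * x ^ γ ≤ (1 * R ^ (g - γ) / c) * (2 * R ^ γ) := by
          rw [ha]
          gcongr
      _ = 2 * R ^ g / c := by
          rw [Real.rpow_sub hR0]
          field_simp
      _ = 2 * ρ ^ 2 / c := by rw [hRg]
  have h13 : a * x ^ γ * (2 / ρ ^ 2 + C * ((L + 3) / ρ) ^ 2) ≤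
      2 / c * (2 + C * (L + 3) ^ 2) := by
    calc a * x ^ γ * (2 / ρ ^ 2 + C * ((L + 3) / ρ) ^ 2) ≤
          2 * ρ ^ 2 / c * (2 / ρ ^ 2 + C * ((L + 3) / ρ) ^ 2) := by gcongr
      _ = _ := by field_simp
  have e3 : a * (x ^ γ * (c + 2 / ρ ^ 2 + C * ((L + 3) / ρ) ^ 2)) =
      a * x ^ γ * c + a * x ^ γ * (2 / ρ ^ 2 + C * ((L + 3) / ρ) ^ 2) := by ring
  linarith

lemma lower_grad {g γ L R ρ a d C p x t s : ℝ} {k : ℕ} (h : Par g γ L R ρ)
    (hp : 0 < p)
    (hC : ∀ ζ : ℂ, ‖ζ - 1‖ ≤ 1 / 2 → ‖ζ ^ (γ : ℂ) - (1 + γ * (ζ - 1))‖ ≤ C * ‖ζ - 1‖ ^ 2)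
    (hC0 : 0 < C)
    (ha : a = g / γ * R ^ (g - γ) / Real.cos (γ * Real.pi / 2)) (hd : d = (1 - g / γ) * R ^ g)
    {κ : ℝ} (hκ : κ = g / (6 * p * Real.cos (γ * Real.pi / 2))) (hk : (k : ℝ) ≤ κ * ρ)
    {K : ℝ} (hK : K = 1 + 2 / Real.cos (γ * Real.pi / 2) * (2 + C * (L + 3) ^ 2))
    (hx : R ≤ x) (hx2 : x ≤ R + R / ρ) (ht : 0 < t) (ht2 : t ≤ R / ρ) (hs : 0 ≤ s)
    (hs2 : s ≤ R / ρ ^ 2)
    (hP : ∀ z y : ℝ, 0 < y → poisson (fun t : ℝ => (FF γ p a d R (R / ρ) k t).re) z y =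
      (FF γ p a d R (R / ρ) k (z + y * I)).re) :
    (Real.exp (-(1 / p) * (x ^ g + K)) * (1 / (L + 4)) ^ k * (κ * ρ ^ 2 / R)) ^ 2 ≤
      gradSq (fun t : ℝ => (FF γ p a d R (R / ρ) k t).re) (x - L * t + s) t := by
  obtain ⟨hγ, hc, hρ1, hRg, hρR, hR1, hR2, hR3⟩ := h.facts
  have hg := h.hg
  have hL0 := h.hL0
  have hR0 : 0 < R := lt_of_lt_of_le one_pos h.hR
  have hρ0 : 0 < ρ := by linarith
  have hx0 : 0 < x := by linarith
  have hβ : 0 < R / ρ := by positivity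
  have hE := lower_E h hC hC0 ha hd hx hx2 ht.le ht2 hs hs2
  rw [← hK] at hE
  set c : ℝ := Real.cos (γ * Real.pi / 2) with hcdef
  have ha0 : 0 < a := by rw [ha]; positivity
  have hκ0 : 0 < κ := by rw [hκ]; positivity
  set z : ℂ := ((x - L * t + s : ℝ) : ℂ) + t * I with hz
  have him : 0 ≤ z.im := by rw [hz]; simp; exact ht.le
  rw [gradSq_of_re ht (hda_FF γ p a d hβ k him) hP]
  have hden0 : R / ρ ≤ ‖z - R + ((R / ρ : ℝ) : ℂ) * I‖ := le_norm_den hβ him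
  have hLt : 0 ≤ L * t := by positivity
  have hLt2 : L * t ≤ L * (R / ρ) := by gcongr
  have habs : ∀ r : ℝ, r = x - L * t + s → |r - R| ≤ (L + 2) * (R / ρ) := by
    intro r hr
    rw [hr, abs_le]
    constructor <;> nlinarith
  have hden1 : ‖z - R + ((R / ρ : ℝ) : ℂ) * I‖ ≤ (L + 4) * (R / ρ) := by
    have e1 : z - R + ((R / ρ : ℝ) : ℂ) * I =
        ((x - L * t + s - R : ℝ) : ℂ) + ((t + R / ρ : ℝ) : ℂ) * I := by
      rw [hz]; push_cast; ring
    rw [e1]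
    refine (norm_add_le _ _).trans ?_
    rw [norm_mul, norm_I, mul_one, Complex.norm_real, Complex.norm_real, Real.norm_eq_abs,
      Real.norm_eq_abs, abs_of_pos (by linarith : 0 < t + R / ρ)]
    have := habs _ rfl
    linarith
  have hw : ‖1 - I * z‖ ≤ 3 * R := by
    have e1 : 1 - I * z = ((1 + t : ℝ) : ℂ) - ((x - L * t + s : ℝ) : ℂ) * I := by
      rw [hz]
      push_cast
      linear_combination -(t : ℂ) * Complex.I_sq
    rw [e1]
    refine (norm_sub_le _ _).trans ?_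
    rw [norm_mul, norm_I, mul_one, Complex.norm_real, Complex.norm_real, Real.norm_eq_abs,
      Real.norm_eq_abs, abs_of_pos (by linarith : 0 < 1 + t)]
    have h1 : |x - L * t + s| ≤ x + L * t + s := by
      rw [abs_le]
      constructor <;> linarith
    have h2 : (L + 3) * (R / ρ) ≤ R / 2 := by
      rw [mul_div_assoc', div_le_div_iff₀ hρ0 (by norm_num)]
      nlinarith [h.hρL]
    nlinarith
  have hw0 : 0 < ‖1 - I * z‖ := by
    have h1 := Complex.abs_re_le_norm (1 - I * z)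
    have h2 : (1 - I * z).re = 1 + t := by rw [hz]; simp
    rw [h2, abs_of_pos (by linarith)] at h1
    linarith
  -- the exponential factor
  have h1 : Real.exp (-(1 / p) * (x ^ g + K)) ≤ ‖HF γ p a d z‖ := by
    rw [norm_HF, Real.exp_le_exp]
    have : 0 < 1 / p := by positivity
    nlinarith
  -- the power factor
  have h2 : (1 / (L + 4)) ^ k ≤ ‖tF R (R / ρ) k z‖ := by
    rw [norm_tF hβ]
    apply pow_le_pow_left₀ (by positivity)
    rw [div_le_div_iff₀ (by positivity) (by linarith)]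
    linarith
  -- the logarithmic derivative
  have h3 : κ * ρ ^ 2 / R ≤ ‖-((1 / p : ℝ) : ℂ) * (a * (-I * γ * (1 - I * z) ^ ((γ : ℂ) - 1))) +
        -(k : ℂ) / (z - R + ((R / ρ : ℝ) : ℂ) * I)‖ := by
    have e0 : (1 - I * z) ^ ((γ : ℂ) - 1) = (1 - I * z) ^ (((γ - 1 : ℝ)) : ℂ) := by
      push_cast; rfl
    have h4 : ‖-((1 / p : ℝ) : ℂ) * (a * (-I * γ * (1 - I * z) ^ ((γ : ℂ) - 1)))‖ =
        1 / p * a * γ * ‖1 - I * z‖ ^ (γ - 1) := by
      have hne : 1 - I * z ≠ 0 := norm_pos_iff.1 hw0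
      rw [e0, norm_mul, norm_neg, norm_mul, norm_mul, norm_mul, norm_neg, norm_I,
        Complex.norm_real, Complex.norm_real, Complex.norm_real, Real.norm_eq_abs,
        Real.norm_eq_abs, Real.norm_eq_abs, abs_of_pos (by positivity : 0 < 1 / p),
        abs_of_pos ha0, abs_of_pos hγ, Complex.norm_cpow_real]
      ring
    have h5 : ‖-(k : ℂ) / (z - R + ((R / ρ : ℝ) : ℂ) * I)‖ ≤ κ * ρ ^ 2 / R := by
      rw [norm_div, norm_neg, Complex.norm_natCast]
      calc (k : ℝ) / ‖z - R + ((R / ρ : ℝ) : ℂ) * I‖ ≤ (κ * ρ) / (R / ρ) := by gcongr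
        _ = κ * ρ ^ 2 / R := by field_simp
    have h6 : 2 * (κ * ρ ^ 2 / R) ≤ 1 / p * a * γ * ‖1 - I * z‖ ^ (γ - 1) := by
      have h7 : (3 * R) ^ (γ - 1) ≤ ‖1 - I * z‖ ^ (γ - 1) :=
        Real.rpow_le_rpow_of_nonpos hw0 hw (by linarith [h.hγ1])
      have h8 : (3 : ℝ) ^ (-1 : ℝ) ≤ 3 ^ (γ - 1) :=
        Real.rpow_le_rpow_of_exponent_le (by norm_num) (by linarith)
      have h9 : 1 / 3 * R ^ (γ - 1) ≤ (3 * R) ^ (γ - 1) := by
        rw [Real.mul_rpow (by norm_num) hR0.le]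
        gcongr
        rw [Real.rpow_neg_one] at h8
        linarith
      have e2 : R ^ (g - γ) * R ^ (γ - 1) = ρ ^ 2 / R := by
        rw [← Real.rpow_add hR0]
        have : g - γ + (γ - 1) = g - 1 := by ring
        rw [this, Real.rpow_sub_one hR0.ne', hRg]
      calc 2 * (κ * ρ ^ 2 / R) = 1 / p * (g / γ / c) * γ * (1 / 3) * (ρ ^ 2 / R) := by
            rw [hκ]
            field_simp
            norm_num
        _ = 1 / p * a * γ * (1 / 3 * R ^ (γ - 1)) := by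
            rw [← e2, ha]
            ring
        _ ≤ _ := by
            gcongr
            exact h9.trans h7
    have h10 : ‖-((1 / p : ℝ) : ℂ) * (a * (-I * γ * (1 - I * z) ^ ((γ : ℂ) - 1)))‖ ≤
        ‖-((1 / p : ℝ) : ℂ) * (a * (-I * γ * (1 - I * z) ^ ((γ : ℂ) - 1))) +
          -(k : ℂ) / (z - R + ((R / ρ : ℝ) : ℂ) * I)‖ +
        ‖-(k : ℂ) / (z - R + ((R / ρ : ℝ) : ℂ) * I)‖ := by
      have := norm_sub_le (-((1 / p : ℝ) : ℂ) * (a * (-I * γ * (1 - I * z) ^ ((γ : ℂ) - 1))) +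
          -(k : ℂ) / (z - R + ((R / ρ : ℝ) : ℂ) * I)) (-(k : ℂ) / (z - R + ((R / ρ : ℝ) : ℂ) * I))
      rwa [add_sub_cancel_right] at this
    rw [h4] at h10
    linarith
  apply pow_le_pow_left₀ (by positivity)
  rw [norm_mul]
  have h11 : Real.exp (-(1 / p) * (x ^ g + K)) * (1 / (L + 4)) ^ k ≤
      ‖FF γ p a d R (R / ρ) k z‖ := by
    unfold FF
    rw [norm_mul]
    gcongr
  gcongr

lemma area_pt {g γ L R ρ a d C p x : ℝ} {k : ℕ} (h : Par g γ L R ρ) (hp : 0 < p)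
    (hC : ∀ ζ : ℂ, ‖ζ - 1‖ ≤ 1 / 2 → ‖ζ ^ (γ : ℂ) - (1 + γ * (ζ - 1))‖ ≤ C * ‖ζ - 1‖ ^ 2)
    (hC0 : 0 < C)
    (ha : a = g / γ * R ^ (g - γ) / Real.cos (γ * Real.pi / 2)) (hd : d = (1 - g / γ) * R ^ g)
    {κ : ℝ} (hκ : κ = g / (6 * p * Real.cos (γ * Real.pi / 2))) (hk : (k : ℝ) ≤ κ * ρ)
    {K : ℝ} (hK : K = 1 + 2 / Real.cos (γ * Real.pi / 2) * (2 + C * (L + 3) ^ 2))
    {c3 : ℝ} (hc3 : c3 = Real.exp (-(1 / p) * K) ^ 2 * ((1 / (L + 4)) ^ k) ^ 2 * κ ^ 2 / 2)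
    (hρ2 : 1 ≤ L * ρ)
    (hx : R ≤ x) (hx2 : x ≤ R + R / ρ)
    (hP : ∀ z y : ℝ, 0 < y → poisson (fun t : ℝ => (FF γ p a d R (R / ρ) k t).re) z y =
      (FF γ p a d R (R / ρ) k (z + y * I)).re) :
    ENNReal.ofReal ((c3 * ρ) ^ (p / 2)) ≤
      (areaFn L (fun t : ℝ => (FF γ p a d R (R / ρ) k t).re) x) ^ p * ENNReal.ofReal (Ug g x) := by
  obtain ⟨hγ, hc, hρ1, hRg, hρR, hR1, hR2, hR3⟩ := h.facts
  have hg := h.hg
  have hL0 := h.hL0
  have hR0 : 0 < R := lt_of_lt_of_le one_pos h.hR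
  have hρ0 : 0 < ρ := by linarith
  have hx0 : 0 < x := by linarith
  have hβ : 0 < R / ρ := by positivity
  have hκ0 : 0 < κ := by rw [hκ]; positivity
  have hc30 : 0 < c3 := by rw [hc3]; positivity
  set P : Set (ℝ × ℝ) := {q : ℝ × ℝ | q.2 ∈ Icc (R / ρ / 2) (R / ρ) ∧
    q.1 ∈ Icc ((fun t => x - L * t) q.2) ((fun t => x - L * t) q.2 + R / ρ ^ 2)} with hPdef
  have hφ : Measurable (fun t : ℝ => x - L * t) := by fun_prop
  have hPm : MeasurableSet P := measurableSet_strip hφ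
  have hPv : volume P = ENNReal.ofReal (R / ρ ^ 2) * ENNReal.ofReal (R / ρ - R / ρ / 2) :=
    volume_strip hφ
  have hPc : P ⊆ cone L x := by
    rintro ⟨z, y⟩ ⟨hy, hz⟩
    simp only at hy hz
    have hy0 : 0 < y := by linarith [hy.1]
    refine ⟨?_, hy0⟩
    show |x - z| ≤ L * y
    have h1 : R / ρ ^ 2 ≤ 2 * (L * y) := by
      have h2 : R / ρ ^ 2 ≤ L * (R / ρ) := by
        rw [div_le_iff₀ (by positivity)]
        have e : L * (R / ρ) * ρ ^ 2 = (L * ρ) * R := by field_simp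
        rw [e]
        nlinarith
      have h3 : L * (R / ρ / 2) ≤ L * y := by gcongr; exact hy.1
      linarith
    rw [abs_le]
    constructor <;> linarith [hz.1, hz.2]
  set G : ℝ := Real.exp (-(1 / p) * (x ^ g + K)) * (1 / (L + 4)) ^ k * (κ * ρ ^ 2 / R) with hG
  have hPg : ∀ q ∈ P, G ^ 2 ≤
      gradSq (fun t : ℝ => (FF γ p a d R (R / ρ) k t).re) q.1 q.2 := by
    rintro ⟨z, y⟩ ⟨hy, hz⟩
    simp only at hy hz ⊢
    have hy0 : 0 < y := by linarith [hy.1]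
    have h1 := lower_grad (t := y) (s := z - (x - L * y)) h hp hC hC0 ha hd hκ hk hK hx hx2 hy0
      hy.2 (by linarith [hz.1]) (by linarith [hz.2]) hP
    have e : x - L * y + (z - (x - L * y)) = z := by ring
    rw [e] at h1
    exact h1
  have h2 := area_lower hPm hPc hPg
  rw [hPv, ← ENNReal.ofReal_mul (by positivity), ← ENNReal.ofReal_mul (by positivity)] at h2
  have e1 : G ^ 2 * (R / ρ ^ 2 * (R / ρ - R / ρ / 2)) =
      Real.exp (-(1 / p) * x ^ g) ^ 2 * (c3 * ρ) := by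
    have e2 : Real.exp (-(1 / p) * (x ^ g + K)) =
        Real.exp (-(1 / p) * x ^ g) * Real.exp (-(1 / p) * K) := by
      rw [← Real.exp_add]; congr 1; ring
    rw [hG, e2, hc3]
    field_simp
    norm_num
  rw [e1] at h2
  rw [areaFn_rpow]
  calc ENNReal.ofReal ((c3 * ρ) ^ (p / 2))
      = (ENNReal.ofReal (Real.exp (-(1 / p) * x ^ g) ^ 2 * (c3 * ρ))) ^ (p / 2) *
          ENNReal.ofReal (Ug g x) := by
        rw [ENNReal.ofReal_rpow_of_nonneg (by positivity) (by positivity),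
          ← ENNReal.ofReal_mul (by positivity),
          Real.mul_rpow (x := Real.exp (-(1 / p) * x ^ g) ^ 2) (by positivity) (by positivity)]
        congr 1
        unfold Ug
        have e3 : (Real.exp (-(1 / p) * x ^ g) ^ 2) ^ (p / 2) = Real.exp (-x ^ g) := by
          rw [← Real.exp_nat_mul, ← Real.exp_mul]
          congr 1
          push_cast
          field_simp
        rw [e3, abs_of_pos hx0, Real.exp_neg]
        have := Real.exp_pos (x ^ g)
        field_simp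
    _ ≤ _ := by gcongr

end Pool.Agent.Work.MP_055a27_an.Nv.NegAux

namespace Pool.Agent.Work.MP_055a27_an.Nv

open NegAux

/-- the negative direction -/
theorem I_Neg : StNeg := by
  intro g lam b p hg hg1 hlam hb hp hmax
  have hpi := Real.pi_pos
  have hbl : b ≤ lam := (le_max_left _ _).trans hmax
  have htl : Real.tan (g * Real.pi / 2) ≤ lam := (le_max_right _ _).trans hmax
  -- the exponent `γ`
  obtain ⟨γ, hγdef⟩ : ∃ γ : ℝ, γ = 2 / Real.pi * Real.arctan lam := ⟨_, rfl⟩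
  have hγpi : γ * Real.pi / 2 = Real.arctan lam := by
    rw [hγdef]; field_simp
  have hγtan : lam = Real.tan (γ * Real.pi / 2) := by rw [hγpi, Real.tan_arctan]
  have hγ1 : γ < 1 := by
    have := Real.arctan_lt_pi_div_two lam
    rw [← hγpi] at this
    nlinarith
  have hgγ : g ≤ γ := by
    have h1 : Real.arctan (Real.tan (g * Real.pi / 2)) = g * Real.pi / 2 :=
      Real.arctan_tan (by nlinarith) (by nlinarith)
    have h2 := Real.arctan_mono htl
    rw [h1, ← hγpi] at h2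
    nlinarith
  have hγ : 0 < γ := lt_of_lt_of_le hg hgγ
  have hc : 0 < Real.cos (γ * Real.pi / 2) :=
    Real.cos_pos_of_mem_Ioo ⟨by nlinarith, by nlinarith⟩
  obtain ⟨C, hC0, hC⟩ := taylor hγ
  obtain ⟨k, hk⟩ := exists_nat_ge (2 / p)
  have hkp : 2 ≤ (k : ℝ) * p := by rwa [div_le_iff₀ hp] at hk
  obtain ⟨κ, hκ⟩ : ∃ κ : ℝ, κ = g / (6 * p * Real.cos (γ * Real.pi / 2)) := ⟨_, rfl⟩
  have hκ0 : 0 < κ := by rw [hκ]; positivity
  obtain ⟨K, hK⟩ : ∃ K : ℝ, K = 1 + 2 / Real.cos (γ * Real.pi / 2) * (2 + C * (lam + 3) ^ 2) :=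
    ⟨_, rfl⟩
  obtain ⟨c3, hc3⟩ : ∃ c3 : ℝ, c3 = Real.exp (-(1 / p) * K) ^ 2 *
    ((1 / (lam + 4)) ^ k) ^ 2 * κ ^ 2 / 2 := ⟨_, rfl⟩
  have hc30 : 0 < c3 := by rw [hc3]; positivity
  rintro ⟨CC, hCC⟩
  obtain ⟨A, hA⟩ : ∃ A : ℝ, A = ((Real.sqrt (1 + b ^ 2) / min 1 b) ^ k) ^ p := ⟨_, rfl⟩
  have hm0 : 0 < min 1 b := lt_min one_pos hb
  have hA0 : 0 < A := by rw [hA]; positivity
  obtain ⟨M, hM⟩ : ∃ M : ℝ, M = CC * (A * Real.pi) + 1 := ⟨_, rfl⟩
  have hM0 : 0 < M := by rw [hM]; positivity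
  obtain ⟨ρ, hρ⟩ : ∃ ρ : ℝ, ρ = 2 * (lam + 3) + 1 / lam + k / κ + M ^ (2 / p) / c3 := ⟨_, rfl⟩
  have t1 : 0 < 1 / lam := by positivity
  have t2 : 0 ≤ k / κ := by positivity
  have t3 : 0 < M ^ (2 / p) / c3 := by positivity
  have hρ0 : 0 < ρ := by rw [hρ]; positivity
  have hρL : 2 * (lam + 3) ≤ ρ := by rw [hρ]; linarith
  have hρ2 : 1 ≤ lam * ρ := by
    have : 1 / lam ≤ ρ := by rw [hρ]; linarith
    rw [div_le_iff₀ hlam] at this
    linarith
  have hρk : (k : ℝ) ≤ κ * ρ := by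
    have : k / κ ≤ ρ := by rw [hρ]; linarith
    rw [div_le_iff₀ hκ0] at this
    linarith
  have hρM : M ≤ (c3 * ρ) ^ (p / 2) := by
    have h1 : M ^ (2 / p) ≤ c3 * ρ := by
      have : M ^ (2 / p) / c3 ≤ ρ := by rw [hρ]; linarith
      rw [div_le_iff₀ hc30] at this
      linarith
    calc M = (M ^ (2 / p)) ^ (p / 2) := by
          rw [← Real.rpow_mul hM0.le]
          have : 2 / p * (p / 2) = 1 := by field_simp
          rw [this, Real.rpow_one]
      _ ≤ _ := Real.rpow_le_rpow (by positivity) h1 (by positivity)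
  obtain ⟨R, hR⟩ : ∃ R : ℝ, R = ρ ^ (2 / g) := ⟨_, rfl⟩
  have hR1 : 1 ≤ R := by
    rw [hR]
    exact Real.one_le_rpow (by linarith) (by positivity)
  have hR0 : 0 < R := by linarith
  have hρR : ρ = R ^ (g / 2) := by
    rw [hR, ← Real.rpow_mul hρ0.le]
    have : 2 / g * (g / 2) = 1 := by field_simp
    rw [this, Real.rpow_one]
  have hpar : Par g γ lam R ρ := ⟨hg, hgγ, hγ1, hγtan, hlam, hR1, hρR, hρL⟩
  obtain ⟨a, ha⟩ : ∃ a : ℝ, a = g / γ * R ^ (g - γ) / Real.cos (γ * Real.pi / 2) := ⟨_, rfl⟩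
  obtain ⟨d, hd⟩ : ∃ d : ℝ, d = (1 - g / γ) * R ^ g := ⟨_, rfl⟩
  have hβ : 0 < R / ρ := by positivity
  have hbL : b ≤ Real.tan (γ * Real.pi / 2) := by rw [← hγtan]; exact hbl
  have hbd := FF_bd (k := k) (R := R) hg hgγ hγ1 hp hR0 hβ ha hd
  have hdiff : ∀ ζ : ℂ, 0 ≤ ζ.im → DifferentiableAt ℂ (FF γ p a d R (R / ρ) k) ζ :=
    fun ζ hζ => (hda_FF γ p a d hβ k hζ).differentiableAt
  have hadm : Admissible (fun t : ℝ => (FF γ p a d R (R / ρ) k t).re) := admissible_re hdiff hbd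
  have hP : ∀ z y : ℝ, 0 < y → poisson (fun t : ℝ => (FF γ p a d R (R / ρ) k t).re) z y =
      (FF γ p a d R (R / ρ) k (z + y * I)).re := fun z y hy => poisson_re hdiff hbd hy
  have hmain := hCC _ hadm
  have hup : ∫⁻ x : ℝ, (ntMax b (fun t : ℝ => (FF γ p a d R (R / ρ) k t).re) x) ^ p *
      ENNReal.ofReal (Ug g x) ≤ ENNReal.ofReal (A * Real.pi * (R / ρ)) := by
    rw [← upper_int (R := R) hA0.le hβ]
    apply lintegral_mono
    intro x
    have := upper_pt (k := k) hg hgγ hγ1 hp hb hbL hR0 hβ ha hd hkp x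
    rw [← hA] at this
    exact this
  have hlow : ENNReal.ofReal ((c3 * ρ) ^ (p / 2)) * ENNReal.ofReal (R / ρ) ≤
      ∫⁻ x : ℝ, (areaFn lam (fun t : ℝ => (FF γ p a d R (R / ρ) k t).re) x) ^ p *
        ENNReal.ofReal (Ug g x) := by
    calc ENNReal.ofReal ((c3 * ρ) ^ (p / 2)) * ENNReal.ofReal (R / ρ)
        = ∫⁻ _ in Icc R (R + R / ρ), ENNReal.ofReal ((c3 * ρ) ^ (p / 2)) := by
          rw [setLIntegral_const, Real.volume_Icc]
          congr 2
          ring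
      _ ≤ ∫⁻ x in Icc R (R + R / ρ), (areaFn lam
            (fun t : ℝ => (FF γ p a d R (R / ρ) k t).re) x) ^ p * ENNReal.ofReal (Ug g x) := by
          apply setLIntegral_mono' measurableSet_Icc
          intro x hx
          exact area_pt hpar hp hC hC0 ha hd hκ hρk hK hc3 hρ2 hx.1 hx.2 hP
      _ ≤ _ := setLIntegral_le_lintegral _ _
  have hfin : ENNReal.ofReal ((c3 * ρ) ^ (p / 2)) * ENNReal.ofReal (R / ρ) ≤
      (CC : ℝ≥0∞) * ENNReal.ofReal (A * Real.pi * (R / ρ)) :=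
    hlow.trans (hmain.trans (by gcongr))
  rw [← ENNReal.ofReal_coe_nnreal, ← ENNReal.ofReal_mul (by positivity),
    ← ENNReal.ofReal_mul (by positivity), ENNReal.ofReal_le_ofReal_iff (by positivity)] at hfin
  have h1 : (c3 * ρ) ^ (p / 2) ≤ CC * (A * Real.pi) := by
    apply le_of_mul_le_mul_right _ hβ
    linarith
  linarith

end Pool.Agent.Work.MP_055a27_an.Nv
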