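import Pool.Agent.Work.MP_055a27_an.Nv.Stmts

/-! Project MP_055a27_an, module Nv, item Pos: the positive direction. -/

set_option autoImplicit false

open MeasureTheory Set Filter Topology Complex Metric ComplexConjugate
open scoped ENNReal NNReal

namespace Pool.Agent.Work.MP_055a27_an.Nv

namespace Pos

/-- `u ^ g - v ^ g ≤ u ^ (g - 1) (u - v)` -/
lemma rpow_sub_le {g u v : ℝ} (hg1 : g ≤ 1) (hv : 0 ≤ v) (hu : 0 < u) (hvu : v ≤ u) :
    u ^ g - v ^ g ≤ u ^ (g - 1) * (u - v) := by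
  have h1 : u ^ (g - 1) * u = u ^ g := by
    rw [← Real.rpow_add_one hu.ne']
    congr 1
    ring
  rcases eq_or_lt_of_le hv with h0 | h0
  · rw [← h0, sub_zero, h1]
    have : 0 ≤ (0 : ℝ) ^ g := Real.rpow_nonneg le_rfl g
    linarith
  · have h2 : u ^ (g - 1) ≤ v ^ (g - 1) :=
      Real.rpow_le_rpow_of_nonpos h0 hvu (by linarith)
    have h3 : v ^ (g - 1) * v = v ^ g := by
      rw [← Real.rpow_add_one h0.ne']
      congr 1
      ring
    nlinarith [mul_le_mul_of_nonneg_right h2 hv]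

/-- the power `1 - g` is Lipschitz on `[1, ∞)` -/
lemma rpow_lip {g u v : ℝ} (hg0 : 0 < g) (hg1 : g < 1) (hv : 1 ≤ v) (hu : 1 ≤ u) :
    |u ^ (1 - g) - v ^ (1 - g)| ≤ |u - v| := by
  have key : ∀ u v : ℝ, 1 ≤ v → 1 ≤ u → v ≤ u → u ^ (1 - g) - v ^ (1 - g) ≤ u - v := by
    intro u v hv hu hvu
    have h1 := rpow_sub_le (g := 1 - g) (by linarith) (by linarith : 0 ≤ v)
      (by linarith : 0 < u) hvu
    have h2 : u ^ (1 - g - 1) ≤ 1 := Real.rpow_le_one_of_one_le_of_nonpos hu (by linarith)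
    nlinarith
  rcases le_total v u with h | h
  · have h1 := key u v hv hu h
    have h2 : v ^ (1 - g) ≤ u ^ (1 - g) :=
      Real.rpow_le_rpow (by linarith) h (by linarith)
    rw [abs_of_nonneg (by linarith), abs_of_nonneg (by linarith)]
    exact h1
  · have h1 := key v u hu hv h
    have h2 : u ^ (1 - g) ≤ v ^ (1 - g) :=
      Real.rpow_le_rpow (by linarith) h (by linarith)
    rw [abs_of_nonpos (by linarith), abs_of_nonpos (by linarith)]
    linarith

/-- the weight does not vary on the scale `(1 + |y|) ^ (1 - g)` -/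
lemma osc {g x y : ℝ} (hg0 : 0 < g) (hg1 : g < 1) (h : |x - y| ≤ (1 + |y|) ^ (1 - g) / 8) :
    |(|x| ^ g) - |y| ^ g| ≤ 2 := by
  have hxy : |(|x| - |y|)| ≤ |x - y| := abs_abs_sub_abs_le_abs_sub x y
  obtain ⟨a, ha⟩ : ∃ a, a = |x| := ⟨_, rfl⟩
  obtain ⟨d, hd⟩ : ∃ d, d = |y| := ⟨_, rfl⟩
  have ha0 : 0 ≤ a := ha ▸ abs_nonneg x
  have hd0 : 0 ≤ d := hd ▸ abs_nonneg y
  rw [← ha, ← hd] at hxy ⊢
  rw [← hd] at h
  have hada : |a - d| ≤ (1 + d) ^ (1 - g) / 8 := hxy.trans h
  -- the general estimate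
  have key : ∀ u v : ℝ, 0 ≤ v → v ≤ u → u - v ≤ (1 + d) ^ (1 - g) / 8 → d ≤ u → u ≤ d + (u - v) →
      u ^ g - v ^ g ≤ 2 := by
    intro u v hv hvu huv hdu hud
    by_cases hd1 : d < 1
    · have h1 : (1 + d) ^ (1 - g) ≤ 2 := by
        calc (1 + d) ^ (1 - g) ≤ 2 ^ (1 - g) :=
              Real.rpow_le_rpow (by linarith) (by linarith) (by linarith)
          _ ≤ 2 ^ (1 : ℝ) := Real.rpow_le_rpow_of_exponent_le (by norm_num) (by linarith)
          _ = 2 := by norm_num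
      have h2 : u ≤ 2 := by linarith
      have h3 : u ^ g ≤ 2 := by
        calc u ^ g ≤ 2 ^ g := Real.rpow_le_rpow (by linarith) h2 hg0.le
          _ ≤ 2 ^ (1 : ℝ) := Real.rpow_le_rpow_of_exponent_le (by norm_num) (by linarith)
          _ = 2 := by norm_num
      have h4 : 0 ≤ v ^ g := Real.rpow_nonneg hv g
      linarith
    · push Not at hd1
      have hu0 : 0 < u := by linarith
      have h1 := rpow_sub_le hg1.le hv hu0 hvu
      have h2 : u ^ (g - 1) ≤ d ^ (g - 1) :=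
        Real.rpow_le_rpow_of_nonpos (by linarith) hdu (by linarith)
      have h3 : (1 + d) ^ (1 - g) ≤ 2 * d ^ (1 - g) := by
        calc (1 + d) ^ (1 - g) ≤ (2 * d) ^ (1 - g) :=
              Real.rpow_le_rpow (by linarith) (by linarith) (by linarith)
          _ = 2 ^ (1 - g) * d ^ (1 - g) := Real.mul_rpow (by norm_num) hd0
          _ ≤ 2 ^ (1 : ℝ) * d ^ (1 - g) := by
              apply mul_le_mul_of_nonneg_right _ (Real.rpow_nonneg hd0 _)
              exact Real.rpow_le_rpow_of_exponent_le (by norm_num) (by linarith)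
          _ = 2 * d ^ (1 - g) := by norm_num
      have h4 : d ^ (g - 1) * d ^ (1 - g) = 1 := by
        rw [← Real.rpow_add (by linarith)]
        simp
      have h5 : 0 < d ^ (g - 1) := Real.rpow_pos_of_pos (by linarith) _
      have h6 : u - v ≤ d ^ (1 - g) / 4 := by linarith
      calc u ^ g - v ^ g ≤ u ^ (g - 1) * (u - v) := h1
        _ ≤ d ^ (g - 1) * (d ^ (1 - g) / 4) :=
            mul_le_mul h2 h6 (by linarith) h5.le
        _ = (d ^ (g - 1) * d ^ (1 - g)) / 4 := by ring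
        _ ≤ 2 := by rw [h4]; norm_num
  rcases le_total d a with hc | hc
  · have h1 : d ^ g ≤ a ^ g := Real.rpow_le_rpow hd0 hc hg0.le
    rw [abs_of_nonneg (by linarith)]
    rw [abs_of_nonneg (by linarith)] at hada
    exact key a d hd0 hc hada hc (by linarith)
  · have h1 : a ^ g ≤ d ^ g := Real.rpow_le_rpow ha0 hc hg0.le
    rw [abs_of_nonpos (by linarith), neg_sub]
    rw [abs_of_nonpos (by linarith), neg_sub] at hada
    exact key d a ha0 hc hada le_rfl (by linarith)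

lemma add_rpow_le {A B : ℝ≥0∞} {s : ℝ} (hs : 0 ≤ s) :
    (A + B) ^ s ≤ 2 ^ s * (A ^ s + B ^ s) := by
  rcases le_total A B with h | h
  · calc (A + B) ^ s ≤ (2 * B) ^ s := by
          apply ENNReal.rpow_le_rpow _ hs
          rw [two_mul]
          exact add_le_add h le_rfl
      _ = 2 ^ s * B ^ s := ENNReal.mul_rpow_of_nonneg _ _ hs
      _ ≤ 2 ^ s * (A ^ s + B ^ s) := mul_le_mul' le_rfl le_add_self
  · calc (A + B) ^ s ≤ (2 * A) ^ s := by
          apply ENNReal.rpow_le_rpow _ hs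
          rw [two_mul]
          exact add_le_add le_rfl h
      _ = 2 ^ s * A ^ s := ENNReal.mul_rpow_of_nonneg _ _ hs
      _ ≤ 2 ^ s * (A ^ s + B ^ s) := mul_le_mul' le_rfl le_self_add

lemma measurableSet_low {lam x c : ℝ} : MeasurableSet (cone lam x ∩ {q : ℝ × ℝ | q.2 < c}) :=
  (measurableSet_cone lam x).inter (measurableSet_lt (by fun_prop) measurable_const)

lemma measurable_low {F : ℂ → ℂ} {lam : ℝ} {l : ℝ → ℝ} (hl : Measurable l) :
    Measurable (fun x : ℝ => ∫⁻ q in cone lam x ∩ {q : ℝ × ℝ | q.2 < l x},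
      ENNReal.ofReal (gsq F q)) := by
  have m1 : MeasurableSet {z : ℝ × (ℝ × ℝ) | |z.1 - z.2.1| ≤ lam * z.2.2} :=
    measurableSet_le (by fun_prop) (by fun_prop)
  have m2 : MeasurableSet {z : ℝ × (ℝ × ℝ) | 0 < z.2.2} :=
    measurableSet_lt measurable_const (by fun_prop)
  have m3 : MeasurableSet {z : ℝ × (ℝ × ℝ) | z.2.2 < l z.1} :=
    measurableSet_lt (by fun_prop) (hl.comp measurable_fst)
  have h1 := (((measurable_gsq F).ennreal_ofReal.comp
    (measurable_snd (α := ℝ) (β := ℝ × ℝ))).indicator ((m1.inter m2).inter m3))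
  have h2 := h1.lintegral_prod_right' (ν := volume)
  have h3 : (fun x : ℝ => ∫⁻ q in cone lam x ∩ {q : ℝ × ℝ | q.2 < l x},
      ENNReal.ofReal (gsq F q)) = fun x : ℝ => ∫⁻ q : ℝ × ℝ,
        ((({z : ℝ × (ℝ × ℝ) | |z.1 - z.2.1| ≤ lam * z.2.2} ∩ {z : ℝ × (ℝ × ℝ) | 0 < z.2.2}) ∩
          {z : ℝ × (ℝ × ℝ) | z.2.2 < l z.1}).indicator
          ((fun q => ENNReal.ofReal (gsq F q)) ∘ Prod.snd)) (x, q) := by
    funext x
    rw [← lintegral_indicator measurableSet_low]
    apply lintegral_congr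
    intro q
    by_cases hq : q ∈ cone lam x ∩ {q : ℝ × ℝ | q.2 < l x}
    · rw [indicator_of_mem hq, indicator_of_mem]
      · rfl
      · exact ⟨⟨hq.1.1, hq.1.2⟩, hq.2⟩
    · rw [indicator_of_notMem hq, indicator_of_notMem]
      intro h
      exact hq ⟨⟨h.1.1, h.1.2⟩, h.2⟩
  rw [h3]
  exact h2

end Pos

theorem I_Pos (h1 : StHL) (h2 : StLoc) (h3 : StLG) (h4 : StHi) : StPos := by
  intro g lam b p hg0 hg1 hlam hlt hb hp
  have hp0 : 0 < p := by linarith
  obtain ⟨K, hK1, C0, hLoc⟩ := h2 lam b p hlam hb hp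
  have hK0 : 0 < K := by linarith
  set ε : ℝ := 1 / (8 * K) with hε
  have hε0 : 0 < ε := by positivity
  set l : ℝ → ℝ := fun x => ε * (1 + |x|) ^ (1 - g) with hl
  have habs : ∀ x : ℝ, 1 ≤ 1 + |x| := fun x => by linarith [abs_nonneg x]
  have hlpos : ∀ x, 0 < l x := by
    intro x
    have := Real.rpow_pos_of_pos (by linarith [habs x] : 0 < 1 + |x|) (1 - g)
    simp only [hl]
    positivity
  have hlm : Measurable l := by
    simp only [hl]
    fun_prop
  have hlip : ∀ x y, |l x - l y| ≤ |x - y| / (4 * K) := by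
    intro x y
    have e1 := Pos.rpow_lip hg0 hg1 (habs y) (habs x)
    have e2 : |(1 + |x|) - (1 + |y|)| ≤ |x - y| := by
      have : (1 + |x|) - (1 + |y|) = |x| - |y| := by ring
      rw [this]
      exact abs_abs_sub_abs_le_abs_sub x y
    simp only [hl]
    rw [← mul_sub, abs_mul, abs_of_pos hε0]
    calc ε * |(1 + |x|) ^ (1 - g) - (1 + |y|) ^ (1 - g)| ≤ ε * |x - y| :=
          mul_le_mul_of_nonneg_left (e1.trans e2) hε0.le
      _ ≤ |x - y| / (4 * K) := by
          rw [hε, div_mul_eq_mul_div, one_mul]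
          apply div_le_div_of_nonneg_left (abs_nonneg _) (by positivity)
          linarith
  set W : ℝ → ℝ≥0∞ := fun x => ENNReal.ofReal (Ug g x) with hW
  have hUm : Measurable (Ug g) := by
    unfold Ug
    fun_prop
  have hWm : Measurable W := hUm.ennreal_ofReal
  set C1 : ℝ≥0 := (Real.exp 2).toNNReal with hC1
  have hC1' : (C1 : ℝ≥0∞) = ENNReal.ofReal (Real.exp 2) := rfl
  have hWW : ∀ x y, |x - y| ≤ K * l y → W x ≤ C1 * W y ∧ W y ≤ C1 * W x := by
    intro x y hxy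
    have e1 : K * l y = (1 + |y|) ^ (1 - g) / 8 := by
      simp only [hl, hε]
      field_simp
    rw [e1] at hxy
    have e2 := abs_le.1 (Pos.osc hg0 hg1 hxy)
    simp only [hW, hC1', Ug]
    constructor
    · rw [← ENNReal.ofReal_mul (Real.exp_pos _).le, ← Real.exp_add]
      apply ENNReal.ofReal_le_ofReal
      apply Real.exp_le_exp.2
      linarith [e2.2]
    · rw [← ENNReal.ofReal_mul (Real.exp_pos _).le, ← Real.exp_add]
      apply ENNReal.ofReal_le_ofReal
      apply Real.exp_le_exp.2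
      linarith [e2.1]
  obtain ⟨CG, hCG⟩ := h3 K C0 C1 hK1
  obtain ⟨CH, hCH⟩ := h4 g lam b p ε hg0 hg1 hlam hlt hb hp0 hε0
  obtain ⟨CL, hCL⟩ := h1 p hp
  refine ⟨2 ^ (p / 2) * (CG + CH ^ (p / 2) * CL), ?_⟩
  intro f hf
  set N : ℝ → ℝ≥0∞ := fun x => (ntMax b f x) ^ p with hN
  have hntm : Measurable (ntMax b f) := by
    have : ntMax b f = NT (schw f) b := by
      funext x
      exact ntMax_eq hf
    rw [this]
    exact measurable_NT (schw_diff hf) b
  have hNm : Measurable N := hntm.pow_const p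
  set A : ℝ → ℝ≥0∞ := fun x => ∫⁻ q in cone lam x ∩ {q : ℝ × ℝ | q.2 < l x},
    ENNReal.ofReal (gradSq f q.1 q.2) with hA
  set B : ℝ → ℝ≥0∞ := fun x => ∫⁻ q in cone lam x ∩ {q : ℝ × ℝ | l x ≤ q.2},
    ENNReal.ofReal (gradSq f q.1 q.2) with hB
  have hAm : Measurable A := by
    have : A = fun x : ℝ => ∫⁻ q in cone lam x ∩ {q : ℝ × ℝ | q.2 < l x},
        ENNReal.ofReal (gsq (schw f) q) := by
      funext x
      rw [hA]
      apply setLIntegral_congr_fun Pos.measurableSet_low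
      intro q hq
      simp only
      rw [gradSq_eq hf hq.1.2]
      unfold gsq
      rw [(hasDerivAt_schw hf (mem_uhp (z := q.1) hq.1.2)).deriv]
    rw [this]
    exact Pos.measurable_low hlm
  set Ψ : ℝ → ℝ≥0∞ := fun x => (A x) ^ (p / 2) with hΨ
  have hΨm : Measurable Ψ := hAm.pow_const _
  have hlow : ∫⁻ x, Ψ x * W x ≤ CG * ∫⁻ x, N x * W x := by
    apply hCG l W N Ψ hWm hNm hΨm hlpos hlip hWW
    intro c
    refine le_trans ?_ (hLoc f c (l c) hf (hlpos c))
    apply setLIntegral_mono' measurableSet_Ioo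
    intro x hx
    simp only [hΨ, hA]
    apply ENNReal.rpow_le_rpow _ (by linarith)
    apply lintegral_mono_set
    intro q hq
    refine ⟨hq.1, ?_⟩
    have e1 : q.2 < l x := hq.2
    show q.2 < 2 * l c
    have e2 := (abs_le.1 (hlip x c)).2
    have e3 : |x - c| ≤ l c := abs_le.2 ⟨by linarith [hx.1], by linarith [hx.2]⟩
    have e4 : |x - c| / (4 * K) ≤ l c := by
      refine (div_le_self (abs_nonneg _) (by linarith)).trans e3
    linarith
  have hhigh : ∫⁻ x, (B x) ^ (p / 2) * W x ≤ (CH ^ (p / 2) * CL : ℝ≥0) * ∫⁻ x, N x * W x := by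
    set Kf : ℝ → ℝ≥0∞ := fun t => ntMax b f t * ENNReal.ofReal (Real.exp (|t| ^ g / p)) with hKf
    have hKm : Measurable Kf := by
      apply hntm.mul
      apply Measurable.ennreal_ofReal
      fun_prop
    have e0 : ∀ x, (B x) ^ (p / 2) * W x ≤ (CH : ℝ≥0∞) ^ (p / 2) * (mx Kf x) ^ p := by
      intro x
      have e1 := hCH f hf x
      have e2 : (B x) ^ (p / 2) ≤ (CH : ℝ≥0∞) ^ (p / 2) *
          ((mx Kf x) ^ p * ENNReal.ofReal (Real.exp (-(|x| ^ g)))) := by
        calc (B x) ^ (p / 2) ≤ (CH * (mx Kf x *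
              ENNReal.ofReal (Real.exp (-(|x| ^ g / p)))) ^ 2) ^ (p / 2) :=
              ENNReal.rpow_le_rpow e1 (by linarith)
          _ = (CH : ℝ≥0∞) ^ (p / 2) * ((mx Kf x) ^ p *
              ENNReal.ofReal (Real.exp (-(|x| ^ g)))) := by
              rw [ENNReal.mul_rpow_of_nonneg _ _ (by linarith)]
              congr 1
              rw [← ENNReal.rpow_natCast, ← ENNReal.rpow_mul]
              have e3 : ((2 : ℕ) : ℝ) * (p / 2) = p := by
                push_cast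
                ring
              rw [e3, ENNReal.mul_rpow_of_nonneg _ _ hp0.le]
              congr 1
              rw [ENNReal.ofReal_rpow_of_pos (Real.exp_pos _), ← Real.exp_mul]
              congr 2
              field_simp
      calc (B x) ^ (p / 2) * W x ≤ ((CH : ℝ≥0∞) ^ (p / 2) *
            ((mx Kf x) ^ p * ENNReal.ofReal (Real.exp (-(|x| ^ g))))) * W x :=
            mul_le_mul' e2 le_rfl
        _ = (CH : ℝ≥0∞) ^ (p / 2) * (mx Kf x) ^ p *
            (ENNReal.ofReal (Real.exp (-(|x| ^ g))) * W x) := by ring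
        _ = (CH : ℝ≥0∞) ^ (p / 2) * (mx Kf x) ^ p := by
            simp only [hW, Ug]
            rw [← ENNReal.ofReal_mul (Real.exp_pos _).le, ← Real.exp_add]
            simp
    have e5 : ∀ x, (Kf x) ^ p = N x * W x := by
      intro x
      simp only [hKf, hN, hW, Ug]
      rw [ENNReal.mul_rpow_of_nonneg _ _ hp0.le, ENNReal.ofReal_rpow_of_pos (Real.exp_pos _),
        ← Real.exp_mul]
      congr 3
      field_simp
    have e6 := (hCL Kf hKm.aemeasurable).2
    simp only [e5] at e6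
    have hCHt : (CH : ℝ≥0∞) ^ (p / 2) ≠ ∞ :=
      ENNReal.rpow_ne_top_of_nonneg (by linarith) ENNReal.coe_ne_top
    calc ∫⁻ x, (B x) ^ (p / 2) * W x ≤ ∫⁻ x, (CH : ℝ≥0∞) ^ (p / 2) * (mx Kf x) ^ p :=
          lintegral_mono e0
      _ = (CH : ℝ≥0∞) ^ (p / 2) * ∫⁻ x, (mx Kf x) ^ p := lintegral_const_mul' _ _ hCHt
      _ ≤ (CH : ℝ≥0∞) ^ (p / 2) * (CL * ∫⁻ x, N x * W x) := mul_le_mul' le_rfl e6
      _ = (CH ^ (p / 2) * CL : ℝ≥0) * ∫⁻ x, N x * W x := by
          rw [ENNReal.coe_mul, ENNReal.coe_rpow_of_nonneg _ (by linarith), mul_assoc]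
  have hsum : ∀ x, (areaFn lam f x) ^ p * ENNReal.ofReal (Ug g x) ≤
      2 ^ (p / 2) * (Ψ x * W x + (B x) ^ (p / 2) * W x) := by
    intro x
    rw [areaFn_rpow]
    have e1 : ∫⁻ q in cone lam x, ENNReal.ofReal (gradSq f q.1 q.2) ≤ A x + B x := by
      have e2 : cone lam x ⊆ (cone lam x ∩ {q : ℝ × ℝ | q.2 < l x}) ∪
          (cone lam x ∩ {q : ℝ × ℝ | l x ≤ q.2}) := by
        intro q hq
        rcases lt_or_ge q.2 (l x) with h | h
        · left
          exact ⟨hq, h⟩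
        · right
          exact ⟨hq, h⟩
      exact (lintegral_mono_set e2).trans (lintegral_union_le _ _ _)
    calc (∫⁻ q in cone lam x, ENNReal.ofReal (gradSq f q.1 q.2)) ^ (p / 2) *
          ENNReal.ofReal (Ug g x) ≤ (A x + B x) ^ (p / 2) * W x :=
          mul_le_mul' (ENNReal.rpow_le_rpow e1 (by linarith)) le_rfl
      _ ≤ (2 ^ (p / 2) * ((A x) ^ (p / 2) + (B x) ^ (p / 2))) * W x :=
          mul_le_mul' (Pos.add_rpow_le (by linarith)) le_rfl
      _ = 2 ^ (p / 2) * (Ψ x * W x + (B x) ^ (p / 2) * W x) := by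
          simp only [hΨ]
          ring
  have h2t : (2 : ℝ≥0∞) ^ (p / 2) ≠ ∞ :=
    ENNReal.rpow_ne_top_of_nonneg (by linarith) (by norm_num)
  calc ∫⁻ x, (areaFn lam f x) ^ p * ENNReal.ofReal (Ug g x)
      ≤ ∫⁻ x, 2 ^ (p / 2) * (Ψ x * W x + (B x) ^ (p / 2) * W x) := lintegral_mono hsum
    _ = 2 ^ (p / 2) * ∫⁻ x, (Ψ x * W x + (B x) ^ (p / 2) * W x) := lintegral_const_mul' _ _ h2t
    _ = 2 ^ (p / 2) * ((∫⁻ x, Ψ x * W x) + ∫⁻ x, (B x) ^ (p / 2) * W x) := by
        congr 1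
        exact lintegral_add_left (hΨm.mul hWm) _
    _ ≤ 2 ^ (p / 2) * ((CG * ∫⁻ x, N x * W x) +
          (CH ^ (p / 2) * CL : ℝ≥0) * ∫⁻ x, N x * W x) :=
        mul_le_mul' le_rfl (add_le_add hlow hhigh)
    _ = ((2 ^ (p / 2) * (CG + CH ^ (p / 2) * CL) : ℝ≥0) : ℝ≥0∞) * ∫⁻ x, N x * W x := by
        rw [← add_mul, ← mul_assoc]
        congr 1
        rw [ENNReal.coe_mul (2 ^ (p / 2)) (CG + CH ^ (p / 2) * CL), ENNReal.coe_add,
          ENNReal.coe_rpow_of_nonneg (2 : ℝ≥0) (by linarith)]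
        rfl

end Pool.Agent.Work.MP_055a27_an.Nv
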