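import Pool.Agent.Work.MP_055a27_an.Nv.Stmts

/-!
# Item SLp: the area function is bounded on `L^p`
-/

set_option autoImplicit false

open MeasureTheory Set Filter Topology Complex Metric ComplexConjugate
open scoped ENNReal NNReal

namespace Pool.Agent.Work.MP_055a27_an.Nv

namespace SLp

lemma isWeight_one : IsWeight (fun _ => (1 : ℝ)) :=
  ⟨fun _ => zero_le_one, locallyIntegrable_const 1⟩

lemma weak_one : WeakAInfty (fun _ => (1 : ℝ)) := by
  refine ⟨1, 1, one_pos, one_pos, fun x r hr E hE hEs => ?_⟩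
  rw [setIntegral_const, setIntegral_const, smul_eq_mul, smul_eq_mul, mul_one, mul_one, one_mul,
    Real.rpow_one, Real.volume_real_Icc]
  have h1 : max (x + 2 * r - (x - 2 * r)) 0 = 4 * r := by
    rw [max_eq_left (by linarith)]; ring
  rw [h1]
  have h2 : volume.real E / (2 * r) * (4 * r) = 2 * volume.real E := by
    field_simp; ring
  rw [h2]
  have : 0 ≤ volume.real E := measureReal_nonneg
  linarith

lemma poisson_le {f : ℝ → ℝ} {z y : ℝ} (hy : 0 < y) :
    ENNReal.ofReal |poisson f z y| ≤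
      ∫⁻ t, ENNReal.ofReal (pk z y t) * ENNReal.ofReal |f t| := by
  have h1 : poisson f z y = ∫ t, pk z y t * f t := by
    rw [poisson_eq_integral, ← integral_const_mul]
    refine integral_congr_ae (Eventually.of_forall fun t => ?_)
    simp only [pk]
    have hpi := Real.pi_pos
    have : 0 < (z - t) ^ 2 + y ^ 2 := by positivity
    field_simp
  rw [h1, ← Real.enorm_eq_ofReal_abs]
  refine (enorm_integral_le_lintegral_enorm _).trans (lintegral_mono fun t => ?_)
  have h2 : 0 ≤ pk z y t := by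
    unfold pk
    have hpi := Real.pi_pos
    positivity
  rw [Real.enorm_eq_ofReal_abs, abs_mul, abs_of_nonneg h2, ENNReal.ofReal_mul h2]

end SLp

open SLp in
/-- 4 -/
theorem I_SLp (h1 : StHL) (h2 : StPk) : StSLp := by
  intro lam p hlam hp
  have hp0 : 0 < p := by linarith
  obtain ⟨C1, hstar⟩ := weak_star isWeight_one weak_one (lam := lam) (b := lam + 1) (p := p)
    hlam (by linarith) hp0
  obtain ⟨C2, hPk⟩ := h2 (lam + 1) (by linarith)
  obtain ⟨C3, hHL⟩ := h1 p hp
  refine ⟨C1 * (C2 ^ p * C3), fun f hf => ?_⟩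
  set h : ℝ → ℝ≥0∞ := fun t => ENNReal.ofReal |f t| with hh
  have hfm : AEMeasurable f volume := (adm_measurable hf).aemeasurable
  have hhm : AEMeasurable h volume := by
    rw [hh]
    exact ENNReal.measurable_ofReal.comp_aemeasurable hfm.abs
  have e1 := hstar f hf
  simp only [ENNReal.ofReal_one, mul_one] at e1
  have e2 : ∀ x, ntMax (lam + 1) f x ≤ C2 * mx h x := by
    intro x
    unfold ntMax
    refine iSup_le fun z => iSup_le fun y => iSup_le fun hzy => ?_
    refine (poisson_le hzy.1).trans (hPk h hhm x (x - z) y hzy.1 ?_)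
    have : x - z - x = -z := by ring
    rw [this, abs_neg]
    exact hzy.2
  have e3 : ∫⁻ x, (ntMax (lam + 1) f x) ^ p ≤ (C2 : ℝ≥0∞) ^ p * ∫⁻ x, (mx h x) ^ p := by
    calc ∫⁻ x, (ntMax (lam + 1) f x) ^ p ≤ ∫⁻ x, (C2 : ℝ≥0∞) ^ p * (mx h x) ^ p := by
          refine lintegral_mono fun x => ?_
          rw [← ENNReal.mul_rpow_of_nonneg _ _ hp0.le]
          exact ENNReal.rpow_le_rpow (e2 x) hp0.le
      _ = (C2 : ℝ≥0∞) ^ p * ∫⁻ x, (mx h x) ^ p := by
          rw [lintegral_const_mul _ ((hHL h hhm).1.pow_const p)]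
  calc ∫⁻ x, (areaFn lam f x) ^ p ≤ C1 * ∫⁻ x, (ntMax (lam + 1) f x) ^ p := e1
    _ ≤ C1 * ((C2 : ℝ≥0∞) ^ p * (C3 * ∫⁻ x, (h x) ^ p)) := by
        gcongr
        refine e3.trans ?_
        gcongr
        exact (hHL h hhm).2
    _ = ((C1 * (C2 ^ p * C3) : ℝ≥0) : ℝ≥0∞) * ∫⁻ x, (ENNReal.ofReal |f x|) ^ p := by
        rw [ENNReal.coe_mul, ENNReal.coe_mul, ENNReal.coe_rpow_of_nonneg _ hp0.le]
        ring

end Pool.Agent.Work.MP_055a27_an.Nv
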