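import Pool.Agent.Work.MP_055a27_an.Nv.Stmts

/-!
# The weights `exp (|x| ^ g)`, `g ≥ 1`: the inequality is vacuous
-/

set_option autoImplicit false

open MeasureTheory Set Filter Topology Complex Metric ComplexConjugate
open scoped ENNReal NNReal

namespace Pool.Agent.Work.MP_055a27_an.Nv

namespace Vac

lemma Ug_cont {g : ℝ} (hg : 1 ≤ g) : Continuous (Ug g) := by
  unfold Ug
  exact Real.continuous_exp.comp (continuous_abs.rpow_const fun x => Or.inr (by linarith))

lemma Ug_low {g : ℝ} (hg : 1 ≤ g) (x : ℝ) : Real.exp (|x| - 1) ≤ Ug g x := by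
  unfold Ug
  apply Real.exp_le_exp.2
  rcases le_total 1 |x| with h | h
  · have := Real.rpow_le_rpow_of_exponent_le h hg
    rw [Real.rpow_one] at this
    linarith
  · have := Real.rpow_nonneg (abs_nonneg x) g
    linarith

/-- the gradient is controlled by the maximal function -/
lemma grad_le {f : ℝ → ℝ} (hf : Admissible f) {b η : ℝ} (hb : 0 < b) (hη : 0 < η) {w : ℂ}
    (hw : η ≤ w.im) {t : ℝ} (ht : |t - w.re| ≤ b * η / 2) :
    ENNReal.ofReal (‖deriv (schw f) w‖ * (b * η / (8 * (1 + b)))) ≤ ntMax b f t := by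
  by_cases hN : ntMax b f t = ∞
  · rw [hN]; exact le_top
  · set σ : ℝ := (ntMax b f t).toReal with hσ
    have hσ0 : 0 ≤ σ := ENNReal.toReal_nonneg
    have hσe : ENNReal.ofReal σ = ntMax b f t := ENNReal.ofReal_toReal hN
    rw [← hσe]
    apply ENNReal.ofReal_le_ofReal
    set ρ : ℝ := b * η / (2 * (1 + b)) with hρ
    have hρ0 : 0 < ρ := by positivity
    have hρ1 : ρ * (1 + b) = b * η / 2 := by rw [hρ]; field_simp
    have hρη : ρ < η := by nlinarith
    have hball : ∀ v ∈ ball w ρ, |v.re - w.re| < ρ ∧ |v.im - w.im| < ρ := by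
      intro v hv
      have hd : ‖v - w‖ < ρ := by simpa [dist_eq_norm] using hv
      have h1 := Complex.abs_re_le_norm (v - w)
      have h2 := Complex.abs_im_le_norm (v - w)
      rw [Complex.sub_re] at h1
      rw [Complex.sub_im] at h2
      exact ⟨by linarith, by linarith⟩
    have h1 := grad_bound (F := schw f) (w := w) (ρ := ρ) (σ := σ) hρ0
      ((schw_diff hf).mono (by
        intro v hv
        have := (abs_lt.1 (hball v hv).2).1
        show 0 < v.im
        linarith)) (by
        intro v hv
        obtain ⟨h2, h3⟩ := hball v hv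
        have h4 := (abs_lt.1 h3).1
        have hv0 : 0 < v.im := by linarith
        have h5 : |t - v.re| ≤ b * v.im := by
          have h6 : |t - v.re| ≤ |t - w.re| + |w.re - v.re| := abs_sub_le _ _ _
          rw [abs_sub_comm w.re] at h6
          nlinarith
        have h7 := le_ntMax (f := f) hv0 h5
        rw [poisson_eq_re hf hv0, Complex.re_add_im, ← hσe] at h7
        exact (ENNReal.ofReal_le_ofReal_iff hσ0).1 h7)
    have h2 : b * η / (8 * (1 + b)) = ρ / 4 := by rw [hρ]; field_simp; ring
    rw [h2]
    calc ‖deriv (schw f) w‖ * (ρ / 4) ≤ 4 * σ / ρ * (ρ / 4) := by gcongr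
      _ = σ := by field_simp

/-- decay of the gradient -/
lemma decay {g b p : ℝ} (hg : 1 ≤ g) (hb : 0 < b) (hp : 0 < p) {f : ℝ → ℝ} (hf : Admissible f)
    (hK : ∫⁻ x, (ntMax b f x) ^ p * ENNReal.ofReal (Ug g x) ≠ ∞) {η : ℝ} (hη : 0 < η) :
    ∃ C : ℝ, 0 < C ∧ ∀ w : ℂ, η ≤ w.im →
      ‖deriv (schw f) w‖ ≤ C * Real.exp (-(|w.re| / p)) := by
  set K : ℝ := (∫⁻ x, (ntMax b f x) ^ p * ENNReal.ofReal (Ug g x)).toReal with hKdef
  have hK0 : 0 ≤ K := ENNReal.toReal_nonneg
  set c : ℝ := b * η / 2 with hc
  have hc0 : 0 < c := by positivity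
  set e : ℝ := b * η / (8 * (1 + b)) with he
  have he0 : 0 < e := by positivity
  refine ⟨((K + 1) / (2 * c) * Real.exp (c + 1)) ^ (1 / p) / e, by positivity, fun w hw => ?_⟩
  set x : ℝ := w.re with hx
  set N : ℝ := ‖deriv (schw f) w‖ with hN
  have hN0 : 0 ≤ N := norm_nonneg _
  have hUi : ENNReal.ofReal (2 * c * Real.exp (|x| - c - 1)) ≤
      ∫⁻ t in Icc (x - c) (x + c), ENNReal.ofReal (Ug g t) := by
    calc ENNReal.ofReal (2 * c * Real.exp (|x| - c - 1))
        = ∫⁻ t in Icc (x - c) (x + c), ENNReal.ofReal (Real.exp (|x| - c - 1)) := by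
          rw [setLIntegral_const, Real.volume_Icc, ← ENNReal.ofReal_mul (by positivity)]
          congr 1
          ring
      _ ≤ _ := by
          apply setLIntegral_mono' measurableSet_Icc
          intro t ht
          apply ENNReal.ofReal_le_ofReal
          refine le_trans ?_ (Ug_low hg t)
          apply Real.exp_le_exp.2
          have h1 : |x - t| ≤ c := by rw [abs_le]; constructor <;> linarith [ht.1, ht.2]
          have h2 := abs_sub_abs_le_abs_sub x t
          linarith
  have h1 : (ENNReal.ofReal (N * e)) ^ p * ENNReal.ofReal (2 * c * Real.exp (|x| - c - 1)) ≤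
      ENNReal.ofReal K := by
    calc (ENNReal.ofReal (N * e)) ^ p * ENNReal.ofReal (2 * c * Real.exp (|x| - c - 1))
        ≤ (ENNReal.ofReal (N * e)) ^ p * ∫⁻ t in Icc (x - c) (x + c), ENNReal.ofReal (Ug g t) := by
          gcongr
      _ = ∫⁻ t in Icc (x - c) (x + c), (ENNReal.ofReal (N * e)) ^ p * ENNReal.ofReal (Ug g t) := by
          rw [lintegral_const_mul _ (by exact (Ug_cont hg).measurable.ennreal_ofReal)]
      _ ≤ ∫⁻ t in Icc (x - c) (x + c), (ntMax b f t) ^ p * ENNReal.ofReal (Ug g t) := by
          apply setLIntegral_mono' measurableSet_Icc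
          intro t ht
          gcongr
          apply grad_le hf hb hη hw
          rw [abs_le]
          constructor <;> linarith [ht.1, ht.2]
      _ ≤ ∫⁻ t, (ntMax b f t) ^ p * ENNReal.ofReal (Ug g t) := setLIntegral_le_lintegral _ _
      _ = ENNReal.ofReal K := (ENNReal.ofReal_toReal hK).symm
  rw [ENNReal.ofReal_rpow_of_nonneg (by positivity) hp.le, ← ENNReal.ofReal_mul (by positivity)] at h1
  have h2 := (ENNReal.ofReal_le_ofReal_iff hK0).1 h1
  have h3 : (N * e) ^ p ≤ (K + 1) / (2 * c) * Real.exp (c + 1) * Real.exp (-|x|) := by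
    have e1 : Real.exp (|x| - c - 1) * (Real.exp (c + 1) * Real.exp (-|x|)) = 1 := by
      rw [← Real.exp_add, ← Real.exp_add]
      have : |x| - c - 1 + (c + 1 + -|x|) = 0 := by ring
      rw [this, Real.exp_zero]
    calc (N * e) ^ p = (N * e) ^ p * (2 * c * Real.exp (|x| - c - 1)) *
          (1 / (2 * c) * (Real.exp (c + 1) * Real.exp (-|x|))) := by
          calc (N * e) ^ p = (N * e) ^ p * ((2 * c) * (1 / (2 * c))) * 1 := by
                field_simp
            _ = (N * e) ^ p * ((2 * c) * (1 / (2 * c))) *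
                (Real.exp (|x| - c - 1) * (Real.exp (c + 1) * Real.exp (-|x|))) := by rw [e1]
            _ = _ := by ring
      _ ≤ K * (1 / (2 * c) * (Real.exp (c + 1) * Real.exp (-|x|))) := by gcongr
      _ ≤ (K + 1) * (1 / (2 * c) * (Real.exp (c + 1) * Real.exp (-|x|))) := by
          gcongr; linarith
      _ = _ := by ring
  have h4 : N * e ≤ ((K + 1) / (2 * c) * Real.exp (c + 1)) ^ (1 / p) *
      Real.exp (-(|x| / p)) := by
    calc N * e = ((N * e) ^ p) ^ (1 / p) := by
          rw [← Real.rpow_mul (by positivity), mul_one_div_cancel hp.ne', Real.rpow_one]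
      _ ≤ ((K + 1) / (2 * c) * Real.exp (c + 1) * Real.exp (-|x|)) ^ (1 / p) := by
          gcongr
      _ = _ := by
          rw [Real.mul_rpow (by positivity) (Real.exp_pos _).le, ← Real.exp_mul]
          congr 2
          ring
  calc N = N * e / e := by field_simp
    _ ≤ ((K + 1) / (2 * c) * Real.exp (c + 1)) ^ (1 / p) * Real.exp (-(|x| / p)) / e := by
        gcongr
    _ = _ := by ring

lemma tendsto_aux {C k : ℝ} (hk : 0 < k) (n : ℕ) :
    Tendsto (fun x : ℝ => Real.exp x ^ n * (C * Real.exp (-(k * ((1 + x) * Real.log (1 + x))))))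
      atTop (𝓝 0) := by
  have h0 : Tendsto (fun x : ℝ => 1 + x) atTop atTop := tendsto_atTop_add_const_left _ _ tendsto_id
  have h1 : Tendsto (fun x : ℝ => (1 + x) * ((n : ℝ) - k * Real.log (1 + x))) atTop atBot := by
    apply Tendsto.atTop_mul_atBot₀ h0
    apply tendsto_atBot_add_const_left
    simp only [tendsto_neg_atBot_iff]
    exact (Real.tendsto_log_atTop.comp h0).const_mul_atTop hk
  have h2 : Tendsto (fun x : ℝ => C * Real.exp (-(n : ℝ)) *
      Real.exp ((1 + x) * ((n : ℝ) - k * Real.log (1 + x)))) atTop (𝓝 (C * Real.exp (-(n : ℝ)) * 0)) :=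
    (Real.tendsto_exp_atBot.comp h1).const_mul _
  rw [mul_zero] at h2
  refine h2.congr fun x => ?_
  rw [← Real.exp_nat_mul]
  have : Real.exp (-(n : ℝ)) * Real.exp ((1 + x) * ((n : ℝ) - k * Real.log (1 + x))) =
      Real.exp (n * x) * Real.exp (-(k * ((1 + x) * Real.log (1 + x)))) := by
    rw [← Real.exp_add, ← Real.exp_add]; congr 1; ring
  rw [mul_assoc, this]; ring

/-- the gradient vanishes -/
lemma zero {p : ℝ} (hp : 0 < p) {F : ℂ → ℂ} (hF : DifferentiableOn ℂ F uhp)
    (h : ∀ η : ℝ, 0 < η → ∃ C : ℝ, 0 < C ∧ ∀ w : ℂ, η ≤ w.im →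
      ‖deriv F w‖ ≤ C * Real.exp (-(|w.re| / p))) :
    ∀ w : ℂ, 0 < w.im → deriv F w = 0 := by
  have hF1 : DifferentiableOn ℂ (deriv F) uhp := hF.deriv isOpen_uhp
  have key : ∀ η : ℝ, 0 < η → ∀ w : ℂ, η ≤ w.im → deriv F w = 0 := by
    intro η hη
    obtain ⟨C, hC, hbd⟩ := h η hη
    set k : ℝ := 1 / (2 * p) with hk
    have hk0 : 0 < k := by positivity
    set G : ℂ → ℂ := fun v => deriv F (I * (v + η)) *
      Complex.exp (-((k : ℂ) * ((v + 1) * Complex.log (v + 1)))) with hG
    have him : ∀ v : ℂ, (I * (v + η)).im = v.re + η := by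
      intro v
      simp
    have hre : ∀ v : ℂ, (I * (v + η)).re = -v.im := by
      intro v
      simp
    have hGd : DifferentiableOn ℂ G {v : ℂ | 0 ≤ v.re} := by
      apply DifferentiableOn.mul
      · apply hF1.comp (t := uhp) (by fun_prop)
        intro v hv
        show 0 < (I * (v + η)).im
        rw [him]
        have : 0 ≤ v.re := hv
        linarith
      · apply DifferentiableOn.cexp
        apply DifferentiableOn.neg
        apply DifferentiableOn.const_mul
        apply DifferentiableOn.mul (by fun_prop)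
        apply DifferentiableOn.clog (by fun_prop)
        intro v hv
        left
        have : 0 ≤ v.re := hv
        rw [Complex.add_re, Complex.one_re]
        linarith
    have hGc : DiffContOnCl ℂ G {v : ℂ | 0 < v.re} := by
      apply DifferentiableOn.diffContOnCl
      rw [Complex.closure_setOfPred_lt_re]
      exact hGd
    have hGb : ∀ v : ℂ, 0 ≤ v.re →
        ‖G v‖ ≤ C * Real.exp (-(k * ((1 + v.re) * Real.log (1 + v.re)))) := by
      intro v hv
      have h1 := hbd (I * (v + η)) (by rw [him]; linarith)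
      rw [hre, abs_neg] at h1
      have h2 : ‖Complex.exp (-((k : ℂ) * ((v + 1) * Complex.log (v + 1))))‖ ≤
          Real.exp (|v.im| / p - k * ((1 + v.re) * Real.log (1 + v.re))) := by
        rw [Complex.norm_exp]
        apply Real.exp_le_exp.2
        have e1 : (-((k : ℂ) * ((v + 1) * Complex.log (v + 1)))).re =
            -(k * ((v.re + 1) * Real.log ‖v + 1‖ - v.im * Complex.arg (v + 1))) := by
          rw [Complex.neg_re, Complex.re_ofReal_mul, Complex.mul_re, Complex.log_re,
            Complex.log_im]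
          simp
        rw [e1]
        have h3 : Real.log (1 + v.re) ≤ Real.log ‖v + 1‖ := by
          apply Real.log_le_log (by linarith)
          have := Complex.abs_re_le_norm (v + 1)
          rw [Complex.add_re, Complex.one_re] at this
          have h4 := le_abs_self (v.re + 1)
          linarith
        have h4 : v.im * Complex.arg (v + 1) ≤ |v.im| * (Real.pi / 2) := by
          have h5 : |Complex.arg (v + 1)| ≤ Real.pi / 2 := by
            rw [Complex.abs_arg_le_pi_div_two_iff, Complex.add_re, Complex.one_re]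
            linarith
          calc v.im * Complex.arg (v + 1) ≤ |v.im * Complex.arg (v + 1)| := le_abs_self _
            _ = |v.im| * |Complex.arg (v + 1)| := abs_mul _ _
            _ ≤ _ := by gcongr
        have h6 : k * (|v.im| * (Real.pi / 2)) ≤ |v.im| / p := by
          have h7 : Real.pi / 4 ≤ 1 := by have := Real.pi_le_four; linarith
          calc k * (|v.im| * (Real.pi / 2)) = |v.im| / p * (Real.pi / 4) := by
                rw [hk]; field_simp; ring
            _ ≤ |v.im| / p * 1 := by gcongr
            _ = _ := mul_one _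
        have h8 : k * ((1 + v.re) * Real.log (1 + v.re)) ≤
            k * ((v.re + 1) * Real.log ‖v + 1‖) := by
          rw [add_comm 1 v.re] at *
          have : 0 ≤ v.re + 1 := by linarith
          gcongr
        have h9 : k * (v.im * Complex.arg (v + 1)) ≤ k * (|v.im| * (Real.pi / 2)) := by
          gcongr
        nlinarith
      calc ‖G v‖ = ‖deriv F (I * (v + η))‖ *
            ‖Complex.exp (-((k : ℂ) * ((v + 1) * Complex.log (v + 1))))‖ := norm_mul _ _
        _ ≤ (C * Real.exp (-(|v.im| / p))) *
            Real.exp (|v.im| / p - k * ((1 + v.re) * Real.log (1 + v.re))) := by gcongr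
        _ = C * (Real.exp (-(|v.im| / p)) *
            Real.exp (|v.im| / p - k * ((1 + v.re) * Real.log (1 + v.re)))) := by ring
        _ = _ := by
            rw [← Real.exp_add]
            congr 2
            ring
    have hGb1 : ∀ v : ℂ, 0 ≤ v.re → ‖G v‖ ≤ C := by
      intro v hv
      refine (hGb v hv).trans ?_
      have h1 : 0 ≤ Real.log (1 + v.re) := Real.log_nonneg (by linarith)
      have : Real.exp (-(k * ((1 + v.re) * Real.log (1 + v.re)))) ≤ 1 := by
        rw [Real.exp_le_one_iff]
        have : 0 ≤ k * ((1 + v.re) * Real.log (1 + v.re)) := by positivity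
        linarith
      calc C * Real.exp (-(k * ((1 + v.re) * Real.log (1 + v.re)))) ≤ C * 1 := by gcongr
        _ = _ := mul_one _
    have hzero := PhragmenLindelof.eq_zero_on_right_half_plane_of_superexponential_decay hGc
      ⟨0, by norm_num, 0, by
        apply Asymptotics.IsBigO.of_bound C
        have : ∀ᶠ v in Bornology.cobounded ℂ ⊓ 𝓟 {z : ℂ | 0 < z.re}, v ∈ {z : ℂ | 0 < z.re} :=
          (mem_inf_of_right (mem_principal_self _))
        filter_upwards [this] with v hv
        have := hGb1 v (le_of_lt hv)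
        simpa using this⟩
      (by
        intro n
        apply squeeze_zero' _ _ (tendsto_aux (C := C) hk0 n)
        · filter_upwards with x
          positivity
        · filter_upwards [eventually_ge_atTop (0 : ℝ)] with x hx
          have := hGb (x : ℂ) (by simpa using hx)
          rw [Complex.ofReal_re] at this
          gcongr)
      ⟨C, fun x => hGb1 _ (by simp)⟩
    intro w hw
    have h1 := hzero (x := -I * w - η) (by
      show 0 ≤ (-I * w - η).re
      have : (-I * w - η).re = w.im - η := by simp
      rw [this]; linarith)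
    simp only [hG, Pi.zero_apply] at h1
    have h2 : I * (-I * w - η + η) = w := by
      linear_combination -w * Complex.I_sq
    rw [h2] at h1
    exact (mul_eq_zero.1 h1).resolve_right (Complex.exp_ne_zero _)
  intro w hw
  exact key w.im hw w le_rfl

end Vac

theorem I_Vac : ∀ g lam b p : ℝ, 1 ≤ g → 0 < lam → 0 < b → 0 < p → Star lam b p (Ug g) := by
  intro g lam b p hg _ hb hp
  refine ⟨1, fun f hf => ?_⟩
  by_cases hK : ∫⁻ x, (ntMax b f x) ^ p * ENNReal.ofReal (Ug g x) = ∞
  · rw [hK]; simp
  · have hz : ∀ w : ℂ, 0 < w.im → deriv (schw f) w = 0 :=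
      Vac.zero hp (schw_diff hf) fun η hη => Vac.decay hg hb hp hf hK hη
    have hS : ∀ x, areaFn lam f x = 0 := by
      intro x
      rw [areaFn_eq hf]
      have : ∫⁻ q in cone lam x, ENNReal.ofReal (gsq (schw f) q) = 0 := by
        rw [← lintegral_zero (μ := volume.restrict (cone lam x))]
        apply setLIntegral_congr_fun (measurableSet_cone lam x)
        intro q hq
        simp only [gsq]
        rw [hz _ (mem_uhp hq.2)]
        simp
      rw [this]
      exact ENNReal.zero_rpow_of_pos (by norm_num)
    simp only [hS, ENNReal.zero_rpow_of_pos hp, zero_mul, lintegral_zero]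
    exact bot_le

end Pool.Agent.Work.MP_055a27_an.Nv
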