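import Pool.Agent.Work.MP_055a27_an.Nv.Vac

/-!
# For `g ≥ 1` the right side is `0` or `∞`
-/

set_option autoImplicit false

open MeasureTheory Set Filter Topology Complex
open scoped ENNReal NNReal

namespace Pool.Agent.Work.MP_055a27_an.Nv

theorem I_Vac2 : ∀ (g b p : ℝ) (f : ℝ → ℝ), 1 ≤ g → 0 < b → 0 < p → Admissible f →
    ∫⁻ x, (ntMax b f x) ^ p * ENNReal.ofReal (Ug g x) < ∞ →
    ∫⁻ x, (ntMax b f x) ^ p * ENNReal.ofReal (Ug g x) = 0 := by
  intro g b p f hg hb hp hf hK
  have hz : ∀ w : ℂ, 0 < w.im → deriv (schw f) w = 0 :=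
    Vac.zero hp (schw_diff hf) fun η hη => Vac.decay hg hb hp hf hK.ne hη
  -- the function is constant
  have hcon : ∀ z y : ℝ, 0 < y → poisson f z y = poisson f 0 1 := by
    intro z y hy
    have hconv : Convex ℝ {w : ℂ | 0 < w.im} := convex_halfSpace_im_gt 0
    have h1 : schw f ((z : ℂ) + y * I) = schw f ((0 : ℝ) + (1 : ℝ) * I) := by
      refine IsOpen.is_const_of_deriv_eq_zero (s := {w : ℂ | 0 < w.im}) ?_ ?_ ?_ ?_ ?_ ?_
      · exact isOpen_lt continuous_const Complex.continuous_im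
      · exact hconv.isPreconnected
      · exact schw_diff hf
      · intro w hw
        exact hz w hw
      · simpa using hy
      · simp
    rw [poisson_eq_re hf hy, poisson_eq_re hf one_pos, h1]
  by_contra hne
  have hc : poisson f 0 1 ≠ 0 := by
    intro h0
    apply hne
    have : ∀ x, ntMax b f x = 0 := by
      intro x
      unfold ntMax
      simp only [ENNReal.iSup_eq_zero]
      intro z y hy
      rw [hcon _ _ hy.1, h0]; simp
    simp only [this, ENNReal.zero_rpow_of_pos hp, zero_mul, lintegral_zero]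
  have hpos : 0 < |poisson f 0 1| := abs_pos.2 hc
  have hlow : ∀ x, ENNReal.ofReal (|poisson f 0 1| ^ p) ≤
      (ntMax b f x) ^ p * ENNReal.ofReal (Ug g x) := by
    intro x
    have h1 : ENNReal.ofReal |poisson f 0 1| ≤ ntMax b f x := by
      unfold ntMax
      refine le_iSup_of_le 0 (le_iSup_of_le 1 (le_iSup_of_le ⟨one_pos, by simpa using hb.le⟩ ?_))
      rw [hcon (x - 0) 1 one_pos]
    have h2 : (1 : ℝ≥0∞) ≤ ENNReal.ofReal (Ug g x) := by
      rw [← ENNReal.ofReal_one]
      apply ENNReal.ofReal_le_ofReal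
      unfold Ug
      exact Real.one_le_exp (by positivity)
    calc ENNReal.ofReal (|poisson f 0 1| ^ p) = (ENNReal.ofReal |poisson f 0 1|) ^ p := by
          rw [ENNReal.ofReal_rpow_of_pos hpos]
      _ ≤ (ntMax b f x) ^ p := by gcongr
      _ = (ntMax b f x) ^ p * 1 := (mul_one _).symm
      _ ≤ _ := by gcongr
  have htop : ∫⁻ _ : ℝ, ENNReal.ofReal (|poisson f 0 1| ^ p) = ∞ := by
    rw [lintegral_const, Real.volume_univ]
    apply ENNReal.mul_top
    rw [← pos_iff_ne_zero, ENNReal.ofReal_pos]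
    positivity
  exact hK.ne (top_le_iff.1 (htop ▸ lintegral_mono hlow))

end Pool.Agent.Work.MP_055a27_an.Nv
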