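import Pool.Agent.Work.MP_055a27_an.Nv.Stmts

/-!
# The weight `exp (|x| ^ g)` is in weak `A_∞`
-/

set_option autoImplicit false

open MeasureTheory Set Filter Topology
open scoped ENNReal NNReal

namespace Pool.Agent.Work.MP_055a27_an.Nv

namespace Wk

lemma cont {g : ℝ} (hg : 0 < g) : Continuous (Ug g) := by
  unfold Ug
  exact Real.continuous_exp.comp (continuous_abs.rpow_const fun x => Or.inr hg.le)

lemma hint {g : ℝ} (hg : 0 < g) (a c : ℝ) : IntegrableOn (Ug g) (Icc a c) :=
  (cont hg).continuousOn.integrableOn_Icc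

lemma low {g : ℝ} (hg : 0 < g) {a c m : ℝ} (hac : a ≤ c) (hm : 0 ≤ m)
    (h : ∀ t ∈ Icc a c, m ≤ |t|) : (c - a) * Real.exp (m ^ g) ≤ ∫ t in Icc a c, Ug g t := by
  calc (c - a) * Real.exp (m ^ g) = ∫ _t in Icc a c, Real.exp (m ^ g) := by
        rw [setIntegral_const, Real.volume_real_Icc_of_le hac, smul_eq_mul]
    _ ≤ _ := by
        apply setIntegral_mono_on _ (hint hg _ _) measurableSet_Icc
        · intro x hx
          exact Real.exp_le_exp.2 (Real.rpow_le_rpow hm (h x hx) hg.le)
        · exact integrableOn_const (by simp)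

end Wk

theorem I_Wk : StWk := by
  intro g hg
  refine ⟨2, 1, two_pos, one_pos, ?_⟩
  intro x r hr E hE hEs
  rw [Real.rpow_one]
  have hpos : ∀ t, 0 ≤ Ug g t := fun t => (Real.exp_pos _).le
  have hm : 0 ≤ |x| + r := by positivity
  have hEfin : volume E ≠ ∞ := ((measure_mono hEs).trans_lt (by simp)).ne
  have hup : ∫ t in E, Ug g t ≤ volume.real E * Real.exp ((|x| + r) ^ g) := by
    calc ∫ t in E, Ug g t ≤ ∫ _t in E, Real.exp ((|x| + r) ^ g) := by
          apply setIntegral_mono_on ((Wk.hint hg _ _).mono_set hEs) _ hE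
          · intro t ht
            have h1 := hEs ht
            refine Real.exp_le_exp.2 (Real.rpow_le_rpow (abs_nonneg _) ?_ hg.le)
            rw [abs_le]
            constructor
            · linarith [neg_abs_le x, h1.1]
            · linarith [le_abs_self x, h1.2]
          · exact integrableOn_const hEfin
      _ = _ := by rw [setIntegral_const, smul_eq_mul]
  have hlow : r * Real.exp ((|x| + r) ^ g) ≤ ∫ t in Icc (x - 2 * r) (x + 2 * r), Ug g t := by
    have key : ∀ a c : ℝ, c - a = r → Icc a c ⊆ Icc (x - 2 * r) (x + 2 * r) →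
        (∀ t ∈ Icc a c, |x| + r ≤ |t|) →
        r * Real.exp ((|x| + r) ^ g) ≤ ∫ t in Icc (x - 2 * r) (x + 2 * r), Ug g t := by
      intro a c hac hsub ht
      have h1 := Wk.low hg (by linarith) hm ht
      rw [hac] at h1
      refine h1.trans ?_
      apply setIntegral_mono_set (Wk.hint hg _ _)
      · filter_upwards with t using hpos t
      · exact hsub.eventuallyLE
    rcases le_total 0 x with hx | hx
    · refine key (x + r) (x + 2 * r) (by ring) (Icc_subset_Icc (by linarith) le_rfl) ?_
      intro t ht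
      rw [abs_of_nonneg hx]
      exact ht.1.trans (le_abs_self t)
    · refine key (x - 2 * r) (x - r) (by ring) (Icc_subset_Icc le_rfl (by linarith)) ?_
      intro t ht
      rw [abs_of_nonpos hx]
      have := neg_abs_le t
      linarith [ht.2]
  have hE0 : 0 ≤ volume.real E := measureReal_nonneg
  calc ∫ t in E, Ug g t ≤ volume.real E * Real.exp ((|x| + r) ^ g) := hup
    _ = 2 * (volume.real E / (2 * r)) * (r * Real.exp ((|x| + r) ^ g)) := by
        field_simp
    _ ≤ _ := mul_le_mul_of_nonneg_left hlow (by positivity)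

end Pool.Agent.Work.MP_055a27_an.Nv
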